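import Mathlib

/-!
# The arithmetic of the gap: Welch's bound against the lower bound `s² ≤ k`
-/

set_option autoImplicit false

namespace Pool.Agent.Lib.MP_d0f9e0_co.K2

/-- No indecomposable block of `k ≤ m` matrices, `k ≥ 2`, can satisfy both Welch's bound and
`s² ≤ k`, `2 r ≤ k + s`. -/
def Good (d m : ℕ) : Prop :=
  ∀ k r s : ℕ, 2 ≤ k → k ≤ m → k * (d + 1) ≤ r * (d + k) → 2 * r ≤ k + s → k < s ^ 2

theorem Good.mono {d m m' : ℕ} (h : Good d m) (hm : m' ≤ m) : Good d m' :=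
  fun k r s h2 hk => h k r s h2 (hk.trans hm)

theorem good_of_lt (d m : ℕ) (h : (m : ℝ) < (Real.sqrt ((d : ℝ) + 1) - 1) ^ 2) : Good d m := by
  intro k r s h2 hk hr hs
  by_contra hcon
  push Not at hcon
  set a : ℝ := Real.sqrt ((d : ℝ) + 1) with ha
  have ha2 : a ^ 2 = d + 1 := Real.sq_sqrt (by positivity)
  have ha1 : 1 ≤ a := by
    rw [ha]
    exact Real.one_le_sqrt.mpr (by linarith [Nat.cast_nonneg (α := ℝ) d])
  set b : ℝ := Real.sqrt (k : ℝ) with hb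
  have hb2 : b ^ 2 = k := Real.sq_sqrt (Nat.cast_nonneg k)
  have hb0 : 0 ≤ b := Real.sqrt_nonneg _
  have hkR : (2 : ℝ) ≤ k := by exact_mod_cast h2
  have hb1 : 1 < b := by nlinarith
  have hkm : (k : ℝ) ≤ m := by exact_mod_cast hk
  have hba : b < a - 1 := by
    have h3 : b ^ 2 < (a - 1) ^ 2 := by rw [hb2]; linarith
    exact lt_of_pow_lt_pow_left₀ 2 (by linarith) h3
  have hsR : (s : ℝ) ≤ b := by
    have h3 : (s : ℝ) ^ 2 ≤ b ^ 2 := by rw [hb2]; exact_mod_cast hcon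
    exact (pow_le_pow_iff_left₀ (Nat.cast_nonneg s) hb0 two_ne_zero).mp h3
  have hrR : (k : ℝ) * (d + 1) ≤ r * (d + k) := by exact_mod_cast hr
  have hsR2 : 2 * (r : ℝ) ≤ k + s := by exact_mod_cast hs
  have hd0 : (0 : ℝ) ≤ d := Nat.cast_nonneg d
  have h4 : 2 * ((k : ℝ) * (d + 1)) ≤ (k + s) * (d + k) := by
    calc 2 * ((k : ℝ) * (d + 1)) ≤ 2 * (r * (d + k)) := by linarith
      _ = (2 * r) * (d + k) := by ring
      _ ≤ (k + s) * (d + k) := mul_le_mul_of_nonneg_right hsR2 (by positivity)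
  have h5 : (k + s) * ((d : ℝ) + k) ≤ (k + b) * (d + k) :=
    mul_le_mul_of_nonneg_right (by linarith) (by positivity)
  have h6 : 2 * (b ^ 2 * a ^ 2) ≤ (b ^ 2 + b) * (a ^ 2 - 1 + b ^ 2) := by
    have e1 : (d : ℝ) + 1 = a ^ 2 := ha2.symm
    have e2 : (d : ℝ) = a ^ 2 - 1 := by linarith
    rw [← hb2] at h4 h5
    rw [e1] at h4
    rw [e2] at h4 h5
    linarith
  have h7 : 0 ≤ b * ((b - 1) * ((b + 1) ^ 2 - a ^ 2)) := by
    have e3 : b * ((b - 1) * ((b + 1) ^ 2 - a ^ 2)) =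
        (b ^ 2 + b) * (a ^ 2 - 1 + b ^ 2) - 2 * (b ^ 2 * a ^ 2) := by ring
    rw [e3]; linarith
  have h8 : (b + 1) ^ 2 < a ^ 2 := by nlinarith
  have h9 : b * ((b - 1) * ((b + 1) ^ 2 - a ^ 2)) < 0 :=
    mul_neg_of_pos_of_neg (by linarith) (mul_neg_of_pos_of_neg (by linarith) (by linarith))
  linarith

theorem good_two (d m : ℕ) (hd : 1 ≤ d) (hm : m ≤ 2) : Good d m := by
  intro k r s h2 hk hr hs
  have hk2 : k = 2 := by omega
  subst hk2
  have hr2 : 2 ≤ r := by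
    by_contra hcon
    push Not at hcon
    interval_cases r <;> omega
  have hs2 : 2 ≤ s := by omega
  nlinarith

theorem good_three (d m : ℕ) (hd : 4 ≤ d) (hm : m ≤ 3) : Good d m := by
  intro k r s h2 hk hr hs
  rcases Nat.lt_or_ge k 3 with h | h
  · exact good_two d 2 (by omega) le_rfl k r s h2 (by omega) hr hs
  · have hk3 : k = 3 := by omega
    subst hk3
    have hr2 : 3 ≤ r := by
      by_contra hcon
      push Not at hcon
      interval_cases r <;> omega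
    have hs2 : 3 ≤ s := by omega
    nlinarith

end Pool.Agent.Lib.MP_d0f9e0_co.K2
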