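import Pool.Agent.Lib.MP_d0f9e0_co.K2.Defs

/-!
# The incidence count: at least `n ^ 2` classes
-/

set_option autoImplicit false

open Module

namespace Pool.Agent.Lib.MP_d0f9e0_co.K2

variable {M : Type*} [AddCommGroup M] [Module ℝ M] {C : Finset M}

theorem mem_span_pair' {x y z : M} : z ∈ Submodule.span ℝ {x, y} ↔ ∃ a b : ℝ, z = a • x + b • y := by
  rw [Submodule.mem_span_pair]
  constructor
  · rintro ⟨a, b, h⟩; exact ⟨a, b, h.symm⟩
  · rintro ⟨a, b, h⟩; exact ⟨a, b, h.symm⟩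

theorem pair_left (x y : M) : x ∈ Submodule.span ℝ {x, y} :=
  Submodule.subset_span (by simp)

theorem pair_right (x y : M) : y ∈ Submodule.span ℝ {x, y} :=
  Submodule.subset_span (by simp)

/-- exchange on a line -/
theorem exch (ev : M →ₗ[ℝ] ℝ) {X P S : M} (hX : ev X = 1) (hP : ev P = 1) (hS : ev S = 1)
    (h : S ∈ Submodule.span ℝ {X, P}) (hne : S ≠ X) : P ∈ Submodule.span ℝ {X, S} := by
  obtain ⟨a, b, hab⟩ := mem_span_pair'.mp h
  have h1 : a + b = 1 := by
    have := congrArg ev hab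
    rw [map_add, map_smul, map_smul, hX, hP, hS] at this
    simp only [smul_eq_mul, mul_one] at this
    exact this.symm
  have hb : b ≠ 0 := by
    intro hb
    apply hne
    rw [hab, hb, zero_smul, add_zero]
    rw [hb, add_zero] at h1
    rw [h1, one_smul]
  refine mem_span_pair'.mpr ⟨-(b⁻¹ * a), b⁻¹, ?_⟩
  rw [hab, smul_add, smul_smul, smul_smul, inv_mul_cancel₀ hb, one_smul, ← add_assoc, ← add_smul]
  rw [neg_add_cancel, zero_smul, zero_add]

namespace Inc

variable (I : Inc M C)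

theorem exch' {X P Q : M} (h : I.T X P Q) {S : M} (hS : S ∈ C) (hmem : S ∈ Submodule.span ℝ {X, P})
    (hne : S ≠ X) : P ∈ Submodule.span ℝ {X, S} :=
  exch I.ev (I.hev _ (I.memT h).1) (I.hev _ (I.memT h).2.1) (I.hev _ hS) hmem hne

/-- the span lemma -/
theorem span_star (X : M) (hX : X ∈ C) :
    Submodule.span ℝ ({X} ∪ {P | ∃ Q, I.T X P Q}) = ⊤ := by
  classical
  set Y := Submodule.span ℝ ({X} ∪ {P | ∃ Q, I.T X P Q}) with hY
  have hXY : X ∈ Y := Submodule.subset_span (Or.inl rfl)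
  have hTY : ∀ P Q, I.T X P Q → P ∈ Y := fun P Q h => Submodule.subset_span (Or.inr ⟨Q, h⟩)
  set A := C.filter (fun S => S ∈ Y ∧ ∀ U V, I.T S U V → U ∈ Y) with hA
  have hAmem : ∀ S, S ∈ A ↔ S ∈ C ∧ S ∈ Y ∧ ∀ U V, I.T S U V → U ∈ Y := by
    intro S
    rw [hA, Finset.mem_filter]
  have hdir : ∀ S P Q, I.T S P Q → S ∈ A → P ∈ A := by
    intro S P Q hT hS
    rw [hAmem] at hS ⊢
    obtain ⟨hSC, hSY, hSU⟩ := hS
    have hPY : P ∈ Y := hSU P Q hT
    have hQY : Q ∈ Y := hSU Q P (I.swap hT)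
    refine ⟨(I.memT hT).2.1, hPY, ?_⟩
    intro U V hUV
    by_contra hU
    have hPS : I.T P S Q := I.rot hT
    have hnot : U ∉ Submodule.span ℝ {P, S} := by
      intro h
      apply hU
      refine (Submodule.span_le.mpr ?_) h
      intro z hz
      rcases hz with rfl | hz
      · exact hPY
      · rw [Set.mem_singleton_iff] at hz
        rw [hz]; exact hSY
    obtain ⟨S', U', Y', hS', hU', hT', h1, h2⟩ := I.pasch hPS hUV hnot
    have h3 : I.T S Y' S' := I.rot h1
    have h4 : S' ∈ Y := hSU S' Y' (I.swap h3)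
    have h5 : U ∈ Submodule.span ℝ {P, S'} :=
      I.exch' hUV (I.memT hT').2.1 hS' (I.neT hT').1.symm
    apply hU
    refine (Submodule.span_le.mpr ?_) h5
    intro z hz
    rcases hz with rfl | hz
    · exact hPY
    · rw [Set.mem_singleton_iff] at hz
      rw [hz]; exact h4
  have hA2 : A = ∅ ∨ A = C := by
    apply I.conn A (Finset.filter_subset _ _)
    intro S P Q hT
    exact ⟨hdir S P Q hT, hdir P S Q (I.rot hT)⟩
  have hXA : X ∈ A := by
    rw [hAmem]
    exact ⟨hX, hXY, hTY⟩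
  rcases hA2 with h | h
  · rw [h] at hXA
    simp at hXA
  · rw [eq_top_iff, ← I.span]
    refine Submodule.span_le.mpr ?_
    intro S hS
    have : S ∈ A := by rw [h]; exact hS
    exact ((hAmem S).mp this).2.1

end Inc

/-- the arithmetic of the count -/
theorem count_sum (k : ℕ) (f : ℕ → ℕ) (h0 : f 0 = 1) (h1 : f 1 = 3) (h2 : f 2 = 2)
    (h3 : ∀ j, 3 ≤ j → f j = 0) : ∑ j ∈ Finset.range (k + 1), k.choose j * f j = (k + 1) ^ 2 := by
  have key : ∑ j ∈ Finset.range (k + 1), k.choose j * f j = ∑ j ∈ Finset.range 3, k.choose j * f j := by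
    rcases Nat.lt_or_ge k 2 with hk | hk
    · have hk' : k = 0 ∨ k = 1 := by omega
      rcases hk' with rfl | rfl
      · simp [Finset.sum_range_succ]
      · simp [Finset.sum_range_succ]
    · symm
      apply Finset.sum_subset
      · intro j hj
        rw [Finset.mem_range] at hj ⊢
        omega
      · intro j _ hj
        rw [Finset.mem_range, not_lt] at hj
        rw [h3 j hj, mul_zero]
  rw [key, Finset.sum_range_succ, Finset.sum_range_succ, Finset.sum_range_one, h0, h1, h2]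
  rw [Nat.choose_zero_right, Nat.choose_one_right]
  have h4 : k.choose 2 * 2 = k * (k - 1) := by
    rw [Nat.choose_two_right]
    exact Nat.div_mul_cancel (Nat.even_mul_pred_self k).two_dvd
  rw [h4]
  rcases k with _ | k
  · rfl
  · simp only [Nat.add_sub_cancel]
    ring

namespace Inc

/-- There are at least `n ^ 2` classes. -/
theorem card [FiniteDimensional ℝ M] (I : Inc M C) : finrank ℝ M ^ 2 ≤ C.card := by
  classical
  set X := I.X0 with hXdef
  have hX : X ∈ C := I.hX0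
  have hevX : I.ev X = 1 := I.hev _ hX
  have hX0 : X ≠ 0 := by
    intro h
    rw [h, map_zero] at hevX
    exact zero_ne_one hevX
  have hli : LinearIndepOn ℝ id ({X} : Set M) := by
    rw [linearIndepOn_singleton_iff]
    exact hX0
  have hsub : ({X} : Set M) ⊆ {X} ∪ {P | ∃ Q, I.T X P Q} := Set.subset_union_left
  set B := hli.extend hsub with hB
  set b := Basis.extendLe hli hsub (by rw [I.span_star X hX]) with hb
  have hbapp : ∀ i : B, b i = (i : M) := fun i => Basis.extendLe_apply_self _ _ _ i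
  have hXB : X ∈ B := hli.subset_extend hsub rfl
  have hBsub : B ⊆ {X} ∪ {P | ∃ Q, I.T X P Q} := hli.extend_subset hsub
  let _ : Fintype B := FiniteDimensional.fintypeBasisIndex b
  set D : Finset B := Finset.univ.erase ⟨X, hXB⟩ with hD
  have hDcard : D.card + 1 = finrank ℝ M := by
    have h0 : 0 < Fintype.card B := Fintype.card_pos_iff.mpr ⟨⟨X, hXB⟩⟩
    have h1 : finrank ℝ M = Fintype.card B := finrank_eq_card_basis b
    have h2 : D.card = Fintype.card B - 1 := by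
      rw [hD, Finset.card_erase_of_mem (Finset.mem_univ _), Finset.card_univ]
    rw [h1, h2]
    exact Nat.sub_add_cancel h0
  let supp : M → Finset B := fun Y => D.filter (fun i => b.repr Y i ≠ 0)
  have hsm : ∀ Y i, i ∈ supp Y ↔ i ≠ ⟨X, hXB⟩ ∧ b.repr Y i ≠ 0 := by
    intro Y i
    simp only [supp, hD, Finset.mem_filter, Finset.mem_erase, Finset.mem_univ, and_true]
  have hreprX : ∀ i : B, i ≠ ⟨X, hXB⟩ → b.repr X i = 0 := by
    intro i hi
    have h0 : b ⟨X, hXB⟩ = X := hbapp _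
    have h1 := b.repr_self ⟨X, hXB⟩
    rw [h0] at h1
    rw [h1, Finsupp.single_apply, if_neg (Ne.symm hi)]
  have hrepr : ∀ j i : B, b.repr (j : M) i = if j = i then 1 else 0 := by
    intro j i
    have h1 := b.repr_self j
    rw [hbapp j] at h1
    rw [h1, Finsupp.single_apply]
  -- points of a line through X
  have hline : ∀ (j : B), j ≠ ⟨X, hXB⟩ → ∀ Y ∈ C, Y ∈ Submodule.span ℝ {X, (j : M)} → Y ≠ X →
      ∃ (β : ℝ), β ≠ 0 ∧ ∀ i, i ≠ ⟨X, hXB⟩ → b.repr Y i = if j = i then β else 0 := by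
    intro j hj Y hY hmem hne
    obtain ⟨α, β, h⟩ := mem_span_pair'.mp hmem
    refine ⟨β, ?_, ?_⟩
    · intro hβ
      apply hne
      have h1 := congrArg I.ev h
      rw [hβ, zero_smul, add_zero, map_smul, hevX, I.hev _ hY, smul_eq_mul, mul_one] at h1
      rw [h, hβ, zero_smul, add_zero, ← h1, one_smul]
    · intro i hi
      rw [h, map_add, map_smul, map_smul, Finsupp.add_apply, Finsupp.smul_apply,
        Finsupp.smul_apply, hreprX i hi, hrepr, smul_zero, zero_add, smul_eq_mul, mul_ite,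
        mul_one, mul_zero]
  have hTj : ∀ j : B, j ≠ ⟨X, hXB⟩ → ∃ Q, I.T X j Q := by
    intro j hj
    rcases hBsub j.2 with h | h
    · exact absurd (Subtype.ext (Set.mem_singleton_iff.mp h)) hj
    · exact h
  -- three points on each line
  have hfour : ∀ j : B, j ≠ ⟨X, hXB⟩ → ∃ P Q K, P ∈ Submodule.span ℝ {X, (j : M)} ∧
      Q ∈ Submodule.span ℝ {X, (j : M)} ∧ K ∈ Submodule.span ℝ {X, (j : M)} ∧
      I.T X P Q ∧ I.T K P Q ∧ K ≠ X := by
    intro j hj
    obtain ⟨Q, hQ⟩ := hTj j hj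
    obtain ⟨P', Q', K, hP', hQ', h1, h2, h3⟩ := I.four hQ
    refine ⟨P', Q', K, hP', hQ', ?_, h1, h2, h3⟩
    have h4 : K ∈ Submodule.span ℝ {P', Q'} := I.col (I.swap (I.rot h2))
    refine (Submodule.span_le.mpr ?_) h4
    intro z hz
    rcases hz with rfl | hz
    · exact hP'
    · rw [Set.mem_singleton_iff] at hz
      rw [hz]; exact hQ'
  -- T in all orders
  have hT1 : ∀ {x y z : M}, I.T x y z → I.T y x z := fun h => I.rot h
  have hT2 : ∀ {x y z : M}, I.T x y z → I.T x z y := fun h => I.swap h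
  -- a point of a line through a point of `F1` and a point of `F2`
  have hpt : ∀ j1 j2 : B, j1 ≠ ⟨X, hXB⟩ → j2 ≠ ⟨X, hXB⟩ → j1 ≠ j2 →
      ∀ P S Y, P ∈ C → S ∈ C → Y ∈ C → P ∈ Submodule.span ℝ {X, (j1 : M)} →
      S ∈ Submodule.span ℝ {X, (j2 : M)} → P ≠ X → S ≠ X →
      Y ∈ Submodule.span ℝ {P, S} → Y ≠ P → Y ≠ S → supp Y = {j1, j2} := by
    intro j1 j2 hj1 hj2 h12 P S Y hP hS hY hPm hSm hPX hSX hYm hYP hYS
    obtain ⟨p, hp0, hp⟩ := hline j1 hj1 P hP hPm hPX
    obtain ⟨s, hs0, hs⟩ := hline j2 hj2 S hS hSm hSX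
    obtain ⟨α, β, h⟩ := mem_span_pair'.mp hYm
    have hab : α + β = 1 := by
      have h1 := congrArg I.ev h
      rw [map_add, map_smul, map_smul, I.hev _ hP, I.hev _ hS, I.hev _ hY] at h1
      simp only [smul_eq_mul, mul_one] at h1
      exact h1.symm
    have hα : α ≠ 0 := by
      intro h0
      apply hYS
      rw [h0, zero_add] at hab
      rw [h, h0, hab, zero_smul, zero_add, one_smul]
    have hβ : β ≠ 0 := by
      intro h0
      apply hYP
      rw [h0, add_zero] at hab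
      rw [h, h0, hab, zero_smul, add_zero, one_smul]
    ext i
    rw [hsm, Finset.mem_insert, Finset.mem_singleton]
    constructor
    · rintro ⟨hi, hr⟩
      by_contra hcon
      rw [not_or] at hcon
      apply hr
      rw [h, map_add, map_smul, map_smul, Finsupp.add_apply, Finsupp.smul_apply,
        Finsupp.smul_apply, hp i hi, hs i hi, if_neg (Ne.symm hcon.1), if_neg (Ne.symm hcon.2)]
      simp
    · rintro (rfl | rfl)
      · refine ⟨hj1, ?_⟩
        rw [h, map_add, map_smul, map_smul, Finsupp.add_apply, Finsupp.smul_apply,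
          Finsupp.smul_apply, hp i hj1, hs i hj1, if_pos rfl, if_neg (Ne.symm h12)]
        simp [hα, hp0]
      · refine ⟨hj2, ?_⟩
        rw [h, map_add, map_smul, map_smul, Finsupp.add_apply, Finsupp.smul_apply,
          Finsupp.smul_apply, hp i hj2, hs i hj2, if_neg h12, if_pos rfl]
        simp [hβ, hs0]
  have hsupp1 : ∀ j : B, j ≠ ⟨X, hXB⟩ → ∀ Y ∈ C, Y ∈ Submodule.span ℝ {X, (j : M)} → Y ≠ X →
      supp Y = {j} := by
    intro j hj Y hY hmem hne
    obtain ⟨β, hβ, h⟩ := hline j hj Y hY hmem hne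
    ext i
    rw [hsm, Finset.mem_singleton]
    constructor
    · rintro ⟨hi, hr⟩
      by_contra hcon
      apply hr
      rw [h i hi, if_neg (Ne.symm hcon)]
    · rintro rfl
      refine ⟨hj, ?_⟩
      rw [h i hj, if_pos rfl]
      exact hβ
  have hlineX : ∀ (j1 j2 : B), j1 ≠ ⟨X, hXB⟩ → j2 ≠ ⟨X, hXB⟩ → j1 ≠ j2 → ∀ P K S,
      P ∈ C → S ∈ C → K ∈ C → P ∈ Submodule.span ℝ {X, (j1 : M)} → K ∈ Submodule.span ℝ {X, (j1 : M)} →
      S ∈ Submodule.span ℝ {X, (j2 : M)} → S ≠ X → S ∉ Submodule.span ℝ {P, K} := by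
    intro j1 j2 hj1 hj2 h12 P K S hP hS hK hPm hKm hSm hSX hcon
    obtain ⟨s, hs0, hs⟩ := hline j2 hj2 S hS hSm hSX
    have h1 : S ∈ Submodule.span ℝ {X, (j1 : M)} := by
      refine (Submodule.span_le.mpr ?_) hcon
      intro z hz
      rcases hz with rfl | hz
      · exact hPm
      · rw [Set.mem_singleton_iff] at hz
        rw [hz]; exact hKm
    obtain ⟨p, hp0, hp⟩ := hline j1 hj1 S hS h1 hSX
    have h2 := hp j2 hj2
    rw [hs j2 hj2, if_pos rfl, if_neg h12] at h2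
    exact hs0 h2
  -- two points in each plane
  have htwo : ∀ j1 j2 : B, j1 ≠ ⟨X, hXB⟩ → j2 ≠ ⟨X, hXB⟩ → j1 ≠ j2 →
      ∃ Y1 Y2, Y1 ∈ C ∧ Y2 ∈ C ∧ Y1 ≠ Y2 ∧ supp Y1 = {j1, j2} ∧ supp Y2 = {j1, j2} := by
    intro j1 j2 hj1 hj2 h12
    obtain ⟨P, Q, K, hP, hQ, hK, hXPQ, hKPQ, hKX⟩ := hfour j1 hj1
    obtain ⟨Q2, hQ2⟩ := hTj j2 hj2
    have hPC := (I.memT hXPQ).2.1
    have hQC := (I.memT hXPQ).2.2
    have hKC := (I.memT hKPQ).1
    have hPX : P ≠ X := (I.neT hXPQ).1.symm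
    have hQX : Q ≠ X := (I.neT hXPQ).2.1.symm
    have hj2C : (j2 : M) ∈ C := (I.memT hQ2).2.1
    have hj2X : (j2 : M) ≠ X := (I.neT hQ2).1.symm
    have hn1 : (j2 : M) ∉ Submodule.span ℝ {X, P} :=
      hlineX j1 j2 hj1 hj2 h12 X P j2 hX hj2C hPC (pair_left _ _) hP (pair_right _ _) hj2X
    obtain ⟨S, U, Y, hS, hU, hXSU, hYPS, hYQU⟩ := I.pasch hXPQ hQ2 hn1
    have hSC := (I.memT hXSU).2.1
    have hUC := (I.memT hXSU).2.2
    have hYC := (I.memT hYPS).1
    have hSX : S ≠ X := (I.neT hXSU).1.symm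
    have hUX : U ≠ X := (I.neT hXSU).2.1.symm
    have hYm : Y ∈ Submodule.span ℝ {P, S} := I.col (hT2 (hT1 hYPS))
    have hYs : supp Y = {j1, j2} :=
      hpt j1 j2 hj1 hj2 h12 P S Y hPC hSC hYC hP hS hPX hSX hYm (I.neT hYPS).1 (I.neT hYPS).2.1
    -- Pasch at P
    have hPKQ : I.T P K Q := hT1 hKPQ
    have hPSY : I.T P S Y := hT2 (hT1 hYPS)
    have hn2 : S ∉ Submodule.span ℝ {P, K} :=
      hlineX j1 j2 hj1 hj2 h12 P K S hPC hSC hKC hP hK hS hSX
    obtain ⟨A, A', Z, hA, hA', hPAA, hZKA, hZQA⟩ := I.pasch hPKQ hPSY hn2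
    have hAC := (I.memT hPAA).2.1
    have hA'C := (I.memT hPAA).2.2
    have hZC := (I.memT hZKA).1
    refine ⟨Y, ?_⟩
    by_cases h1 : A ≠ S ∧ A ≠ Y
    · exact ⟨A, hYC, hAC, h1.2.symm, hYs, hpt j1 j2 hj1 hj2 h12 P S A hPC hSC hAC hP hS hPX hSX hA
        (I.neT hPAA).1.symm h1.1⟩
    by_cases h2 : A' ≠ S ∧ A' ≠ Y
    · exact ⟨A', hYC, hA'C, h2.2.symm, hYs, hpt j1 j2 hj1 hj2 h12 P S A' hPC hSC hA'C hP hS hPX hSX
        hA' (I.neT hPAA).2.1.symm h2.1⟩
    have h3 : A = S ∨ A = Y := by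
      by_contra hcon
      rw [not_or] at hcon
      exact h1 hcon
    have h4 : A' = S ∨ A' = Y := by
      by_contra hcon
      rw [not_or] at hcon
      exact h2 hcon
    have hAA' : A ≠ A' := (I.neT hPAA).2.2
    rcases h3 with h3 | h3
    · have h5 : A' = Y := by
        rcases h4 with h4 | h4
        · exact absurd (h3.trans h4.symm) hAA'
        · exact h4
      rw [h3] at hZKA
      rw [h5] at hZQA
      have hZm : Z ∈ Submodule.span ℝ {K, S} := I.col (hT2 (hT1 hZKA))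
      exact ⟨Z, hYC, hZC, (I.neT hZQA).2.1.symm, hYs, hpt j1 j2 hj1 hj2 h12 K S Z hKC hSC hZC hK hS
        hKX hSX hZm (I.neT hZKA).1 (I.neT hZKA).2.1⟩
    · have h5 : A' = S := by
        rcases h4 with h4 | h4
        · exact h4
        · exact absurd (h3.trans h4.symm) hAA'
      rw [h3] at hZKA
      rw [h5] at hZQA
      have hZm : Z ∈ Submodule.span ℝ {Q, S} := I.col (hT2 (hT1 hZQA))
      exact ⟨Z, hYC, hZC, (I.neT hZKA).2.1.symm, hYs, hpt j1 j2 hj1 hj2 h12 Q S Z hQC hSC hZC hQ hS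
        hQX hSX hZm (I.neT hZQA).1 (I.neT hZQA).2.1⟩
  -- the count
  let f : ℕ → ℕ := fun j => if j = 0 then 1 else if j = 1 then 3 else if j = 2 then 2 else 0
  have hmaps : ∀ Y ∈ C, supp Y ∈ D.powerset := by
    intro Y _
    rw [Finset.mem_powerset]
    exact Finset.filter_subset _ _
  rw [Finset.card_eq_sum_card_fiberwise hmaps]
  have hle : ∑ s ∈ D.powerset, f s.card ≤
      ∑ s ∈ D.powerset, (C.filter (fun Y => supp Y = s)).card := by
    apply Finset.sum_le_sum
    intro s hs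
    rw [Finset.mem_powerset] at hs
    have hsX : ∀ i ∈ s, i ≠ ⟨X, hXB⟩ := by
      intro i hi
      have := hs hi
      rw [hD, Finset.mem_erase] at this
      exact this.1
    by_cases c0 : s.card = 0
    · rw [Finset.card_eq_zero] at c0
      have h1 : f s.card = 1 := by rw [c0]; rfl
      rw [h1, Nat.succ_le_iff, Finset.card_pos]
      refine ⟨X, ?_⟩
      rw [Finset.mem_filter]
      refine ⟨hX, ?_⟩
      rw [c0, Finset.eq_empty_iff_forall_notMem]
      intro i hi
      rw [hsm] at hi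
      exact hi.2 (hreprX i hi.1)
    by_cases c1 : s.card = 1
    · obtain ⟨j, hj⟩ := Finset.card_eq_one.mp c1
      have hjX : j ≠ ⟨X, hXB⟩ := hsX j (by rw [hj]; exact Finset.mem_singleton_self j)
      have h1 : f s.card = 3 := by rw [c1]; rfl
      obtain ⟨P, Q, K, hP, hQ, hK, hXPQ, hKPQ, hKX⟩ := hfour j hjX
      rw [h1]
      have h2 : ({P, Q, K} : Finset M).card = 3 := by
        rw [Finset.card_eq_three]
        exact ⟨P, Q, K, (I.neT hXPQ).2.2, (I.neT hKPQ).1.symm, (I.neT hKPQ).2.1.symm, rfl⟩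
      rw [← h2]
      apply Finset.card_le_card
      intro Y hY
      rw [Finset.mem_insert, Finset.mem_insert, Finset.mem_singleton] at hY
      rw [Finset.mem_filter, hj]
      rcases hY with rfl | rfl | rfl
      · exact ⟨(I.memT hXPQ).2.1, hsupp1 j hjX _ (I.memT hXPQ).2.1 hP (I.neT hXPQ).1.symm⟩
      · exact ⟨(I.memT hXPQ).2.2, hsupp1 j hjX _ (I.memT hXPQ).2.2 hQ (I.neT hXPQ).2.1.symm⟩
      · exact ⟨(I.memT hKPQ).1, hsupp1 j hjX _ (I.memT hKPQ).1 hK hKX⟩
    by_cases c2 : s.card = 2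
    · obtain ⟨j1, j2, h12, hj⟩ := Finset.card_eq_two.mp c2
      have hj1 : j1 ≠ ⟨X, hXB⟩ := hsX j1 (by rw [hj]; simp)
      have hj2 : j2 ≠ ⟨X, hXB⟩ := hsX j2 (by rw [hj]; simp)
      have h1 : f s.card = 2 := by rw [c2]; rfl
      obtain ⟨Y1, Y2, hY1, hY2, hne, hs1, hs2⟩ := htwo j1 j2 hj1 hj2 h12
      rw [h1]
      have h2 : ({Y1, Y2} : Finset M).card = 2 := Finset.card_pair hne
      rw [← h2]
      apply Finset.card_le_card
      intro Y hY
      rw [Finset.mem_insert, Finset.mem_singleton] at hY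
      rw [Finset.mem_filter, hj]
      rcases hY with rfl | rfl
      · exact ⟨hY1, hs1⟩
      · exact ⟨hY2, hs2⟩
    · have h1 : f s.card = 0 := by
        simp only [f, if_neg c0, if_neg c1, if_neg c2]
      rw [h1]
      exact Nat.zero_le _
  refine le_trans (le_of_eq ?_) hle
  rw [Finset.sum_powerset_apply_card]
  have h5 := count_sum D.card f rfl rfl rfl (by
    intro j hj
    simp only [f, if_neg (show j ≠ 0 by omega), if_neg (show j ≠ 1 by omega),
      if_neg (show j ≠ 2 by omega)])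
  simp only [smul_eq_mul]
  rw [h5, hDcard]

end Inc

end Pool.Agent.Lib.MP_d0f9e0_co.K2
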