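import Mathlib

/-!
# The commutant of a real matrix
-/

set_option autoImplicit false

open Module

namespace Pool.Agent.Lib.MP_d0f9e0_co.K2

section CommS

variable {k : Type*} [Fintype k] [DecidableEq k]

/-- the matrices commuting with `A` -/
def commS (A : Matrix k k ℝ) : Submodule ℝ (Matrix k k ℝ) where
  carrier := {S | A * S = S * A}
  add_mem' := by
    intro S T hS hT
    change A * S = S * A at hS
    change A * T = T * A at hT
    change A * (S + T) = (S + T) * A
    rw [mul_add, add_mul, hS, hT]
  zero_mem' := by simp
  smul_mem' := by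
    intro c S hS
    change A * S = S * A at hS
    change A * (c • S) = (c • S) * A
    rw [Matrix.mul_smul, Matrix.smul_mul, hS]

theorem mem_commS {A S : Matrix k k ℝ} : S ∈ commS A ↔ A * S = S * A := Iff.rfl

theorem mem_commS_diagonal {s : k → ℝ} {S : Matrix k k ℝ} :
    S ∈ commS (Matrix.diagonal s) ↔ ∀ i j, s i ≠ s j → S i j = 0 := by
  rw [mem_commS]
  constructor
  · intro h i j hij
    have h1 := congrFun (congrFun h i) j
    rw [Matrix.diagonal_mul, Matrix.mul_diagonal] at h1
    have h2 : (s i - s j) * S i j = 0 := by linarith
    rcases mul_eq_zero.mp h2 with h3 | h3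
    · exact absurd (sub_eq_zero.mp h3) hij
    · exact h3
  · intro h
    ext i j
    rw [Matrix.diagonal_mul, Matrix.mul_diagonal]
    by_cases hij : s i = s j
    · rw [hij]; ring
    · rw [h i j hij]; ring

/-- The dimension of the commutant of a diagonal matrix. -/
theorem finrank_commS_diagonal (s : k → ℝ) :
    finrank ℝ (commS (Matrix.diagonal s)) = Nat.card {p : k × k // s p.1 = s p.2} := by
  classical
  let e : commS (Matrix.diagonal s) ≃ₗ[ℝ] ({p : k × k // s p.1 = s p.2} → ℝ) :=
    { toFun := fun S p => S.1 p.1.1 p.1.2
      map_add' := fun S T => by funext p; simp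
      map_smul' := fun c S => by funext p; simp
      invFun := fun f => ⟨Matrix.of fun i j => if h : s i = s j then f ⟨(i, j), h⟩ else 0, by
        rw [mem_commS_diagonal]
        intro i j hij
        simp [hij]⟩
      left_inv := by
        intro S
        apply Subtype.ext
        funext i j
        by_cases h : s i = s j
        · simp [h]
        · simp only [Matrix.of_apply]
          rw [dif_neg h]
          exact (mem_commS_diagonal.mp S.2 i j h).symm
      right_inv := by
        intro f
        funext p
        simp [p.2] }
  rw [LinearEquiv.finrank_eq e, Module.finrank_fintype_fun_eq_card, Nat.card_eq_fintype_card]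

/-- Conjugation by an isometry: the commutant does not get smaller. -/
theorem finrank_commS_le {l : Type*} [Fintype l] [DecidableEq l] (A : Matrix k k ℝ)
    (D : Matrix l l ℝ) (Q : Matrix k l ℝ) (hQ : Q.transpose * Q = 1) (hA : A.IsSymm)
    (hD : D.IsSymm) (h : A * Q = Q * D) : finrank ℝ (commS D) ≤ finrank ℝ (commS A) := by
  have hT : Q.transpose * A = D * Q.transpose := by
    have h1 := congrArg Matrix.transpose h
    rw [Matrix.transpose_mul, Matrix.transpose_mul, hA.eq, hD.eq] at h1
    exact h1
  let f : commS D →ₗ[ℝ] commS A :=
    { toFun := fun S => ⟨Q * S.1 * Q.transpose, by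
        rw [mem_commS]
        have hS := mem_commS.mp S.2
        calc A * (Q * S.1 * Q.transpose) = (A * Q) * S.1 * Q.transpose := by
              simp only [Matrix.mul_assoc]
          _ = Q * (D * S.1) * Q.transpose := by rw [h]; simp only [Matrix.mul_assoc]
          _ = Q * (S.1 * D) * Q.transpose := by rw [hS]
          _ = Q * S.1 * (D * Q.transpose) := by simp only [Matrix.mul_assoc]
          _ = Q * S.1 * (Q.transpose * A) := by rw [hT]
          _ = Q * S.1 * Q.transpose * A := by simp only [Matrix.mul_assoc]⟩
      map_add' := fun S T => by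
        apply Subtype.ext
        change Q * (S.1 + T.1) * Q.transpose = Q * S.1 * Q.transpose + Q * T.1 * Q.transpose
        rw [Matrix.mul_add, Matrix.add_mul]
      map_smul' := fun c S => by
        apply Subtype.ext
        change Q * (c • S.1) * Q.transpose = c • (Q * S.1 * Q.transpose)
        rw [Matrix.mul_smul, Matrix.smul_mul] }
  apply LinearMap.finrank_le_finrank_of_injective (f := f)
  intro S T hST
  have h1 : Q * S.1 * Q.transpose = Q * T.1 * Q.transpose := congrArg Subtype.val hST
  have h2 : ∀ X : Matrix l l ℝ, Q.transpose * (Q * X * Q.transpose) * Q = X := by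
    intro X
    calc Q.transpose * (Q * X * Q.transpose) * Q
        = (Q.transpose * Q) * X * (Q.transpose * Q) := by simp only [Matrix.mul_assoc]
      _ = X := by rw [hQ, Matrix.one_mul, Matrix.mul_one]
  apply Subtype.ext
  rw [← h2 S.1, ← h2 T.1, h1]

end CommS

end Pool.Agent.Lib.MP_d0f9e0_co.K2
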