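import Mathlib

/-!
# Indecomposable symmetric families: definitions

`V` is a real vector space with a skew form `Ω : V → V → W` with values in a Euclidean space,
satisfying the Bianchi identity (the imaginary parts of a symmetric Hermitian family).
-/

set_option autoImplicit false

open Module
open scoped InnerProductSpace

namespace Pool.Agent.Lib.MP_d0f9e0_co.K2

section Real

variable {V : Type*} [AddCommGroup V] [Module ℝ V]
variable {W : Type*} [NormedAddCommGroup W] [InnerProductSpace ℝ W]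

/-- skew forms with the Bianchi identity -/
structure Bi (Om : V →ₗ[ℝ] V →ₗ[ℝ] W) : Prop where
  skew : ∀ x y, Om x y = -Om y x
  bianchi : ∀ x y z w, ⟪Om x y, Om z w⟫_ℝ + ⟪Om x z, Om w y⟫_ℝ + ⟪Om x w, Om y z⟫_ℝ = 0

/-- the projection of the family to the subspace `W'` still satisfies the Bianchi identity -/
def BiOn [FiniteDimensional ℝ W] (Om : V →ₗ[ℝ] V →ₗ[ℝ] W) (W' : Submodule ℝ W) : Prop :=
  ∀ x y z w, ⟪W'.starProjection (Om x y), Om z w⟫_ℝ + ⟪W'.starProjection (Om x z), Om w y⟫_ℝ +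
    ⟪W'.starProjection (Om x w), Om y z⟫_ℝ = 0

/-- a family with a complex structure which is nondegenerate, spans `W` and does not split -/
structure Irr [FiniteDimensional ℝ W] (Om : V →ₗ[ℝ] V →ₗ[ℝ] W) (J : V →ₗ[ℝ] V) : Prop
    extends Bi Om where
  hJ : ∀ x, J (J x) = -x
  OJ : ∀ x y, Om (J x) (J y) = Om x y
  nd : ∀ x, (∀ y, Om x y = 0) → x = 0
  sp : Submodule.span ℝ {z | ∃ x y, Om x y = z} = ⊤
  irr : ∀ W' : Submodule ℝ W, BiOn Om W' → W' = ⊥ ∨ W' = ⊤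

/-- `e` has maximal rank -/
def MaxRank (Om : V →ₗ[ℝ] V →ₗ[ℝ] W) (e : V) : Prop :=
  ∀ e', finrank ℝ (LinearMap.range (Om e')) ≤ finrank ℝ (LinearMap.range (Om e))

/-- A diagonalisation at `e`: `ξ j` is an orthonormal basis of the range of `Om e`, `ξ j = Om e (σ j)`,
and the `Om v`, `v` in the kernel of `Om e`, are diagonal with eigenvalues `χ j v`. -/
structure Dg (Om : V →ₗ[ℝ] V →ₗ[ℝ] W) (e : V) (k : ℕ) (ξ : Fin k → W) (σ : Fin k → V)
    (χ : Fin k → (LinearMap.ker (Om e) →ₗ[ℝ] ℝ)) : Prop where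
  hk : k = finrank ℝ (LinearMap.range (Om e))
  on : Orthonormal ℝ ξ
  hσ : ∀ j, Om e (σ j) = ξ j
  rep : ∀ x, Om e x = ∑ j, ⟪ξ j, Om e x⟫_ℝ • ξ j
  diag : ∀ (v : LinearMap.ker (Om e)) (x : V),
    Om v.1 x = ∑ j, (χ j v * ⟪ξ j, Om e x⟫_ℝ) • ξ j
  uu : ∀ v w : LinearMap.ker (Om e), Om v.1 w.1 = 0

/-- the number of pairs of equal eigenfunctionals (the dimension of the commutant) -/
noncomputable def comm {U : Type*} [AddCommGroup U] [Module ℝ U] {k : ℕ}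
    (χ : Fin k → (U →ₗ[ℝ] ℝ)) : ℕ := Nat.card {p : Fin k × Fin k // χ p.1 = χ p.2}

end Real

section Root

/-- The relations at a generic vector (root data).  `χ i` are the eigenfunctionals,
`a i j k = ⟪ξ i, Om (σ j) (σ k)⟫`, `c i = ⟪ξ i, Om e (J e)⟫`. -/
structure Root (M : Type*) [AddCommGroup M] [Module ℝ M] (k : ℕ) where
  χ : Fin k → M
  a : Fin k → Fin k → Fin k → ℝ
  c : Fin k → ℝ
  ev : M →ₗ[ℝ] ℝ
  hev : ∀ i, ev (χ i) = 1
  skew : ∀ i j l, a i j l = -a i l j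
  /-- Bianchi with one argument in the kernel -/
  one : ∀ i j l, a i j l • χ i + a j l i • χ j + a l i j • χ l = 0
  /-- Bianchi with four arguments of pairwise different classes -/
  two : ∀ p q s t, χ p ≠ χ q → χ p ≠ χ s → χ p ≠ χ t → χ q ≠ χ s → χ q ≠ χ t → χ s ≠ χ t →
    ∑ i, (a i p q * a i s t - a i p s * a i q t + a i p t * a i q s) = 0
  /-- first genericity relation -/
  gen1 : ∀ i j l, χ i = χ j → i ≠ j → χ l ≠ χ i → a i j l = 0
  /-- second genericity relation: for `i, j` in one class `X`, `l` not in `X` and any `h` for which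
  `χ g = χ i + t g • h` for the `g` of the flat spanned by `χ i` and `χ l` -/
  gen2 : ∀ (i l : Fin k), χ l ≠ χ i → ∀ (t : Fin k → ℝ) (F : Finset (Fin k)),
    (∀ g, g ∈ F ↔ (χ g ≠ χ i ∧ χ g ∈ Submodule.span ℝ {χ i, χ l})) →
    (∀ g ∈ F, χ g = χ i + t g • (χ l - χ i)) →
    ∃ s : ℝ, ∀ j j', χ j = χ i → χ j' = χ i →
      ∑ g ∈ F, ((t g)⁻¹ - (t l)⁻¹) * (a g l j * a g l j') = if j = j' then s else 0
  /-- the classes span -/
  span : Submodule.span ℝ (Set.range χ) = ⊤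
  /-- the classes with `c ≠ 0` span -/
  spanc : Submodule.span ℝ {X | ∃ i, c i ≠ 0 ∧ χ i = X} = ⊤
  /-- the complex structure -/
  cplx : ∀ p l, p ≠ l → ∃ r : ℝ, ∑ j, (c j * a p j l) • χ j = r • χ p
  /-- connectedness of the graph of interacting classes -/
  conn : ∀ A : Set (Fin k), (∀ i j, χ i = χ j → (i ∈ A ↔ j ∈ A)) →
    (∀ i j l, χ i ≠ χ j → χ i ≠ χ l → χ j ≠ χ l → a i j l ≠ 0 → (i ∈ A ↔ j ∈ A)) →
    A = ∅ ∨ A = Set.univ

end Root

section Inc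

/-- The incidence structure of the classes. -/
structure Inc (M : Type*) [AddCommGroup M] [Module ℝ M] (C : Finset M) where
  T : M → M → M → Prop
  ev : M →ₗ[ℝ] ℝ
  hev : ∀ X ∈ C, ev X = 1
  memT : ∀ {X P Q}, T X P Q → X ∈ C ∧ P ∈ C ∧ Q ∈ C
  neT : ∀ {X P Q}, T X P Q → X ≠ P ∧ X ≠ Q ∧ P ≠ Q
  swap : ∀ {X P Q}, T X P Q → T X Q P
  rot : ∀ {X P Q}, T X P Q → T P X Q
  col : ∀ {X P Q}, T X P Q → Q ∈ Submodule.span ℝ {X, P}
  /-- the Pasch property -/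
  pasch : ∀ {X P Q S U}, T X P Q → T X S U → S ∉ Submodule.span ℝ {X, P} →
    ∃ S' U' Y, S' ∈ Submodule.span ℝ {X, S} ∧ U' ∈ Submodule.span ℝ {X, S} ∧
      T X S' U' ∧ T Y P S' ∧ T Y Q U'
  span : Submodule.span ℝ (C : Set M) = ⊤
  conn : ∀ A : Finset M, A ⊆ C → (∀ X P Q, T X P Q → (X ∈ A ↔ P ∈ A)) → A = ∅ ∨ A = C
  /-- a special class -/
  X0 : M
  hX0 : X0 ∈ C
  four : ∀ {P Q}, T X0 P Q → ∃ P' Q' K, P' ∈ Submodule.span ℝ {X0, P} ∧
    Q' ∈ Submodule.span ℝ {X0, P} ∧ T X0 P' Q' ∧ T K P' Q' ∧ K ≠ X0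

end Inc

end Pool.Agent.Lib.MP_d0f9e0_co.K2
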