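import Mathlib
import Pool.Agent.Lib.MP_d0f9e0_co.K2.Defs

/-!
# Decomposition: an irreducible family has a connected graph of classes
-/

set_option autoImplicit false

open Module
open scoped InnerProductSpace

namespace Pool.Agent.Lib.MP_d0f9e0_co.K2

variable {V : Type*} [AddCommGroup V] [Module ℝ V]
variable {W : Type*} [NormedAddCommGroup W] [InnerProductSpace ℝ W]
variable {Om : V →ₗ[ℝ] V →ₗ[ℝ] W} {e : V} {k : ℕ} {ξ : Fin k → W} {σ : Fin k → V}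
  {χ : Fin k → (LinearMap.ker (Om e) →ₗ[ℝ] ℝ)}

theorem Dg.inn (hD : Dg Om e k ξ σ χ) (i j : Fin k) : ⟪ξ i, ξ j⟫_ℝ = if i = j then 1 else 0 :=
  orthonormal_iff_ite.mp hD.on i j

theorem Dg.inn_sum (hD : Dg Om e k ξ σ χ) (c : Fin k → ℝ) (i : Fin k) :
    ⟪ξ i, ∑ j, c j • ξ j⟫_ℝ = c i := by
  rw [inner_sum, Finset.sum_eq_single i]
  · rw [inner_smul_right, hD.inn, if_pos rfl, mul_one]
  · intro j _ hj
    rw [inner_smul_right, hD.inn, if_neg (Ne.symm hj), mul_zero]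
  · intro h; exact absurd (Finset.mem_univ i) h

theorem Dg.coord (hD : Dg Om e k ξ σ χ) (i j : Fin k) :
    ⟪ξ i, Om e (σ j)⟫_ℝ = if i = j then 1 else 0 := by
  rw [hD.hσ, hD.inn]

theorem Dg.ker_ip (hD : Dg Om e k ξ σ χ) (u : V) (hu : Om e u = 0) (i : Fin k) (x : V) :
    ⟪ξ i, Om u x⟫_ℝ = χ i ⟨u, hu⟩ * ⟪ξ i, Om e x⟫_ℝ := by
  have h := hD.diag ⟨u, hu⟩ x
  rw [h, hD.inn_sum]

theorem Dg.chi_e (hD : Dg Om e k ξ σ χ) (he : Om e e = 0) (i : Fin k) :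
    χ i ⟨e, he⟩ = 1 := by
  have h := hD.ker_ip e he i (σ i)
  rw [hD.coord, if_pos rfl, mul_one] at h
  exact h.symm

/-- the part over the index set `S` -/
noncomputable def pr (Om : V →ₗ[ℝ] V →ₗ[ℝ] W) (e : V) {k : ℕ} (ξ : Fin k → W) (σ : Fin k → V)
    (S : Finset (Fin k)) (x : V) : V := ∑ j ∈ S, ⟪ξ j, Om e x⟫_ℝ • σ j

theorem Dg.coord_pr (hD : Dg Om e k ξ σ χ) (S : Finset (Fin k)) (x : V) (i : Fin k) :
    ⟪ξ i, Om e (pr Om e ξ σ S x)⟫_ℝ = if i ∈ S then ⟪ξ i, Om e x⟫_ℝ else 0 := by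
  unfold pr
  rw [map_sum, inner_sum]
  have h : ∀ j ∈ S, ⟪ξ i, Om e (⟪ξ j, Om e x⟫_ℝ • σ j)⟫_ℝ = if i = j then ⟪ξ i, Om e x⟫_ℝ else 0 := by
    intro j _
    rw [map_smul, inner_smul_right, hD.coord]
    by_cases hij : i = j
    · rw [if_pos hij, if_pos hij, mul_one, hij]
    · rw [if_neg hij, if_neg hij, mul_zero]
  rw [Finset.sum_congr rfl h, Finset.sum_ite_eq]

theorem Dg.sub_pr_mem (hD : Dg Om e k ξ σ χ) (x : V) :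
    Om e (x - pr Om e ξ σ Finset.univ x) = 0 := by
  rw [map_sub, hD.rep (pr Om e ξ σ Finset.univ x)]
  simp only [hD.coord_pr, Finset.mem_univ, if_true]
  rw [← hD.rep, sub_self]

theorem pr_split (S : Finset (Fin k)) (x : V) :
    pr Om e ξ σ Finset.univ x = pr Om e ξ σ S x + pr Om e ξ σ Sᶜ x := by
  unfold pr
  rw [← Finset.sum_add_sum_compl S]

theorem ip_pr (S T : Finset (Fin k)) (z : W) (x y : V) :
    ⟪z, Om (pr Om e ξ σ S x) (pr Om e ξ σ T y)⟫_ℝ =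
      ∑ j ∈ S, ∑ l ∈ T, ⟪ξ j, Om e x⟫_ℝ * (⟪ξ l, Om e y⟫_ℝ * ⟪z, Om (σ j) (σ l)⟫_ℝ) := by
  unfold pr
  rw [map_sum Om, LinearMap.sum_apply, inner_sum]
  refine Finset.sum_congr rfl fun j _ => ?_
  rw [map_sum, inner_sum]
  refine Finset.sum_congr rfl fun l _ => ?_
  rw [map_smul Om, LinearMap.smul_apply, map_smul, inner_smul_right, inner_smul_right]

/-- the index set `S` is separated from its complement -/
structure Sep (Om : V →ₗ[ℝ] V →ₗ[ℝ] W) {k : ℕ} (ξ : Fin k → W) (σ : Fin k → V)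
    (S : Finset (Fin k)) : Prop where
  v1 : ∀ i j l, ¬(i ∈ S ↔ j ∈ S) → ¬(i ∈ S ↔ l ∈ S) → ⟪ξ i, Om (σ j) (σ l)⟫_ℝ = 0
  v2 : ∀ i j l, (i ∈ S ↔ j ∈ S) → i ≠ j → ¬(i ∈ S ↔ l ∈ S) → ⟪ξ i, Om (σ j) (σ l)⟫_ℝ = 0
  perp : ∀ z, (∀ j, ⟪ξ j, z⟫_ℝ = 0) → ∀ j l, ¬(j ∈ S ↔ l ∈ S) → ⟪z, Om (σ j) (σ l)⟫_ℝ = 0

theorem Sep.compl {S : Finset (Fin k)} (h : Sep Om ξ σ S) : Sep Om ξ σ Sᶜ where
  v1 i j l h1 h2 := h.v1 i j l (by simpa [not_iff_not] using h1) (by simpa [not_iff_not] using h2)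
  v2 i j l h1 h2 h3 := h.v2 i j l (by simpa [not_iff_not] using h1) h2
    (by simpa [not_iff_not] using h3)
  perp z hz j l h1 := h.perp z hz j l (by simpa [not_iff_not] using h1)

theorem Dg.split (hD : Dg Om e k ξ σ χ) (S : Finset (Fin k)) (y : V)
    (hy : ∀ j ∈ S, ⟪ξ j, Om e y⟫_ℝ = 0) :
    ∃ u, Om e u = 0 ∧ y = u + pr Om e ξ σ Sᶜ y := by
  refine ⟨y - pr Om e ξ σ Finset.univ y, hD.sub_pr_mem y, ?_⟩
  have h : pr Om e ξ σ S y = 0 := by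
    unfold pr
    refine Finset.sum_eq_zero fun j hj => ?_
    rw [hy j hj, zero_smul]
  rw [pr_split S y, h, zero_add, sub_add_cancel]

theorem Dg.b1 (hB : Bi Om) (hD : Dg Om e k ξ σ χ) {S : Finset (Fin k)} (hS : Sep Om ξ σ S)
    {i j : Fin k} (hi : i ∈ S) (hj : j ∈ S) (hij : i ≠ j) (y : V)
    (hy : ∀ j ∈ S, ⟪ξ j, Om e y⟫_ℝ = 0) : ⟪ξ i, Om (σ j) y⟫_ℝ = 0 := by
  obtain ⟨u, hu, hyu⟩ := hD.split S y hy
  rw [hyu, map_add, inner_add_right, hB.skew (σ j) u, inner_neg_right, hD.ker_ip u hu, hD.coord,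
    if_neg hij, mul_zero, neg_zero, zero_add]
  unfold pr
  rw [map_sum, inner_sum]
  refine Finset.sum_eq_zero fun l hl => ?_
  rw [map_smul, inner_smul_right, hS.v2 i j l (iff_of_true hi hj) hij, mul_zero]
  rw [Finset.mem_compl] at hl
  exact fun h => hl (h.mp hi)

theorem Dg.b1' (hB : Bi Om) (hD : Dg Om e k ξ σ χ) {S : Finset (Fin k)} (hS : Sep Om ξ σ S)
    {i : Fin k} (hi : i ∈ S) (x y : V) (hy : ∀ j ∈ S, ⟪ξ j, Om e y⟫_ℝ = 0) :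
    ⟪ξ i, Om (pr Om e ξ σ S x) y⟫_ℝ = ⟪ξ i, Om e x⟫_ℝ * ⟪ξ i, Om (σ i) y⟫_ℝ := by
  unfold pr
  rw [map_sum, LinearMap.sum_apply, inner_sum, Finset.sum_eq_single i]
  · rw [map_smul, LinearMap.smul_apply, inner_smul_right]
  · intro j hj hji
    rw [map_smul, LinearMap.smul_apply, inner_smul_right, hD.b1 hB hS hi hj (Ne.symm hji) y hy,
      mul_zero]
  · intro h; exact absurd hi h

theorem Dg.b2 (hB : Bi Om) (hD : Dg Om e k ξ σ χ) {S : Finset (Fin k)} (hS : Sep Om ξ σ S)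
    {i : Fin k} (hi : i ∈ S) (x y : V) (hx : ∀ j ∈ S, ⟪ξ j, Om e x⟫_ℝ = 0)
    (hy : ∀ j ∈ S, ⟪ξ j, Om e y⟫_ℝ = 0) : ⟪ξ i, Om x y⟫_ℝ = 0 := by
  obtain ⟨u, hu, hxu⟩ := hD.split S x hx
  obtain ⟨v, hv, hyv⟩ := hD.split S y hy
  have h1 : ⟪ξ i, Om u y⟫_ℝ = 0 := by rw [hD.ker_ip u hu, hy i hi, mul_zero]
  have h2 : ⟪ξ i, Om (pr Om e ξ σ Sᶜ x) v⟫_ℝ = 0 := by
    rw [hB.skew, inner_neg_right, hD.ker_ip v hv, hD.coord_pr, if_neg (by simpa using hi), mul_zero,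
      neg_zero]
  have h3 : ⟪ξ i, Om (pr Om e ξ σ Sᶜ x) (pr Om e ξ σ Sᶜ y)⟫_ℝ = 0 := by
    rw [ip_pr]
    refine Finset.sum_eq_zero fun j hj => Finset.sum_eq_zero fun l hl => ?_
    rw [Finset.mem_compl] at hj hl
    rw [hS.v1 i j l (fun h => hj (h.mp hi)) (fun h => hl (h.mp hi)), mul_zero, mul_zero]
  have h4 : ⟪ξ i, Om (pr Om e ξ σ Sᶜ x) y⟫_ℝ = 0 := by
    rw [hyv, map_add, inner_add_right, h2, zero_add]
    exact h3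
  rw [hxu, map_add, LinearMap.add_apply, inner_add_right, h1, h4, add_zero]

theorem Dg.k1 {S : Finset (Fin k)} (hS : Sep Om ξ σ S)
    {i : Fin k} (hi : i ∉ S) (x y : V) :
    ⟪ξ i, Om (pr Om e ξ σ S x) (pr Om e ξ σ S y)⟫_ℝ = 0 := by
  rw [ip_pr]
  refine Finset.sum_eq_zero fun j hj => Finset.sum_eq_zero fun l hl => ?_
  rw [hS.v1 i j l (fun h => hi (h.mpr hj)) (fun h => hi (h.mpr hl)), mul_zero, mul_zero]

/-- the component orthogonal to the range of `Om e` -/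
noncomputable def nrm (Om : V →ₗ[ℝ] V →ₗ[ℝ] W) {k : ℕ} (ξ : Fin k → W) (x y : V) : W :=
  Om x y - ∑ i, ⟪ξ i, Om x y⟫_ℝ • ξ i

theorem Dg.nrm_perp (hD : Dg Om e k ξ σ χ) (i : Fin k) (x y : V) :
    ⟪ξ i, nrm Om ξ x y⟫_ℝ = 0 := by
  unfold nrm
  rw [inner_sub_right, hD.inn_sum, sub_self]

theorem Dg.ip_of_perp (z : W) (hz : ∀ i, ⟪ξ i, z⟫_ℝ = 0) (x y : V) :
    ⟪z, Om x y⟫_ℝ = ⟪z, nrm Om ξ x y⟫_ℝ := by
  unfold nrm
  rw [inner_sub_right, inner_sum]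
  have h : ∑ i, ⟪z, ⟪ξ i, Om x y⟫_ℝ • ξ i⟫_ℝ = 0 := by
    refine Finset.sum_eq_zero fun i _ => ?_
    rw [inner_smul_right, real_inner_comm (ξ i) z, hz, mul_zero]
  rw [h, sub_zero]

theorem Dg.ip_split (hD : Dg Om e k ξ σ χ) (x y z w : V) :
    ⟪Om x y, Om z w⟫_ℝ = ∑ i, ⟪ξ i, Om x y⟫_ℝ * ⟪ξ i, Om z w⟫_ℝ +
      ⟪nrm Om ξ x y, nrm Om ξ z w⟫_ℝ := by
  have h1 : Om x y = ∑ i, ⟪ξ i, Om x y⟫_ℝ • ξ i + nrm Om ξ x y := by
    unfold nrm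
    rw [add_sub_cancel]
  have h2 : ⟪nrm Om ξ x y, Om z w⟫_ℝ = ⟪nrm Om ξ x y, nrm Om ξ z w⟫_ℝ :=
    Dg.ip_of_perp _ (fun i => hD.nrm_perp i x y) z w
  have h3 : ⟪∑ i, ⟪ξ i, Om x y⟫_ℝ • ξ i, Om z w⟫_ℝ = ∑ i, ⟪ξ i, Om x y⟫_ℝ * ⟪ξ i, Om z w⟫_ℝ := by
    rw [sum_inner]
    refine Finset.sum_congr rfl fun i _ => ?_
    rw [real_inner_smul_left]
  conv_lhs => rw [h1]
  rw [inner_add_left, h2, h3]

theorem Dg.perp_ker (hD : Dg Om e k ξ σ χ) (z : W) (hz : ∀ i, ⟪ξ i, z⟫_ℝ = 0) (u : V)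
    (hu : Om e u = 0) (y : V) : ⟪z, Om u y⟫_ℝ = 0 := by
  have h := hD.diag ⟨u, hu⟩ y
  change Om u y = _ at h
  rw [h, inner_sum]
  refine Finset.sum_eq_zero fun i _ => ?_
  rw [inner_smul_right, real_inner_comm (ξ i) z, hz, mul_zero]

theorem Dg.perp_mixed {S : Finset (Fin k)} (hS : Sep Om ξ σ S) (z : W)
    (hz : ∀ i, ⟪ξ i, z⟫_ℝ = 0) (x y : V) :
    ⟪z, Om (pr Om e ξ σ S x) (pr Om e ξ σ Sᶜ y)⟫_ℝ = 0 := by
  rw [ip_pr]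
  refine Finset.sum_eq_zero fun j hj => Finset.sum_eq_zero fun l hl => ?_
  rw [Finset.mem_compl] at hl
  rw [hS.perp z hz j l (fun h => hl (h.mp hj)), mul_zero, mul_zero]

theorem Dg.nrm_mixed (hD : Dg Om e k ξ σ χ) {S : Finset (Fin k)} (hS : Sep Om ξ σ S) (x y : V) :
    nrm Om ξ (pr Om e ξ σ S x) (pr Om e ξ σ Sᶜ y) = 0 := by
  have h1 := Dg.perp_mixed hS (e := e) (nrm Om ξ (pr Om e ξ σ S x) (pr Om e ξ σ Sᶜ y))
    (fun i => hD.nrm_perp i _ _) x y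
  rw [Dg.ip_of_perp _ (fun i => hD.nrm_perp i _ _)] at h1
  exact inner_self_eq_zero.mp h1

theorem nrm_skew (hB : Bi Om) (x y : V) : nrm Om ξ x y = - nrm Om ξ y x := by
  unfold nrm
  rw [hB.skew x y]
  simp only [inner_neg_right, neg_smul, Finset.sum_neg_distrib]
  abel

/-- the component over `S` and over the complement of `S` -/
theorem Dg.nrm_split (hB : Bi Om) (hD : Dg Om e k ξ σ χ) {S : Finset (Fin k)}
    (hS : Sep Om ξ σ S) (x y : V) :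
    nrm Om ξ x y = nrm Om ξ (pr Om e ξ σ S x) (pr Om e ξ σ S y) +
      nrm Om ξ (pr Om e ξ σ Sᶜ x) (pr Om e ξ σ Sᶜ y) := by
  have key : ∀ z, (∀ i, ⟪ξ i, z⟫_ℝ = 0) → ⟪z, nrm Om ξ x y⟫_ℝ =
      ⟪z, nrm Om ξ (pr Om e ξ σ S x) (pr Om e ξ σ S y) +
        nrm Om ξ (pr Om e ξ σ Sᶜ x) (pr Om e ξ σ Sᶜ y)⟫_ℝ := by
    intro z hz
    rw [inner_add_right, ← Dg.ip_of_perp z hz, ← Dg.ip_of_perp z hz, ← Dg.ip_of_perp z hz]
    set u := x - pr Om e ξ σ Finset.univ x with hu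
    set v := y - pr Om e ξ σ Finset.univ y with hv
    have hxu : x = u + (pr Om e ξ σ S x + pr Om e ξ σ Sᶜ x) := by
      rw [hu, ← pr_split, sub_add_cancel]
    have hyv : y = v + (pr Om e ξ σ S y + pr Om e ξ σ Sᶜ y) := by
      rw [hv, ← pr_split, sub_add_cancel]
    have hu0 : Om e u = 0 := hD.sub_pr_mem x
    have hv0 : Om e v = 0 := hD.sub_pr_mem y
    set xS := pr Om e ξ σ S x with hxS
    set xC := pr Om e ξ σ Sᶜ x with hxC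
    set yS := pr Om e ξ σ S y with hyS
    set yC := pr Om e ξ σ Sᶜ y with hyC
    have e1 : ⟪z, Om u y⟫_ℝ = 0 := hD.perp_ker z hz u hu0 y
    have e2 : ⟪z, Om (xS + xC) v⟫_ℝ = 0 := by
      rw [hB.skew, inner_neg_right, hD.perp_ker z hz v hv0, neg_zero]
    have e3 : ⟪z, Om xS yC⟫_ℝ = 0 := Dg.perp_mixed hS z hz x y
    have e4 : ⟪z, Om xC yS⟫_ℝ = 0 := by
      rw [hB.skew, inner_neg_right, Dg.perp_mixed hS z hz y x, neg_zero]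
    have e5 : ⟪z, Om x y⟫_ℝ = ⟪z, Om u y⟫_ℝ + (⟪z, Om (xS + xC) v⟫_ℝ + (⟪z, Om xS yS⟫_ℝ +
        ⟪z, Om xS yC⟫_ℝ + ⟪z, Om xC yS⟫_ℝ + ⟪z, Om xC yC⟫_ℝ)) := by
      have f1 : Om x y = Om u y + Om (xS + xC) y := by
        conv_lhs => rw [hxu]
        rw [map_add, LinearMap.add_apply]
      have f2 : Om (xS + xC) y = Om (xS + xC) v + (Om xS yS + Om xS yC + Om xC yS + Om xC yC) := by
        conv_lhs => rw [hyv]
        simp only [map_add, LinearMap.add_apply]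
        abel
      rw [f1, f2]
      simp only [inner_add_right]
    rw [e5, e1, e2, e3, e4]
    ring
  have h1 := key (nrm Om ξ x y - (nrm Om ξ (pr Om e ξ σ S x) (pr Om e ξ σ S y) +
        nrm Om ξ (pr Om e ξ σ Sᶜ x) (pr Om e ξ σ Sᶜ y))) (fun i => by
      rw [inner_sub_right, inner_add_right, hD.nrm_perp, hD.nrm_perp, hD.nrm_perp]; ring)
  rw [← sub_eq_zero, ← inner_sub_right] at h1
  exact sub_eq_zero.mp (inner_self_eq_zero.mp h1)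

/-- the orthogonal components over `S` and over its complement are orthogonal -/
theorem Dg.k4 (hB : Bi Om) (hD : Dg Om e k ξ σ χ) {S : Finset (Fin k)} (hS : Sep Om ξ σ S)
    (x y z w : V) : ⟪nrm Om ξ (pr Om e ξ σ S x) (pr Om e ξ σ S y),
      nrm Om ξ (pr Om e ξ σ Sᶜ z) (pr Om e ξ σ Sᶜ w)⟫_ℝ = 0 := by
  set X := pr Om e ξ σ S x with hX
  set Y := pr Om e ξ σ S y with hY
  set Z := pr Om e ξ σ Sᶜ z with hZ
  set T := pr Om e ξ σ Sᶜ w with hT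
  have h0 := hB.bianchi X Y Z T
  have n1 : nrm Om ξ X Z = 0 := hD.nrm_mixed hS x z
  have n2 : nrm Om ξ X T = 0 := hD.nrm_mixed hS x w
  rw [hD.ip_split, hD.ip_split, hD.ip_split, n1, n2, inner_zero_left, inner_zero_left] at h0
  have fX : ∀ j ∈ Sᶜ, ⟪ξ j, Om e X⟫_ℝ = 0 := fun j hj => by
    rw [hD.coord_pr, if_neg (Finset.mem_compl.mp hj)]
  have fY : ∀ j ∈ Sᶜ, ⟪ξ j, Om e Y⟫_ℝ = 0 := fun j hj => by
    rw [hD.coord_pr, if_neg (Finset.mem_compl.mp hj)]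
  have fZ : ∀ j ∈ S, ⟪ξ j, Om e Z⟫_ℝ = 0 := fun j hj => by
    rw [hD.coord_pr, if_neg (by simpa using hj)]
  have fT : ∀ j ∈ S, ⟪ξ j, Om e T⟫_ℝ = 0 := fun j hj => by
    rw [hD.coord_pr, if_neg (by simpa using hj)]
  have h1 : ∑ i, ⟪ξ i, Om X Y⟫_ℝ * ⟪ξ i, Om Z T⟫_ℝ = 0 := by
    refine Finset.sum_eq_zero fun i _ => ?_
    by_cases hi : i ∈ S
    · rw [hD.b2 hB hS hi Z T fZ fT, mul_zero]
    · rw [hX, hY, Dg.k1 hS hi, zero_mul]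
  have h2 : ∑ i, ⟪ξ i, Om X Z⟫_ℝ * ⟪ξ i, Om T Y⟫_ℝ + ∑ i, ⟪ξ i, Om X T⟫_ℝ * ⟪ξ i, Om Y Z⟫_ℝ = 0 := by
    rw [← Finset.sum_add_distrib]
    refine Finset.sum_eq_zero fun i _ => ?_
    by_cases hi : i ∈ S
    · rw [hB.skew T Y, inner_neg_right, hX, hY, hD.b1' hB hS hi x Z fZ, hD.b1' hB hS hi y T fT,
        hD.b1' hB hS hi x T fT, hD.b1' hB hS hi y Z fZ]
      ring
    · have hi' : i ∈ Sᶜ := Finset.mem_compl.mpr hi
      rw [hB.skew X Z, hB.skew X T, hB.skew Y Z, inner_neg_right, inner_neg_right, inner_neg_right,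
        hZ, hT, hD.b1' hB hS.compl hi' z X fX, hD.b1' hB hS.compl hi' w Y fY,
        hD.b1' hB hS.compl hi' w X fX, hD.b1' hB hS.compl hi' z Y fY]
      ring
  linarith

/-- the second component formula -/
theorem Dg.k2 (hB : Bi Om) (hD : Dg Om e k ξ σ χ) {S : Finset (Fin k)} (hS : Sep Om ξ σ S)
    {i : Fin k} (hi : i ∈ S) (x y : V) :
    ⟪ξ i, Om x y⟫_ℝ = ⟪ξ i, Om (pr Om e ξ σ S x) (pr Om e ξ σ S y)⟫_ℝ +
      ⟪ξ i, Om e x⟫_ℝ * ⟪ξ i, Om (σ i) (y - pr Om e ξ σ S y)⟫_ℝ -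
      ⟪ξ i, Om e y⟫_ℝ * ⟪ξ i, Om (σ i) (x - pr Om e ξ σ S x)⟫_ℝ := by
  have f : ∀ x, ∀ j ∈ S, ⟪ξ j, Om e (x - pr Om e ξ σ S x)⟫_ℝ = 0 := fun x j hj => by
    rw [map_sub, inner_sub_right, hD.coord_pr, if_pos hj, sub_self]
  rw [← hD.b1' hB hS hi x _ (f y), ← hD.b1' hB hS hi y _ (f x)]
  have h1 := hD.b2 hB hS hi _ _ (f x) (f y)
  rw [hB.skew (pr Om e ξ σ S y) (x - pr Om e ξ σ S x), inner_neg_right, sub_neg_eq_add]
  simp only [map_sub, LinearMap.sub_apply, inner_sub_right] at h1 ⊢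
  linarith

/-- the trilinear identity -/
theorem Dg.k3 (hB : Bi Om) (hD : Dg Om e k ξ σ χ) {S : Finset (Fin k)} (hS : Sep Om ξ σ S)
    (x y z w : V) :
    ∑ i ∈ S, (⟪ξ i, Om (pr Om e ξ σ S x) (pr Om e ξ σ S y)⟫_ℝ * ⟪ξ i, Om e z⟫_ℝ +
      ⟪ξ i, Om (pr Om e ξ σ S y) (pr Om e ξ σ S z)⟫_ℝ * ⟪ξ i, Om e x⟫_ℝ +
      ⟪ξ i, Om (pr Om e ξ σ S z) (pr Om e ξ σ S x)⟫_ℝ * ⟪ξ i, Om e y⟫_ℝ) *
      ⟪ξ i, Om (σ i) (w - pr Om e ξ σ S w)⟫_ℝ = 0 := by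
  set X := pr Om e ξ σ S x with hX
  set Y := pr Om e ξ σ S y with hY
  set Z := pr Om e ξ σ S z with hZ
  set w' := w - pr Om e ξ σ S w with hw'
  have f : ∀ j ∈ S, ⟪ξ j, Om e w'⟫_ℝ = 0 := fun j hj => by
    rw [hw', map_sub, inner_sub_right, hD.coord_pr, if_pos hj, sub_self]
  have hn : ∀ x, nrm Om ξ (pr Om e ξ σ S x) w' = 0 := by
    intro x
    obtain ⟨u, hu, hwu⟩ := hD.split S w' f
    have key : ∀ z, (∀ i, ⟪ξ i, z⟫_ℝ = 0) → ⟪z, Om (pr Om e ξ σ S x) w'⟫_ℝ = 0 := by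
      intro z hz
      rw [hwu, map_add, inner_add_right, hB.skew _ u, inner_neg_right, hD.perp_ker z hz u hu,
        neg_zero, zero_add]
      have h5 : pr Om e ξ σ Sᶜ (u + pr Om e ξ σ Sᶜ w') = pr Om e ξ σ Sᶜ w' := by rw [← hwu]
      rw [← h5]
      exact Dg.perp_mixed hS z hz x _
    have h1 := key (nrm Om ξ (pr Om e ξ σ S x) w') (fun i => hD.nrm_perp i _ _)
    rw [Dg.ip_of_perp _ (fun i => hD.nrm_perp i _ _)] at h1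
    exact inner_self_eq_zero.mp h1
  have h0 := hB.bianchi w' X Y Z
  rw [hB.skew w' X, hB.skew w' Y, hB.skew w' Z, inner_neg_left, inner_neg_left, inner_neg_left,
    hD.ip_split, hD.ip_split, hD.ip_split, hn, hn, hn, inner_zero_left, inner_zero_left,
    inner_zero_left] at h0
  have h2 : ∀ (x y z : V), ∑ i, ⟪ξ i, Om (pr Om e ξ σ S z) w'⟫_ℝ *
      ⟪ξ i, Om (pr Om e ξ σ S x) (pr Om e ξ σ S y)⟫_ℝ =
      ∑ i ∈ S, ⟪ξ i, Om (pr Om e ξ σ S x) (pr Om e ξ σ S y)⟫_ℝ * ⟪ξ i, Om e z⟫_ℝ *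
        ⟪ξ i, Om (σ i) w'⟫_ℝ := by
    intro x y z
    rw [← Finset.sum_add_sum_compl S]
    have h3 : ∑ i ∈ Sᶜ, ⟪ξ i, Om (pr Om e ξ σ S z) w'⟫_ℝ *
      ⟪ξ i, Om (pr Om e ξ σ S x) (pr Om e ξ σ S y)⟫_ℝ = 0 := by
      refine Finset.sum_eq_zero fun i hi => ?_
      rw [Dg.k1 hS (Finset.mem_compl.mp hi), mul_zero]
    rw [h3, add_zero]
    refine Finset.sum_congr rfl fun i hi => ?_
    rw [hD.b1' hB hS hi z w' f]
    ring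
  rw [h2 y z x, h2 z x y, h2 x y z] at h0
  simp only [add_mul, Finset.sum_add_distrib]
  linarith

variable [FiniteDimensional ℝ W]

/-- the separated subspace -/
noncomputable def sepW (Om : V →ₗ[ℝ] V →ₗ[ℝ] W) (e : V) {k : ℕ} (ξ : Fin k → W) (σ : Fin k → V)
    (S : Finset (Fin k)) : Submodule ℝ W :=
  Submodule.span ℝ ({z | ∃ i ∈ S, ξ i = z} ∪
    {z | ∃ x y, nrm Om ξ (pr Om e ξ σ S x) (pr Om e ξ σ S y) = z})

theorem Dg.proj (hB : Bi Om) (hD : Dg Om e k ξ σ χ) {S : Finset (Fin k)} (hS : Sep Om ξ σ S)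
    (x y : V) : (sepW Om e ξ σ S).starProjection (Om x y) =
      ∑ i ∈ S, ⟪ξ i, Om x y⟫_ℝ • ξ i + nrm Om ξ (pr Om e ξ σ S x) (pr Om e ξ σ S y) := by
  have hsum : Om x y = (∑ i ∈ S, ⟪ξ i, Om x y⟫_ℝ • ξ i +
      nrm Om ξ (pr Om e ξ σ S x) (pr Om e ξ σ S y)) + (∑ i ∈ Sᶜ, ⟪ξ i, Om x y⟫_ℝ • ξ i +
      nrm Om ξ (pr Om e ξ σ Sᶜ x) (pr Om e ξ σ Sᶜ y)) := by
    have h1 : Om x y = ∑ i, ⟪ξ i, Om x y⟫_ℝ • ξ i + nrm Om ξ x y := by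
      unfold nrm
      rw [add_sub_cancel]
    rw [hD.nrm_split hB hS x y, ← Finset.sum_add_sum_compl S] at h1
    conv_lhs => rw [h1]
    abel
  refine Submodule.eq_starProjection_of_mem_of_inner_eq_zero ?_ ?_
  · refine Submodule.add_mem _ (Submodule.sum_mem _ fun i hi => Submodule.smul_mem _ _ ?_) ?_
    · exact Submodule.subset_span (Or.inl ⟨i, hi, rfl⟩)
    · exact Submodule.subset_span (Or.inr ⟨x, y, rfl⟩)
  · intro z hz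
    have h2 : Om x y - (∑ i ∈ S, ⟪ξ i, Om x y⟫_ℝ • ξ i +
      nrm Om ξ (pr Om e ξ σ S x) (pr Om e ξ σ S y)) = ∑ i ∈ Sᶜ, ⟪ξ i, Om x y⟫_ℝ • ξ i +
      nrm Om ξ (pr Om e ξ σ Sᶜ x) (pr Om e ξ σ Sᶜ y) := sub_eq_iff_eq_add'.mpr hsum
    rw [h2]
    induction hz using Submodule.span_induction with
    | mem z hz =>
      rcases hz with ⟨i, hi, rfl⟩ | ⟨x', y', rfl⟩
      · rw [inner_add_left, sum_inner, real_inner_comm, hD.nrm_perp, add_zero]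
        refine Finset.sum_eq_zero fun j hj => ?_
        have hji : j ≠ i := fun h => (Finset.mem_compl.mp hj) (h ▸ hi)
        rw [real_inner_smul_left, hD.inn, if_neg hji, mul_zero]
      · rw [inner_add_left, sum_inner, real_inner_comm (nrm Om ξ _ _) (nrm Om ξ _ _),
          hD.k4 hB hS, add_zero]
        refine Finset.sum_eq_zero fun j hj => ?_
        rw [real_inner_smul_left, hD.nrm_perp, mul_zero]
    | zero => rw [inner_zero_right]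
    | add a b _ _ ha hb => rw [inner_add_right, ha, hb, add_zero]
    | smul c a _ ha => rw [inner_smul_right, ha, mul_zero]

theorem Dg.proj_ip (hB : Bi Om) (hD : Dg Om e k ξ σ χ) {S : Finset (Fin k)}
    (hS : Sep Om ξ σ S) (x y z w : V) :
    ⟪(sepW Om e ξ σ S).starProjection (Om x y), Om z w⟫_ℝ =
      ∑ i ∈ S, ⟪ξ i, Om x y⟫_ℝ * ⟪ξ i, Om z w⟫_ℝ +
      ⟪nrm Om ξ (pr Om e ξ σ S x) (pr Om e ξ σ S y),
        nrm Om ξ (pr Om e ξ σ S z) (pr Om e ξ σ S w)⟫_ℝ := by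
  rw [hD.proj hB hS, inner_add_left, sum_inner]
  congr 1
  · refine Finset.sum_congr rfl fun i _ => ?_
    rw [real_inner_smul_left]
  · rw [Dg.ip_of_perp _ (fun i => hD.nrm_perp i _ _), hD.nrm_split hB hS z w, inner_add_right,
      hD.k4 hB hS, add_zero]

theorem Dg.biOn (hB : Bi Om) (hD : Dg Om e k ξ σ χ) {S : Finset (Fin k)}
    (hS : Sep Om ξ σ S) : BiOn Om (sepW Om e ξ σ S) := by
  intro x y z w
  rw [hD.proj_ip hB hS, hD.proj_ip hB hS, hD.proj_ip hB hS]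
  set X := pr Om e ξ σ S x with hX
  set Y := pr Om e ξ σ S y with hY
  set Z := pr Om e ξ σ S z with hZ
  set T := pr Om e ξ σ S w with hT
  have h0 := hB.bianchi X Y Z T
  rw [hD.ip_split, hD.ip_split, hD.ip_split] at h0
  have hs : ∀ (x y z w : V), ∑ i, ⟪ξ i, Om (pr Om e ξ σ S x) (pr Om e ξ σ S y)⟫_ℝ *
      ⟪ξ i, Om z w⟫_ℝ = ∑ i ∈ S, ⟪ξ i, Om (pr Om e ξ σ S x) (pr Om e ξ σ S y)⟫_ℝ *
      ⟪ξ i, Om z w⟫_ℝ := by
    intro x y z w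
    rw [← Finset.sum_add_sum_compl S]
    have h3 : ∑ i ∈ Sᶜ, ⟪ξ i, Om (pr Om e ξ σ S x) (pr Om e ξ σ S y)⟫_ℝ * ⟪ξ i, Om z w⟫_ℝ = 0 := by
      refine Finset.sum_eq_zero fun i hi => ?_
      rw [Dg.k1 hS (Finset.mem_compl.mp hi), zero_mul]
    rw [h3, add_zero]
  rw [hs x y Z T, hs x z T Y, hs x w Y Z] at h0
  have t1 := hD.k3 hB hS x y z w
  have t2 := hD.k3 hB hS y z w x
  have t3 := hD.k3 hB hS z w x y
  have t4 := hD.k3 hB hS w x y z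
  rw [← hX, ← hY, ← hZ] at t1
  rw [← hY, ← hZ, ← hT] at t2
  rw [← hZ, ← hT, ← hX] at t3
  rw [← hT, ← hX, ← hY] at t4
  have hmain : ∑ i ∈ S, ⟪ξ i, Om x y⟫_ℝ * ⟪ξ i, Om z w⟫_ℝ +
      ∑ i ∈ S, ⟪ξ i, Om x z⟫_ℝ * ⟪ξ i, Om w y⟫_ℝ +
      ∑ i ∈ S, ⟪ξ i, Om x w⟫_ℝ * ⟪ξ i, Om y z⟫_ℝ =
      (∑ i ∈ S, ⟪ξ i, Om X Y⟫_ℝ * ⟪ξ i, Om Z T⟫_ℝ + ∑ i ∈ S, ⟪ξ i, Om X Z⟫_ℝ * ⟪ξ i, Om T Y⟫_ℝ +
      ∑ i ∈ S, ⟪ξ i, Om X T⟫_ℝ * ⟪ξ i, Om Y Z⟫_ℝ) +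
      (∑ i ∈ S, (⟪ξ i, Om X Y⟫_ℝ * ⟪ξ i, Om e z⟫_ℝ + ⟪ξ i, Om Y Z⟫_ℝ * ⟪ξ i, Om e x⟫_ℝ +
        ⟪ξ i, Om Z X⟫_ℝ * ⟪ξ i, Om e y⟫_ℝ) * ⟪ξ i, Om (σ i) (w - T)⟫_ℝ -
      ∑ i ∈ S, (⟪ξ i, Om Y Z⟫_ℝ * ⟪ξ i, Om e w⟫_ℝ + ⟪ξ i, Om Z T⟫_ℝ * ⟪ξ i, Om e y⟫_ℝ +
        ⟪ξ i, Om T Y⟫_ℝ * ⟪ξ i, Om e z⟫_ℝ) * ⟪ξ i, Om (σ i) (x - X)⟫_ℝ +
      ∑ i ∈ S, (⟪ξ i, Om Z T⟫_ℝ * ⟪ξ i, Om e x⟫_ℝ + ⟪ξ i, Om T X⟫_ℝ * ⟪ξ i, Om e z⟫_ℝ +
        ⟪ξ i, Om X Z⟫_ℝ * ⟪ξ i, Om e w⟫_ℝ) * ⟪ξ i, Om (σ i) (y - Y)⟫_ℝ -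
      ∑ i ∈ S, (⟪ξ i, Om T X⟫_ℝ * ⟪ξ i, Om e y⟫_ℝ + ⟪ξ i, Om X Y⟫_ℝ * ⟪ξ i, Om e w⟫_ℝ +
        ⟪ξ i, Om Y T⟫_ℝ * ⟪ξ i, Om e x⟫_ℝ) * ⟪ξ i, Om (σ i) (z - Z)⟫_ℝ) := by
    simp only [← Finset.sum_add_distrib, ← Finset.sum_sub_distrib]
    refine Finset.sum_congr rfl fun i hi => ?_
    rw [hD.k2 hB hS hi x y, hD.k2 hB hS hi z w, hD.k2 hB hS hi x z, hD.k2 hB hS hi w y,
      hD.k2 hB hS hi x w, hD.k2 hB hS hi y z, ← hX, ← hY, ← hZ, ← hT, hB.skew T X, hB.skew T Y,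
      hB.skew Z X]
    simp only [inner_neg_right]
    ring
  rw [t1, t2, t3, t4] at hmain
  linarith

/-- Separated sets of an irreducible family are trivial. -/
theorem Dg.sep_trivial (hB : Bi Om) (hirr : ∀ W' : Submodule ℝ W, BiOn Om W' → W' = ⊥ ∨ W' = ⊤)
    (hD : Dg Om e k ξ σ χ) {S : Finset (Fin k)} (hS : Sep Om ξ σ S) :
    S = ∅ ∨ S = Finset.univ := by
  rcases hirr _ (hD.biOn hB hS) with h | h
  · left
    rw [Finset.eq_empty_iff_forall_notMem]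
    intro i hi
    have h1 : ξ i ∈ sepW Om e ξ σ S := Submodule.subset_span (Or.inl ⟨i, hi, rfl⟩)
    rw [h, Submodule.mem_bot] at h1
    have h2 := hD.on.1 i
    rw [h1, norm_zero] at h2
    exact zero_ne_one h2
  · right
    rw [Finset.eq_univ_iff_forall]
    intro i
    by_contra hi
    have h1 : ∀ z ∈ sepW Om e ξ σ S, ⟪ξ i, z⟫_ℝ = 0 := by
      intro z hz
      induction hz using Submodule.span_induction with
      | mem z hz =>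
        rcases hz with ⟨j, hj, rfl⟩ | ⟨x', y', rfl⟩
        · rw [hD.inn, if_neg (fun hh : i = j => hi (by rw [hh]; exact hj))]
        · exact hD.nrm_perp i _ _
      | zero => rw [inner_zero_right]
      | add a b _ _ ha hb => rw [inner_add_right, ha, hb, add_zero]
      | smul c a _ ha => rw [inner_smul_right, ha, mul_zero]
    have h2 := h1 (ξ i) (by rw [h]; trivial)
    rw [hD.inn, if_pos rfl] at h2
    exact one_ne_zero h2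

omit [FiniteDimensional ℝ W] in
/-- Bianchi with one argument in the kernel -/
theorem Dg.one_ker (hB : Bi Om) (hD : Dg Om e k ξ σ χ) (i j l : Fin k)
    (v : LinearMap.ker (Om e)) :
    χ i v * ⟪ξ i, Om (σ j) (σ l)⟫_ℝ + χ j v * ⟪ξ j, Om (σ l) (σ i)⟫_ℝ +
      χ l v * ⟪ξ l, Om (σ i) (σ j)⟫_ℝ = 0 := by
  have hv : ∀ i, Om v.1 (σ i) = χ i v • ξ i := by
    intro i
    rw [hD.diag v (σ i), Finset.sum_eq_single i]
    · rw [hD.coord, if_pos rfl, mul_one]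
    · intro j _ hj
      rw [hD.coord, if_neg hj, mul_zero, zero_smul]
    · intro h; exact absurd (Finset.mem_univ i) h
  have h := hB.bianchi v.1 (σ i) (σ j) (σ l)
  rw [hv, hv, hv, real_inner_smul_left, real_inner_smul_left, real_inner_smul_left] at h
  exact h

/-- `Dec`: the connectedness clause of `Root`. -/
theorem Dg.conn (hB : Bi Om) (hirr : ∀ W' : Submodule ℝ W, BiOn Om W' → W' = ⊥ ∨ W' = ⊤)
    (hD : Dg Om e k ξ σ χ)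
    (hperp : ∀ z : W, (∀ j, ⟪ξ j, z⟫_ℝ = 0) → ∀ j l, χ j ≠ χ l → ⟪z, Om (σ j) (σ l)⟫_ℝ = 0)
    (hgen1 : ∀ i j l, χ i = χ j → i ≠ j → χ l ≠ χ i → ⟪ξ i, Om (σ j) (σ l)⟫_ℝ = 0)
    (A : Set (Fin k)) (hcl : ∀ i j, χ i = χ j → (i ∈ A ↔ j ∈ A))
    (hT : ∀ i j l, χ i ≠ χ j → χ i ≠ χ l → χ j ≠ χ l → ⟪ξ i, Om (σ j) (σ l)⟫_ℝ ≠ 0 →
      (i ∈ A ↔ j ∈ A)) : A = ∅ ∨ A = Set.univ := by
  classical
  have hee : Om e e = 0 := by
    have h := hB.skew e e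
    have h2 : (2 : ℝ) • Om e e = 0 := by
      rw [two_smul]
      nth_rewrite 1 [h]
      exact neg_add_cancel _
    exact (smul_eq_zero.mp h2).resolve_left two_ne_zero
  have hcl' : ∀ i j, ¬(i ∈ A ↔ j ∈ A) → χ i ≠ χ j := fun i j h h' => h (hcl i j h')
  -- same class for the last two arguments
  have hsame : ∀ i j l, χ i ≠ χ j → χ j = χ l → ⟪ξ i, Om (σ j) (σ l)⟫_ℝ = 0 := by
    intro i j l hij hjl
    have h1 := hD.one_ker hB i j l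
    have h2 := h1 ⟨e, hee⟩
    rw [hD.chi_e hee, hD.chi_e hee, hD.chi_e hee] at h2
    by_contra hne
    apply hij
    refine LinearMap.ext fun v => ?_
    have h3 := h1 v
    rw [← hjl] at h3
    have h4 : ⟪ξ i, Om (σ j) (σ l)⟫_ℝ * (χ i v - χ j v) = 0 := by
      linear_combination h3 - χ j v * h2
    rcases mul_eq_zero.mp h4 with h5 | h5
    · exact absurd h5 hne
    · linarith
  have hT' : ∀ i j l, χ i ≠ χ j → χ i ≠ χ l → χ j ≠ χ l → ⟪ξ i, Om (σ j) (σ l)⟫_ℝ ≠ 0 →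
      (i ∈ A ↔ l ∈ A) := by
    intro i j l h1 h2 h3 h4
    refine hT i l j h2 h1 (Ne.symm h3) ?_
    rw [hB.skew, inner_neg_right]
    exact neg_ne_zero.mpr h4
  set S : Finset (Fin k) := Finset.univ.filter (fun i => i ∈ A) with hS
  have hmem : ∀ i, i ∈ S ↔ i ∈ A := fun i => by rw [hS, Finset.mem_filter]; simp
  have hsep : Sep Om ξ σ S := by
    refine ⟨?_, ?_, ?_⟩
    · intro i j l h1 h2
      rw [hmem, hmem] at h1 h2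
      by_cases hjl : χ j = χ l
      · exact hsame i j l (hcl' _ _ h1) hjl
      · by_contra hne
        exact h1 (hT i j l (hcl' _ _ h1) (hcl' _ _ h2) hjl hne)
    · intro i j l h1 h2 h3
      rw [hmem, hmem] at h1 h3
      by_cases hij : χ i = χ j
      · exact hgen1 i j l hij h2 (Ne.symm (hcl' _ _ h3))
      · by_contra hne
        have hjl : χ j ≠ χ l := hcl' _ _ (fun h => h3 (h1.trans h))
        exact h3 (hT' i j l hij (hcl' _ _ h3) hjl hne)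
    · intro z hz j l h1
      rw [hmem, hmem] at h1
      exact hperp z hz j l (hcl' _ _ h1)
  rcases hD.sep_trivial hB hirr hsep with h | h
  · left
    ext i
    rw [← hmem, h]
    simp
  · right
    ext i
    rw [← hmem, h]
    simp

end Pool.Agent.Lib.MP_d0f9e0_co.K2
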