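import Pool.Agent.Lib.MP_d0f9e0_co.Gap.LinearGap
import Pool.Agent.Lib.MP_d0f9e0_co.K2.Defs

/-!
# Symmetric Hermitian families and the Bianchi identity of their imaginary parts
-/

set_option autoImplicit false

open Matrix Module
open scoped ComplexOrder InnerProductSpace

namespace Pool.Agent.Lib.MP_d0f9e0_co.K2

open Pool.Agent.Lib.MP_d0f9e0_co.Gap Pool.Agent.Lib.MP_d0f9e0_co.Gap.Lin

section Sesq

variable {n κ : Type*} [Fintype n] [Fintype κ]

/-- the sesquilinear form of a matrix -/
def sq (A : Matrix n n ℂ) (x y : n → ℂ) : ℂ := star x ⬝ᵥ (A *ᵥ y)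

theorem sq_smul_right (A : Matrix n n ℂ) (c : ℂ) (x y : n → ℂ) : sq A x (c • y) = c * sq A x y := by
  unfold sq
  rw [mulVec_smul, dotProduct_smul, smul_eq_mul]

theorem sq_smul_left (A : Matrix n n ℂ) (c : ℂ) (x y : n → ℂ) :
    sq A (c • x) y = star c * sq A x y := by
  unfold sq
  rw [star_smul, smul_dotProduct, smul_eq_mul]

theorem sq_add_right (A : Matrix n n ℂ) (x y z : n → ℂ) : sq A x (y + z) = sq A x y + sq A x z := by
  unfold sq
  rw [mulVec_add, dotProduct_add]

theorem sq_add_left (A : Matrix n n ℂ) (x y z : n → ℂ) : sq A (x + y) z = sq A x z + sq A y z := by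
  unfold sq
  rw [star_add, add_dotProduct]

theorem star_sq (A : Matrix n n ℂ) (hA : A.IsHermitian) (x y : n → ℂ) :
    star (sq A x y) = sq A y x := herm_conj A hA x y

/-- the four-linear form of a family -/
def four (K : κ → Matrix n n ℂ) (x y z w : n → ℂ) : ℂ := ∑ a, sq (K a) x y * sq (K a) z w

theorem im_four (K : κ → Matrix n n ℂ) (hH : ∀ a, (K a).IsHermitian) (x y z w : n → ℂ) :
    ∑ a, (sq (K a) x y).im * (sq (K a) z w).im =
      ((four K x y w z).re - (four K x y z w).re) / 2 := by
  unfold four
  rw [Complex.re_sum, Complex.re_sum, ← Finset.sum_sub_distrib, Finset.sum_div]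
  refine Finset.sum_congr rfl fun a _ => ?_
  rw [← star_sq (K a) (hH a) z w, Complex.mul_re, Complex.mul_re, Complex.star_def,
    Complex.conj_re, Complex.conj_im]
  ring

/-- the Bianchi sum of the imaginary parts -/
def bsum (K : κ → Matrix n n ℂ) (x y z w : n → ℂ) : ℝ :=
  ∑ a, (sq (K a) x y).im * (sq (K a) z w).im + ∑ a, (sq (K a) x z).im * (sq (K a) w y).im +
    ∑ a, (sq (K a) x w).im * (sq (K a) y z).im

theorem four_sym (K : κ → Matrix n n ℂ) (hS : Sym K) (x y z w : n → ℂ) :
    four K x y z w = four K x w z y := sym_vec K hS (star x) y (star z) w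

theorem bsum_of_sym (K : κ → Matrix n n ℂ) (hH : ∀ a, (K a).IsHermitian) (hS : Sym K)
    (x y z w : n → ℂ) : bsum K x y z w = 0 := by
  unfold bsum
  rw [im_four K hH, im_four K hH, im_four K hH]
  rw [four_sym K hS x y w z, four_sym K hS x y z w, four_sym K hS x z y w]
  ring

theorem four_smul2 (K : κ → Matrix n n ℂ) (c : ℂ) (x y z w : n → ℂ) :
    four K x (c • y) z w = c * four K x y z w := by
  unfold four
  rw [Finset.mul_sum]
  refine Finset.sum_congr rfl fun a _ => ?_
  rw [sq_smul_right]; ring

theorem four_smul4 (K : κ → Matrix n n ℂ) (c : ℂ) (x y z w : n → ℂ) :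
    four K x y z (c • w) = c * four K x y z w := by
  unfold four
  rw [Finset.mul_sum]
  refine Finset.sum_congr rfl fun a _ => ?_
  rw [sq_smul_right]; ring

theorem four_smul3 (K : κ → Matrix n n ℂ) (c : ℂ) (x y z w : n → ℂ) :
    four K x y (c • z) w = star c * four K x y z w := by
  unfold four
  rw [Finset.mul_sum]
  refine Finset.sum_congr rfl fun a _ => ?_
  rw [sq_smul_left]; ring

theorem four_smul1 (K : κ → Matrix n n ℂ) (c : ℂ) (x y z w : n → ℂ) :
    four K (c • x) y z w = star c * four K x y z w := by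
  unfold four
  rw [Finset.mul_sum]
  refine Finset.sum_congr rfl fun a _ => ?_
  rw [sq_smul_left]; ring

theorem sym_of_bsum [DecidableEq n] (K : κ → Matrix n n ℂ) (hH : ∀ a, (K a).IsHermitian)
    (h : ∀ x y z w, bsum K x y z w = 0) : Sym K := by
  have hre : ∀ x y z w, (four K x y z w).re = (four K x w z y).re := by
    intro x y z w
    have h1 := h x y z w
    have h2 := h x (Complex.I • y) z ((-Complex.I) • w)
    unfold bsum at h1 h2
    rw [im_four K hH, im_four K hH, im_four K hH] at h1 h2
    simp only [four_smul2, four_smul3, four_smul4] at h2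
    simp only [Complex.star_def, map_neg, Complex.conj_I, neg_neg] at h2
    have e1 : ∀ c : ℂ, Complex.I * (Complex.I * c) = -c := by
      intro c; rw [← mul_assoc, Complex.I_mul_I]; ring
    have e2 : ∀ c : ℂ, Complex.I * (-Complex.I * c) = c := by
      intro c
      rw [← mul_assoc, mul_neg, Complex.I_mul_I]; ring
    have e3 : ∀ c : ℂ, -Complex.I * (Complex.I * c) = c := by
      intro c
      rw [← mul_assoc, neg_mul, Complex.I_mul_I]; ring
    have e4 : ∀ c : ℂ, -Complex.I * (-Complex.I * c) = -c := by
      intro c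
      rw [← mul_assoc, neg_mul_neg, Complex.I_mul_I]; ring
    simp only [e1, e2, e3, e4, Complex.neg_re] at h2
    linarith
  have hall : ∀ x y z w, four K x y z w = four K x w z y := by
    intro x y z w
    apply Complex.ext (hre x y z w)
    have h1 := hre (Complex.I • x) y z w
    rw [four_smul1, four_smul1, Complex.star_def, Complex.conj_I] at h1
    simpa using h1
  intro p q r s
  have h1 := hall (Pi.single p 1) (Pi.single q 1) (Pi.single r 1) (Pi.single s 1)
  have h2 : ∀ (a : κ) (p q : n), sq (K a) (Pi.single p 1) (Pi.single q 1) = K a p q := by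
    intro a p q
    unfold sq
    rw [← Pi.single_star, star_one, single_one_dotProduct, Matrix.mulVec_single_one]
    rfl
  unfold four at h1
  simp only [h2] at h1
  exact h1

end Sesq

end Pool.Agent.Lib.MP_d0f9e0_co.K2
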