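import Pool.Agent.Lib.MP_d0f9e0_co.K2.EtfA

/-!
# A minimal symmetric part of a family, as an irreducible real family
-/

set_option autoImplicit false

open Matrix Module
open scoped ComplexOrder InnerProductSpace

namespace Pool.Agent.Lib.MP_d0f9e0_co.K2

open Pool.Agent.Lib.MP_d0f9e0_co.Gap Pool.Agent.Lib.MP_d0f9e0_co.Gap.Lin

section Min

variable {V W : Type*} [AddCommGroup V] [Module ℝ V] [NormedAddCommGroup W]
  [InnerProductSpace ℝ W] [FiniteDimensional ℝ W]

theorem exists_minBiOn (Om : V →ₗ[ℝ] V →ₗ[ℝ] W) (h : BiOn Om ⊤) (hW : 0 < finrank ℝ W) :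
    ∃ W' : Submodule ℝ W, W' ≠ ⊥ ∧ BiOn Om W' ∧
      ∀ W'' ≤ W', BiOn Om W'' → W'' = ⊥ ∨ W'' = W' := by
  classical
  let P : ℕ → Prop := fun k => ∃ W' : Submodule ℝ W, W' ≠ ⊥ ∧ BiOn Om W' ∧ finrank ℝ W' = k
  have hex : ∃ k, P k := by
    refine ⟨finrank ℝ (⊤ : Submodule ℝ W), ⊤, ?_, h, rfl⟩
    intro h1
    have h2 : finrank ℝ (⊤ : Submodule ℝ W) = 0 := by rw [h1]; exact finrank_bot ℝ W
    rw [finrank_top] at h2
    omega
  obtain ⟨W', h1, h2, h3⟩ := Nat.find_spec hex
  refine ⟨W', h1, h2, fun W'' hle hB => ?_⟩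
  by_cases h4 : W'' = ⊥
  · exact Or.inl h4
  · right
    apply Submodule.eq_of_le_of_finrank_le hle
    rw [h3]
    exact Nat.find_min' hex ⟨W'', h4, hB, rfl⟩

end Min

section Quot

variable {V W : Type*} [AddCommGroup V] [Module ℝ V] [NormedAddCommGroup W]
  [InnerProductSpace ℝ W] [FiniteDimensional ℝ W]

/-- the part of the form in a subspace -/
noncomputable def part (Om : V →ₗ[ℝ] V →ₗ[ℝ] W) (W' : Submodule ℝ W) : V →ₗ[ℝ] V →ₗ[ℝ] W' :=
  Om.compr₂ W'.orthogonalProjection.toLinearMap

theorem part_apply (Om : V →ₗ[ℝ] V →ₗ[ℝ] W) (W' : Submodule ℝ W) (x y : V) :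
    part Om W' x y = W'.orthogonalProjection (Om x y) := rfl

/-- the form on the quotient by its radical -/
noncomputable def quo {W : Type*} [AddCommGroup W] [Module ℝ W] (Om : V →ₗ[ℝ] V →ₗ[ℝ] W)
    (h : LinearMap.ker Om ≤ LinearMap.ker Om.flip) :
    (V ⧸ LinearMap.ker Om) →ₗ[ℝ] (V ⧸ LinearMap.ker Om) →ₗ[ℝ] W :=
  ((LinearMap.ker Om).liftQ ((LinearMap.ker Om).liftQ Om le_rfl).flip (by
    intro x hx
    rw [LinearMap.mem_ker]
    ext y
    have h1 := h hx
    rw [LinearMap.mem_ker] at h1
    have h2 := LinearMap.congr_fun h1 y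
    simpa using h2)).flip

theorem quo_mk {W : Type*} [AddCommGroup W] [Module ℝ W] (Om : V →ₗ[ℝ] V →ₗ[ℝ] W)
    (h : LinearMap.ker Om ≤ LinearMap.ker Om.flip) (x y : V) :
    quo Om h (Submodule.Quotient.mk x) (Submodule.Quotient.mk y) = Om x y := by
  simp [quo]

theorem starProjection_map (W' : Submodule ℝ W) (W'' : Submodule ℝ W') (u : W) :
    (W''.map W'.subtype).starProjection u =
      ((W''.starProjection (W'.orthogonalProjection u) : W') : W) := by
  apply Submodule.eq_starProjection_of_mem_of_inner_eq_zero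
  · exact Submodule.mem_map_of_mem (W''.starProjection_apply_mem _)
  · rintro w ⟨w, hw, rfl⟩
    have h1 : ⟪u - (W'.orthogonalProjection u : W), (w : W)⟫_ℝ = 0 :=
      W'.starProjection_inner_eq_zero u w w.2
    have h2 : ⟪W'.orthogonalProjection u - W''.starProjection (W'.orthogonalProjection u), w⟫_ℝ = 0 :=
      W''.starProjection_inner_eq_zero _ w hw
    rw [Submodule.coe_inner, Submodule.coe_sub] at h2
    change ⟪u - _, (w : W)⟫_ℝ = 0
    have h3 : u - ((W''.starProjection (W'.orthogonalProjection u) : W') : W) =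
        (u - (W'.orthogonalProjection u : W)) + ((W'.orthogonalProjection u : W) -
          ((W''.starProjection (W'.orthogonalProjection u) : W') : W)) := by abel
    rw [h3, inner_add_left, h1, h2, add_zero]

theorem irr_quo (Om : V →ₗ[ℝ] V →ₗ[ℝ] W) (J : V →ₗ[ℝ] V)
    (skew : ∀ x y, Om x y = -Om y x) (hJ : ∀ x, J (J x) = -x)
    (hOJ : ∀ x y, Om (J x) (J y) = Om x y)
    (hsp : ∀ ζ : W, (∀ x y, ⟪ζ, Om x y⟫_ℝ = 0) → ζ = 0)
    (W' : Submodule ℝ W) (hB : BiOn Om W')
    (hmin : ∀ W'' ≤ W', BiOn Om W'' → W'' = ⊥ ∨ W'' = W') :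
    ∃ (h1 : LinearMap.ker (part Om W') ≤ LinearMap.ker (part Om W').flip)
      (h2 : LinearMap.ker (part Om W') ≤ (LinearMap.ker (part Om W')).comap J),
      Irr (quo (part Om W') h1) ((LinearMap.ker (part Om W')).mapQ _ J h2) := by
  have hps : ∀ x y, part Om W' x y = -part Om W' y x := by
    intro x y
    rw [part_apply, part_apply, skew x y, map_neg]
  have hOJ' : ∀ x y, part Om W' (J x) (J y) = part Om W' x y := by
    intro x y
    rw [part_apply, part_apply, hOJ]
  have h1 : LinearMap.ker (part Om W') ≤ LinearMap.ker (part Om W').flip := by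
    intro x hx
    rw [LinearMap.mem_ker] at hx ⊢
    ext1 y
    rw [LinearMap.flip_apply, hps, hx]
    simp
  have h2 : LinearMap.ker (part Om W') ≤ (LinearMap.ker (part Om W')).comap J := by
    intro x hx
    rw [LinearMap.mem_ker] at hx
    rw [Submodule.mem_comap, LinearMap.mem_ker]
    ext1 y
    have h3 := hOJ' (J x) y
    rw [hJ, map_neg, LinearMap.neg_apply, hx] at h3
    have h4 : ∀ z, part Om W' (J x) (J z) = 0 := by
      intro z
      rw [hOJ', hx, LinearMap.zero_apply]
    have h5 := h4 (-J y)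
    rw [map_neg, hJ, neg_neg] at h5
    rw [h5, LinearMap.zero_apply]
  refine ⟨h1, h2, ?_⟩
  have hin : ∀ u v : W, ⟪W'.orthogonalProjection u, W'.orthogonalProjection v⟫_ℝ =
      ⟪W'.starProjection u, v⟫_ℝ := by
    intro u v
    rw [Submodule.coe_inner]
    have h3 : ⟪(W'.orthogonalProjection u : W), v - (W'.orthogonalProjection v : W)⟫_ℝ = 0 := by
      rw [real_inner_comm]
      exact W'.starProjection_inner_eq_zero v _ (W'.orthogonalProjection u).2
    rw [inner_sub_right, sub_eq_zero] at h3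
    exact h3.symm
  refine
    { skew := ?_
      bianchi := ?_
      hJ := ?_
      OJ := ?_
      nd := ?_
      sp := ?_
      irr := ?_ }
  · intro x y
    obtain ⟨x, rfl⟩ := Submodule.Quotient.mk_surjective _ x
    obtain ⟨y, rfl⟩ := Submodule.Quotient.mk_surjective _ y
    rw [quo_mk, quo_mk, hps]
  · intro x y z w
    obtain ⟨x, rfl⟩ := Submodule.Quotient.mk_surjective _ x
    obtain ⟨y, rfl⟩ := Submodule.Quotient.mk_surjective _ y
    obtain ⟨z, rfl⟩ := Submodule.Quotient.mk_surjective _ z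
    obtain ⟨w, rfl⟩ := Submodule.Quotient.mk_surjective _ w
    simp only [quo_mk, part_apply, hin]
    exact hB x y z w
  · intro x
    obtain ⟨x, rfl⟩ := Submodule.Quotient.mk_surjective _ x
    rw [Submodule.mapQ_apply, Submodule.mapQ_apply, hJ, Submodule.Quotient.mk_neg]
  · intro x y
    obtain ⟨x, rfl⟩ := Submodule.Quotient.mk_surjective _ x
    obtain ⟨y, rfl⟩ := Submodule.Quotient.mk_surjective _ y
    rw [Submodule.mapQ_apply, Submodule.mapQ_apply, quo_mk, quo_mk, hOJ']
  · intro x hx
    obtain ⟨x, rfl⟩ := Submodule.Quotient.mk_surjective _ x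
    rw [Submodule.Quotient.mk_eq_zero, LinearMap.mem_ker]
    ext1 y
    have h3 := hx (Submodule.Quotient.mk y)
    rwa [quo_mk] at h3
  · rw [← Submodule.orthogonal_eq_bot_iff, Submodule.eq_bot_iff]
    intro ζ hζ
    rw [Submodule.mem_orthogonal'] at hζ
    have h3 : (ζ : W) = 0 := by
      apply hsp
      intro x y
      have h4 := hζ (part Om W' x y) (Submodule.subset_span
        ⟨Submodule.Quotient.mk x, Submodule.Quotient.mk y, quo_mk _ _ x y⟩)
      rw [Submodule.coe_inner, part_apply] at h4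
      have h5 : ⟪(ζ : W), Om x y - (W'.orthogonalProjection (Om x y) : W)⟫_ℝ = 0 := by
        rw [real_inner_comm]
        exact W'.starProjection_inner_eq_zero _ _ ζ.2
      rw [inner_sub_right, h4, sub_zero] at h5
      exact h5
    exact Subtype.ext h3
  · intro W'' hB''
    have h3 : BiOn Om (W''.map W'.subtype) := by
      intro x y z w
      have h4 := hB'' (Submodule.Quotient.mk x) (Submodule.Quotient.mk y)
        (Submodule.Quotient.mk z) (Submodule.Quotient.mk w)
      simp only [quo_mk, part_apply] at h4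
      have h5 : ∀ u v : W, ⟪(W''.map W'.subtype).starProjection u, v⟫_ℝ =
          ⟪W''.starProjection (W'.orthogonalProjection u), W'.orthogonalProjection v⟫_ℝ := by
        intro u v
        rw [starProjection_map, Submodule.coe_inner]
        have h6 : ⟪((W''.starProjection (W'.orthogonalProjection u) : W') : W),
            v - (W'.orthogonalProjection v : W)⟫_ℝ = 0 := by
          rw [real_inner_comm]
          exact W'.starProjection_inner_eq_zero v _ (W''.starProjection (W'.orthogonalProjection u)).2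
        rw [inner_sub_right, sub_eq_zero] at h6
        exact h6
      rw [h5, h5, h5]
      exact h4
    rcases hmin _ (Submodule.map_subtype_le W' W'') h3 with h4 | h4
    · left
      rw [Submodule.eq_bot_iff]
      intro z hz
      have h5 : (z : W) ∈ W''.map W'.subtype := ⟨z, hz, rfl⟩
      rw [h4, Submodule.mem_bot] at h5
      exact Subtype.ext h5
    · right
      rw [eq_top_iff]
      intro z _
      have h5 : (z : W) ∈ W''.map W'.subtype := by rw [h4]; exact z.2
      obtain ⟨y, hy, hyz⟩ := h5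
      have h6 : y = z := Subtype.ext hyz
      rwa [← h6]

end Quot

end Pool.Agent.Lib.MP_d0f9e0_co.K2
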