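import Pool.Agent.Lib.MP_d0f9e0_co.K2.EtfB
import Pool.Agent.Lib.MP_d0f9e0_co.Gap.RankCritB

/-!
# A rank one element in a small family with the Gram relation
-/

set_option autoImplicit false

open Matrix Module
open scoped ComplexOrder InnerProductSpace

namespace Pool.Agent.Lib.MP_d0f9e0_co.K2

open Pool.Agent.Lib.MP_d0f9e0_co.Gap Pool.Agent.Lib.MP_d0f9e0_co.Gap.Lin

/-- the theorem on indecomposable families, as a statement -/
def K2Real : Prop := ∀ (V W : Type) [AddCommGroup V] [Module ℝ V] [FiniteDimensional ℝ V]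
  [NormedAddCommGroup W] [InnerProductSpace ℝ W] [FiniteDimensional ℝ W]
  (Om : V →ₗ[ℝ] V →ₗ[ℝ] W) (J : V →ₗ[ℝ] V), Irr Om J →
  ∃ s : ℕ, s ^ 2 ≤ finrank ℝ W ∧ finrank ℝ V ≤ finrank ℝ W + s

section One

variable {n : Type*} [Fintype n]

/-- a nonzero Hermitian matrix which is symmetric by itself has rank one -/
theorem rank_one_of_sym (A : Matrix n n ℂ) (hA : A.IsHermitian) (h0 : A ≠ 0)
    (hS : ∀ p q r s, A p q * A r s = A p s * A r q) :
    ∃ (ε : ℝ) (q : n → ℂ), q ≠ 0 ∧ (ε : ℂ) • A = vecMulVec q (star q) := by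
  have hh : ∀ p q, star (A p q) = A q p := by
    intro p q
    have := congrFun (congrFun hA.eq q) p
    rw [Matrix.conjTranspose_apply] at this
    exact this
  obtain ⟨p, hp⟩ : ∃ p, A p p ≠ 0 := by
    by_contra hcon
    push Not at hcon
    apply h0
    ext p q
    have h1 := hS p q q p
    rw [hcon p, zero_mul, ← hh p q] at h1
    rw [Matrix.zero_apply]
    rcases mul_eq_zero.mp h1 with h2 | h2
    · exact h2
    · exact star_eq_zero.mp h2
  have hre : A p p = ((A p p).re : ℂ) := (Complex.conj_eq_iff_re.mp (hh p p)).symm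
  set a : ℝ := (A p p).re with ha
  have ha0 : a ≠ 0 := by
    intro h
    apply hp
    rw [hre, h, Complex.ofReal_zero]
  have hent : ∀ r s, (a : ℂ) * A r s = A r p * star (A s p) := by
    intro r s
    rw [← hre, hS p p r s, hh, mul_comm]
  have habs : 0 < |a| := abs_pos.mpr ha0
  have hsq : (Real.sqrt |a|) * (Real.sqrt |a|) = |a| := Real.mul_self_sqrt habs.le
  have hsq0 : Real.sqrt |a| ≠ 0 := (Real.sqrt_pos.mpr habs).ne'
  refine ⟨a / |a|, fun r => (((Real.sqrt |a|)⁻¹ : ℝ) : ℂ) * A r p, ?_, ?_⟩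
  · intro h
    have h1 := congrFun h p
    rw [Pi.zero_apply] at h1
    rcases mul_eq_zero.mp h1 with h2 | h2
    · rw [Complex.ofReal_eq_zero] at h2
      exact (inv_ne_zero hsq0) h2
    · exact hp h2
  · ext r s
    rw [Matrix.smul_apply, Matrix.vecMulVec_apply, Pi.star_apply, smul_eq_mul, star_mul',
      Complex.star_def, Complex.conj_ofReal]
    have h1 : ((a / |a| : ℝ) : ℂ) * A r s = ((|a|⁻¹ : ℝ) : ℂ) * ((a : ℂ) * A r s) := by
      push_cast
      ring
    rw [h1, hent, Complex.star_def]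
    have h2 : ((|a|⁻¹ : ℝ) : ℂ) = (((Real.sqrt |a|)⁻¹ : ℝ) : ℂ) * (((Real.sqrt |a|)⁻¹ : ℝ) : ℂ) := by
      rw [← Complex.ofReal_mul, ← mul_inv, hsq]
    rw [h2]
    ring

end One

section Core

variable {n : Type} [Fintype n] [DecidableEq n]

/-- the real form of a family -/
noncomputable def om {κ : Type} [Fintype κ] (K : κ → Matrix n n ℂ) :
    (n → ℂ) →ₗ[ℝ] (n → ℂ) →ₗ[ℝ] EuclideanSpace ℝ κ :=
  LinearMap.mk₂ ℝ (fun x y => WithLp.toLp 2 fun a => (sq (K a) x y).im)
    (by
      intro x x' y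
      ext a
      simp [sq_add_left])
    (by
      intro c x y
      ext a
      have h1 : c • x = (c : ℂ) • x := by
        ext i; simp
      change (sq (K a) (c • x) y).im = c * (sq (K a) x y).im
      rw [h1, sq_smul_left, Complex.star_def, Complex.conj_ofReal, Complex.im_ofReal_mul])
    (by
      intro x y y'
      ext a
      simp [sq_add_right])
    (by
      intro c x y
      ext a
      have h1 : c • y = (c : ℂ) • y := by
        ext i; simp
      change (sq (K a) x (c • y)).im = c * (sq (K a) x y).im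
      rw [h1, sq_smul_right, Complex.im_ofReal_mul])

theorem om_apply {κ : Type} [Fintype κ] (K : κ → Matrix n n ℂ) (x y : n → ℂ) (a : κ) :
    om K x y a = (sq (K a) x y).im := rfl

/-- real combinations -/
noncomputable def comb {κ : Type} [Fintype κ] (K : κ → Matrix n n ℂ) (ζ : EuclideanSpace ℝ κ) :
    Matrix n n ℂ := ∑ a, (ζ a : ℂ) • K a

theorem sq_comb {κ : Type} [Fintype κ] (K : κ → Matrix n n ℂ) (ζ : EuclideanSpace ℝ κ)
    (x y : n → ℂ) : sq (comb K ζ) x y = ∑ a, (ζ a : ℂ) * sq (K a) x y := by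
  unfold sq comb
  rw [Matrix.sum_mulVec, dotProduct_sum]
  refine Finset.sum_congr rfl fun a _ => ?_
  rw [Matrix.smul_mulVec, dotProduct_smul, smul_eq_mul]

theorem inner_om {κ : Type} [Fintype κ] (K : κ → Matrix n n ℂ) (ζ : EuclideanSpace ℝ κ)
    (x y : n → ℂ) : ⟪ζ, om K x y⟫_ℝ = (sq (comb K ζ) x y).im := by
  rw [sq_comb, Complex.im_sum, PiLp.inner_apply]
  refine Finset.sum_congr rfl fun a _ => ?_
  rw [Complex.im_ofReal_mul, om_apply]
  simp [mul_comm]

theorem comb_isHermitian {κ : Type} [Fintype κ] (K : κ → Matrix n n ℂ)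
    (hH : ∀ a, (K a).IsHermitian) (ζ : EuclideanSpace ℝ κ) : (comb K ζ).IsHermitian := by
  unfold comb Matrix.IsHermitian
  rw [Matrix.conjTranspose_sum]
  refine Finset.sum_congr rfl fun a _ => ?_
  rw [Matrix.conjTranspose_smul, (hH a).eq, Complex.star_def, Complex.conj_ofReal]

/-- a Hermitian matrix with vanishing imaginary parts is zero -/
theorem mulVec_eq_zero (A : Matrix n n ℂ) (hA : A.IsHermitian) (x : n → ℂ)
    (h : ∀ y, (sq A x y).im = 0) : A *ᵥ x = 0 := by
  have h1 : ∀ y, sq A x y = 0 := by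
    intro y
    refine Complex.ext ?_ (h y)
    have h2 := h (Complex.I • y)
    rw [sq_smul_right, Complex.I_mul_im] at h2
    exact h2
  have h2 : sq A (A *ᵥ x) x = 0 := by
    rw [← star_sq A hA x (A *ᵥ x), h1, star_zero]
  exact dotProduct_star_self_eq_zero.mp h2

/-- The Gram relation for real combinations. -/
theorem gram_comb {m : ℕ} (K : Fin m → Matrix n n ℂ) (d : ℕ)
    (gram : ∀ a b, trace (K a * K b) =
      ((if a = b then (d : ℂ) else 0) + trace (K a) * trace (K b)) / (d + 1))
    (ζ ξ : EuclideanSpace ℝ (Fin m)) : trace (comb K ζ * comb K ξ) =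
      ((d : ℂ) * ((⟪ζ, ξ⟫_ℝ : ℝ) : ℂ) + trace (comb K ζ) * trace (comb K ξ)) / (d + 1) := by
  have e1 : trace (comb K ζ * comb K ξ) =
      ∑ a, ∑ b, (ζ a : ℂ) * (ξ b : ℂ) * trace (K a * K b) := by
    unfold comb
    rw [Matrix.sum_mul, Matrix.trace_sum]
    refine Finset.sum_congr rfl fun a _ => ?_
    rw [Matrix.mul_sum, Matrix.trace_sum]
    refine Finset.sum_congr rfl fun b _ => ?_
    rw [Matrix.smul_mul, Matrix.mul_smul, Matrix.trace_smul, Matrix.trace_smul, smul_eq_mul,
      smul_eq_mul]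
    ring
  have e2 : ∀ η : EuclideanSpace ℝ (Fin m), trace (comb K η) = ∑ a, (η a : ℂ) * trace (K a) := by
    intro η
    unfold comb
    rw [Matrix.trace_sum]
    refine Finset.sum_congr rfl fun a _ => ?_
    rw [Matrix.trace_smul, smul_eq_mul]
  have e3 : ((⟪ζ, ξ⟫_ℝ : ℝ) : ℂ) = ∑ a, (ζ a : ℂ) * (ξ a : ℂ) := by
    rw [PiLp.inner_apply, Complex.ofReal_sum]
    refine Finset.sum_congr rfl fun a _ => ?_
    simp [mul_comm]
  rw [e1, e2 ζ, e2 ξ, e3, Finset.sum_mul_sum, Finset.mul_sum, ← Finset.sum_add_distrib,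
    Finset.sum_div]
  refine Finset.sum_congr rfl fun a _ => ?_
  have e4 : ∀ b, (ζ a : ℂ) * (ξ b : ℂ) * trace (K a * K b) =
      (if a = b then (d : ℂ) * ((ζ a : ℂ) * (ξ b : ℂ)) / (d + 1) else 0) +
        ((ζ a : ℂ) * trace (K a)) * ((ξ b : ℂ) * trace (K b)) / (d + 1) := by
    intro b
    rw [gram]
    split_ifs <;> ring
  simp only [e4, Finset.sum_add_distrib, Finset.sum_ite_eq, Finset.mem_univ, if_true]
  rw [add_div, Finset.sum_div]

theorem proj_eq_sum {m k : ℕ} (W' : Submodule ℝ (EuclideanSpace ℝ (Fin m)))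
    (η : OrthonormalBasis (Fin k) ℝ W') (u v : EuclideanSpace ℝ (Fin m)) :
    ⟪W'.starProjection u, v⟫_ℝ =
      ∑ b, ⟪(η b : EuclideanSpace ℝ (Fin m)), u⟫_ℝ * ⟪(η b : EuclideanSpace ℝ (Fin m)), v⟫_ℝ := by
  have h3 : W'.starProjection u = ∑ b, ⟪(η b : EuclideanSpace ℝ (Fin m)), u⟫_ℝ •
      (η b : EuclideanSpace ℝ (Fin m)) := by
    have h4 := congrArg (fun z : W' => (z : EuclideanSpace ℝ (Fin m)))
      (η.orthogonalProjectionOnto_apply_eq_sum u)
    simpa using h4
  rw [h3, sum_inner]
  refine Finset.sum_congr rfl fun b _ => ?_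
  rw [real_inner_smul_left]

theorem rank_add_le' (A B : Matrix n n ℂ) : (A + B).rank ≤ A.rank + B.rank := by
  unfold Matrix.rank
  refine (Submodule.finrank_mono ?_).trans (Submodule.finrank_add_le_finrank_add_finrank _ _)
  rintro _ ⟨x, rfl⟩
  rw [Matrix.mulVecLin_add, LinearMap.add_apply]
  exact Submodule.add_mem_sup (LinearMap.mem_range_self _ _) (LinearMap.mem_range_self _ _)

/-- the sum of the squares over an orthonormal basis of a subspace -/
theorem sum_sq_comb {m k : ℕ} (K : Fin m → Matrix n n ℂ)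
    (W' : Submodule ℝ (EuclideanSpace ℝ (Fin m))) (η : OrthonormalBasis (Fin k) ℝ W') :
    ∑ b, comb K (η b : EuclideanSpace ℝ (Fin m)) * comb K (η b : EuclideanSpace ℝ (Fin m)) =
      ∑ a, ∑ a', ((⟪W'.starProjection (EuclideanSpace.single a (1 : ℝ)),
        EuclideanSpace.single a' (1 : ℝ)⟫_ℝ : ℝ) : ℂ) • (K a * K a') := by
  have h1 : ∀ b : Fin k, comb K (η b : EuclideanSpace ℝ (Fin m)) *
      comb K (η b : EuclideanSpace ℝ (Fin m)) =
      ∑ a, ∑ a', ((((η b : EuclideanSpace ℝ (Fin m)) a * (η b : EuclideanSpace ℝ (Fin m)) a' : ℝ)) : ℂ)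
        • (K a * K a') := by
    intro b
    unfold comb
    rw [Matrix.sum_mul]
    refine Finset.sum_congr rfl fun a _ => ?_
    rw [Matrix.mul_sum]
    refine Finset.sum_congr rfl fun a' _ => ?_
    rw [Matrix.smul_mul, Matrix.mul_smul, smul_smul, Complex.ofReal_mul]
  simp only [h1]
  rw [Finset.sum_comm]
  refine Finset.sum_congr rfl fun a _ => ?_
  rw [Finset.sum_comm]
  refine Finset.sum_congr rfl fun a' _ => ?_
  rw [← Finset.sum_smul, proj_eq_sum W' η, ← Complex.ofReal_sum]
  congr 2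
  refine Finset.sum_congr rfl fun b _ => ?_
  rw [real_inner_comm, EuclideanSpace.inner_single_left, real_inner_comm,
    EuclideanSpace.inner_single_left]
  simp

/-- THE RANK ONE THEOREM for families with the Gram relation whose defect is small. -/
theorem k2_rank_one' (hk2 : K2Real) {m d : ℕ} (K : Fin m → Matrix n n ℂ)
    (hH : ∀ a, (K a).IsHermitian) (hS : Sym K) (hd : 1 ≤ d) (hm : 1 ≤ m)
    (gram : ∀ a b, trace (K a * K b) =
      ((if a = b then (d : ℂ) else 0) + trace (K a) * trace (K b)) / (d + 1))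
    (hsmall : ∀ k r s : ℕ, 2 ≤ k → k ≤ m → k * (d + 1) ≤ r * (d + k) → 2 * r ≤ k + s →
      s ^ 2 ≤ k → m + r < (∑ a, K a * K a).rank + k) :
    ∃ (t : Fin m → ℝ) (q : n → ℂ), q ≠ 0 ∧ ∑ a, (t a : ℂ) • K a = vecMulVec q (star q) := by
  classical
  have hd0 : (d : ℂ) ≠ 0 := by
    have : d ≠ 0 := by omega
    exact_mod_cast this
  have hd1 : (d : ℂ) + 1 ≠ 0 := by exact_mod_cast Nat.succ_ne_zero d
  let J : (n → ℂ) →ₗ[ℝ] (n → ℂ) :=
    { toFun := fun x => Complex.I • x
      map_add' := fun x y => smul_add _ _ _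
      map_smul' := fun c x => by
        simp only [RingHom.id_apply]
        rw [smul_comm] }
  have hJ : ∀ x, J x = Complex.I • x := fun x => rfl
  have skew : ∀ x y, om K x y = -om K y x := by
    intro x y
    ext a
    rw [PiLp.neg_apply, om_apply, om_apply, ← star_sq (K a) (hH a) x y, Complex.star_def,
      Complex.conj_im, neg_neg]
  have hJJ : ∀ x, J (J x) = -x := by
    intro x
    rw [hJ, hJ, smul_smul, Complex.I_mul_I, neg_one_smul]
  have hOJ : ∀ x y, om K (J x) (J y) = om K x y := by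
    intro x y
    ext a
    rw [om_apply, om_apply, hJ, hJ, sq_smul_left, sq_smul_right, Complex.star_def, Complex.conj_I,
      ← mul_assoc, neg_mul, Complex.I_mul_I, neg_neg, one_mul]
  have hind : ∀ ζ : EuclideanSpace ℝ (Fin m), comb K ζ = 0 → ζ = 0 := by
    intro ζ hζ
    have h1 := gram_comb K d gram ζ ζ
    rw [hζ] at h1
    simp only [Matrix.mul_zero, Matrix.trace_zero, mul_zero, add_zero] at h1
    have h2 := div_eq_zero_iff.mp h1.symm
    have h3 : (d : ℂ) * ((⟪ζ, ζ⟫_ℝ : ℝ) : ℂ) = 0 := h2.resolve_right hd1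
    have h4 := (mul_eq_zero.mp h3).resolve_left hd0
    exact inner_self_eq_zero.mp (Complex.ofReal_eq_zero.mp h4)
  have hsp : ∀ ζ, (∀ x y, ⟪ζ, om K x y⟫_ℝ = 0) → ζ = 0 := by
    intro ζ hζ
    apply hind
    have h1 : ∀ x, comb K ζ *ᵥ x = 0 := by
      intro x
      apply mulVec_eq_zero _ (comb_isHermitian K hH ζ)
      intro y
      rw [← inner_om]
      exact hζ x y
    ext i j
    have h2 := congrFun (h1 (Pi.single j 1)) i
    rw [Matrix.mulVec_single_one] at h2
    exact h2
  have hBtop : BiOn (om K) ⊤ := by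
    intro x y z w
    have h1 := bsum_of_sym K hH hS x y z w
    have h2 : ∀ x y z w : n → ℂ, ⟪om K x y, om K z w⟫_ℝ =
        ∑ a, (sq (K a) x y).im * (sq (K a) z w).im := by
      intro x y z w
      rw [PiLp.inner_apply]
      refine Finset.sum_congr rfl fun a _ => ?_
      rw [om_apply, om_apply]
      simp [mul_comm]
    simp only [Submodule.starProjection_top, ContinuousLinearMap.id_apply]
    rw [h2, h2, h2]
    exact h1
  obtain ⟨W', hW', hB, hmin⟩ := exists_minBiOn (om K) hBtop (by
    rw [finrank_euclideanSpace, Fintype.card_fin]; omega)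
  obtain ⟨h1, h2, hirr⟩ := irr_quo (om K) J skew hJJ hOJ hsp W' hB hmin
  obtain ⟨s, hs1, hs2⟩ := hk2 _ _ _ _ hirr
  set k := finrank ℝ W' with hk
  let η : OrthonormalBasis (Fin k) ℝ W' := stdOrthonormalBasis ℝ W'
  set K' : Fin k → Matrix n n ℂ := fun b => comb K (η b : EuclideanSpace ℝ (Fin m)) with hK'
  have hH' : ∀ b, (K' b).IsHermitian := fun b => comb_isHermitian K hH _
  have hproj : ∀ u v : EuclideanSpace ℝ (Fin m), ⟪W'.starProjection u, v⟫_ℝ =
      ∑ b, ⟪(η b : EuclideanSpace ℝ (Fin m)), u⟫_ℝ * ⟪(η b : EuclideanSpace ℝ (Fin m)), v⟫_ℝ :=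
    proj_eq_sum W' η
  have hS' : Sym K' := by
    apply sym_of_bsum K' hH'
    intro x y z w
    have h3 := hB x y z w
    rw [hproj, hproj, hproj] at h3
    simp only [inner_om] at h3
    exact h3
  have hgram' : ∀ b c, trace (K' b * K' c) =
      ((if b = c then (d : ℂ) else 0) + trace (K' b) * trace (K' c)) / (d + 1) := by
    intro b c
    rw [hK']
    simp only
    rw [gram_comb K d gram]
    have h3 : ⟪(η b : EuclideanSpace ℝ (Fin m)), (η c : EuclideanSpace ℝ (Fin m))⟫_ℝ =
        if b = c then 1 else 0 := by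
      rw [← Submodule.coe_inner]
      exact orthonormal_iff_ite.mp η.orthonormal b c
    rw [h3]
    split_ifs <;> simp
  -- the traces
  set R : Matrix n n ℂ := ∑ b, K' b * K' b with hR
  have hRsum : R = ∑ b, trace (K' b) • K' b := by
    have h3 := sym_sum K' hS' 1
    simp only [Matrix.mul_one] at h3
    exact h3
  have hRH : R.IsHermitian := by
    rw [hR]
    unfold Matrix.IsHermitian
    rw [Matrix.conjTranspose_sum]
    refine Finset.sum_congr rfl fun a _ => ?_
    rw [Matrix.conjTranspose_mul, (hH' a).eq]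
  set T : ℂ := ∑ b, trace (K' b) * trace (K' b) with hT
  have htrR1 : trace R = ((d : ℂ) * k + T) / (d + 1) := by
    rw [hR, Matrix.trace_sum]
    simp only [hgram', if_true]
    rw [← Finset.sum_div, Finset.sum_add_distrib, Finset.sum_const, Finset.card_univ,
      Fintype.card_fin, nsmul_eq_mul, hT]
    ring
  have htrR2 : trace R = T := by
    rw [hRsum, Matrix.trace_sum, hT]
    refine Finset.sum_congr rfl fun b _ => ?_
    rw [Matrix.trace_smul, smul_eq_mul]
  have hTk : T = k := by
    have h3 : T * (d + 1) = (d : ℂ) * k + T := by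
      have h5 : T = ((d : ℂ) * k + T) / (d + 1) := htrR2.symm.trans htrR1
      rw [eq_div_iff hd1] at h5
      exact h5
    have h4 : (d : ℂ) * T = d * k := by linear_combination h3
    exact mul_left_cancel₀ hd0 h4
  have htrRR : trace (R * R) = ((d : ℂ) * k + k * k) / (d + 1) := by
    have h3 : trace (R * R) = ∑ b, ∑ c, trace (K' b) * trace (K' c) * trace (K' b * K' c) := by
      conv_lhs => rw [hRsum]
      rw [Matrix.sum_mul, Matrix.trace_sum]
      refine Finset.sum_congr rfl fun b _ => ?_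
      rw [Matrix.mul_sum, Matrix.trace_sum]
      refine Finset.sum_congr rfl fun c _ => ?_
      rw [Matrix.smul_mul, Matrix.mul_smul, Matrix.trace_smul, Matrix.trace_smul, smul_eq_mul,
        smul_eq_mul]
      ring
    have h4 : ∀ b c, trace (K' b) * trace (K' c) * trace (K' b * K' c) =
        (if b = c then (d : ℂ) * (trace (K' b) * trace (K' b)) / (d + 1) else 0) +
          (trace (K' b) * trace (K' b)) * (trace (K' c) * trace (K' c)) / (d + 1) := by
      intro b c
      rw [hgram']
      split_ifs with hbc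
      · rw [hbc]; ring
      · ring
    rw [h3]
    simp only [h4, Finset.sum_add_distrib, Finset.sum_ite_eq, Finset.mem_univ, if_true]
    rw [← Finset.sum_div, ← Finset.mul_sum, ← hT]
    simp only [← Finset.sum_div]
    rw [← Finset.sum_mul_sum, ← hT, hTk, ← add_div]
  have hwelch : k * (d + 1) ≤ R.rank * (d + k) := by
    have h3 := trace_sq_le_rank R hRH
    have h4 : (trace R).re = k := by
      rw [htrR2, hTk, Complex.natCast_re]
    have h5 : (trace (R * R)).re = ((d : ℝ) * k + k * k) / (d + 1) := by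
      rw [htrRR]
      have : ((d : ℂ) * k + k * k) / (d + 1) = ((((d : ℝ) * k + k * k) / (d + 1) : ℝ) : ℂ) := by
        push_cast; rfl
      rw [this, Complex.ofReal_re]
    rw [h4, h5] at h3
    have hk0 : 0 < k := by
      rw [hk, Nat.pos_iff_ne_zero]
      intro h6
      exact hW' (Submodule.finrank_eq_zero.mp h6)
    have hk0' : (0 : ℝ) < k := by exact_mod_cast hk0
    have h6 : (k : ℝ) ^ 2 * (d + 1) ≤ R.rank * ((d : ℝ) * k + k * k) := by
      rw [← mul_div_assoc, le_div_iff₀ (by positivity)] at h3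
      exact h3
    have h7 : (k : ℝ) * (k * (d + 1)) ≤ k * (R.rank * (d + k)) := by
      calc (k : ℝ) * (k * (d + 1)) = (k : ℝ) ^ 2 * (d + 1) := by ring
        _ ≤ R.rank * ((d : ℝ) * k + k * k) := h6
        _ = k * (R.rank * (d + k)) := by ring
    have h8 := le_of_mul_le_mul_left h7 hk0'
    exact_mod_cast h8
  -- the dimension of the quotient
  have hdim : 2 * R.rank ≤ k + s := by
    have h3 : finrank ℝ ((n → ℂ) ⧸ LinearMap.ker (part (om K) W')) +
        finrank ℝ (LinearMap.ker (part (om K) W')) = finrank ℝ (n → ℂ) :=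
      Submodule.finrank_quotient_add_finrank _
    have hfV : finrank ℝ (n → ℂ) = 2 * Fintype.card n := by
      rw [finrank_real_of_complex, Module.finrank_fintype_fun_eq_card]
    have h4 : LinearMap.ker (part (om K) W') ≤ (LinearMap.ker R.mulVecLin).restrictScalars ℝ := by
      intro x hx
      rw [LinearMap.mem_ker] at hx
      rw [Submodule.restrictScalars_mem, LinearMap.mem_ker, Matrix.mulVecLin_apply, hR,
        Matrix.sum_mulVec]
      refine Finset.sum_eq_zero fun b _ => ?_
      have h5 : K' b *ᵥ x = 0 := by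
        apply mulVec_eq_zero _ (hH' b)
        intro y
        rw [hK']
        simp only
        rw [← inner_om]
        have h6 : part (om K) W' x y = 0 := by rw [hx, LinearMap.zero_apply]
        rw [part_apply] at h6
        have h7 : ⟪(η b : EuclideanSpace ℝ (Fin m)), om K x y -
            (W'.orthogonalProjection (om K x y) : EuclideanSpace ℝ (Fin m))⟫_ℝ = 0 := by
          rw [real_inner_comm]
          exact W'.starProjection_inner_eq_zero _ _ (η b).2
        rw [h6, Submodule.coe_zero, sub_zero] at h7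
        exact h7
      rw [← Matrix.mulVec_mulVec, h5, Matrix.mulVec_zero]
    have h5 := Submodule.finrank_mono h4
    have h6 : finrank ℝ ((LinearMap.ker R.mulVecLin).restrictScalars ℝ) =
        2 * finrank ℂ (LinearMap.ker R.mulVecLin) := finrank_real_of_complex _
    have h7 : R.rank + finrank ℂ (LinearMap.ker R.mulVecLin) = Fintype.card n := by
      have := LinearMap.finrank_range_add_finrank_ker R.mulVecLin
      rwa [Module.finrank_fintype_fun_eq_card] at this
    rw [hfV] at h3
    rw [h6] at h5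
    omega
  -- conclusion
  have hkm : k ≤ m := by
    have h3 := Submodule.finrank_le W'
    rwa [finrank_euclideanSpace, Fintype.card_fin] at h3
  -- the complement
  have hcompl : (∑ a, K a * K a).rank + k ≤ m + R.rank := by
    set k2 := finrank ℝ W'ᗮ with hk2'
    have hk12 : k + k2 = m := by
      have h3 := W'.finrank_add_finrank_orthogonal
      rwa [finrank_euclideanSpace, Fintype.card_fin] at h3
    let η2 : OrthonormalBasis (Fin k2) ℝ W'ᗮ := stdOrthonormalBasis ℝ W'ᗮ
    have hcS : Sym (fun b => comb K (η2 b : EuclideanSpace ℝ (Fin m))) := by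
      apply sym_of_bsum _ (fun b => comb_isHermitian K hH _)
      intro x y z w
      have h3 := hB x y z w
      have h4 := hBtop x y z w
      have h5 : ∀ u v : EuclideanSpace ℝ (Fin m), ⟪W'ᗮ.starProjection u, v⟫_ℝ =
          ⟪(⊤ : Submodule ℝ (EuclideanSpace ℝ (Fin m))).starProjection u, v⟫_ℝ -
            ⟪W'.starProjection u, v⟫_ℝ := by
        intro u v
        rw [Submodule.starProjection_orthogonal_val, inner_sub_left, Submodule.starProjection_top]
        rfl
      have h6 : ⟪W'ᗮ.starProjection (om K x y), om K z w⟫_ℝ +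
          ⟪W'ᗮ.starProjection (om K x z), om K w y⟫_ℝ +
          ⟪W'ᗮ.starProjection (om K x w), om K y z⟫_ℝ = 0 := by
        rw [h5, h5, h5]
        linarith
      rw [proj_eq_sum W'ᗮ η2, proj_eq_sum W'ᗮ η2, proj_eq_sum W'ᗮ η2] at h6
      simp only [inner_om] at h6
      exact h6
    have h3 := rank_le_card (fun b => comb K (η2 b : EuclideanSpace ℝ (Fin m)))
      (fun b => comb_isHermitian K hH _) hcS _ rfl
    rw [Fintype.card_fin] at h3
    have h4 : ∑ a, K a * K a = R + ∑ b, comb K (η2 b : EuclideanSpace ℝ (Fin m)) *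
        comb K (η2 b : EuclideanSpace ℝ (Fin m)) := by
      rw [hR, hK']
      simp only
      rw [sum_sq_comb K W' η, sum_sq_comb K W'ᗮ η2, ← Finset.sum_add_distrib]
      refine Finset.sum_congr rfl fun a _ => ?_
      rw [← Finset.sum_add_distrib]
      have h5 : ∀ a', ((⟪W'.starProjection (EuclideanSpace.single a (1 : ℝ)),
          EuclideanSpace.single a' (1 : ℝ)⟫_ℝ : ℝ) : ℂ) • (K a * K a') +
          ((⟪W'ᗮ.starProjection (EuclideanSpace.single a (1 : ℝ)),
            EuclideanSpace.single a' (1 : ℝ)⟫_ℝ : ℝ) : ℂ) • (K a * K a') =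
          if a = a' then K a * K a' else 0 := by
        intro a'
        rw [← add_smul, ← Complex.ofReal_add, ← inner_add_left,
          Submodule.starProjection_orthogonal_val, add_sub_cancel,
          EuclideanSpace.inner_single_left]
        split_ifs with h
        · rw [h]; simp
        · simp [Ne.symm h, h]
      simp only [h5, Finset.sum_ite_eq, Finset.mem_univ, if_true]
    have h5 : (∑ a, K a * K a).rank ≤ R.rank + (∑ b, comb K (η2 b : EuclideanSpace ℝ (Fin m)) *
        comb K (η2 b : EuclideanSpace ℝ (Fin m))).rank := by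
      rw [h4]
      exact rank_add_le' _ _
    omega
  have hk1 : k = 1 := by
    by_contra hcon
    have hk0 : k ≠ 0 := by
      intro h6
      exact hW' (Submodule.finrank_eq_zero.mp h6)
    have h3 := hsmall k R.rank s (by omega) hkm hwelch hdim hs1
    omega
  have hk1' : 0 < k := by omega
  let b0 : Fin k := ⟨0, hk1'⟩
  have hall : ∀ b : Fin k, b = b0 := by
    intro b
    apply Fin.ext
    have := b.2
    simp only [b0]
    omega
  have hA0 : K' b0 ≠ 0 := by
    intro h3
    have h4 : (η b0 : EuclideanSpace ℝ (Fin m)) = 0 := hind _ h3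
    have h5 : η b0 = 0 := Subtype.ext h4
    exact η.orthonormal.ne_zero b0 h5
  obtain ⟨ε, q, hq0, hq⟩ := rank_one_of_sym (K' b0) (hH' b0) hA0 (by
    intro p q r s
    have h3 := hS' p q r s
    have h4 : (Finset.univ : Finset (Fin k)) = {b0} := by
      ext b
      rw [Finset.mem_singleton]
      exact ⟨fun _ => hall b, fun _ => Finset.mem_univ _⟩
    rw [h4, Finset.sum_singleton, Finset.sum_singleton] at h3
    exact h3)
  refine ⟨fun a => ε * (η b0 : EuclideanSpace ℝ (Fin m)) a, q, hq0, ?_⟩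
  rw [← hq, hK']
  simp only [comb]
  rw [Finset.smul_sum]
  refine Finset.sum_congr rfl fun a _ => ?_
  rw [smul_smul, Complex.ofReal_mul]

/-- THE RANK ONE THEOREM for small families with the Gram relation. -/
theorem k2_rank_one (hk2 : K2Real) {m d : ℕ} (K : Fin m → Matrix n n ℂ)
    (hH : ∀ a, (K a).IsHermitian) (hS : Sym K) (hd : 1 ≤ d) (hm : 1 ≤ m)
    (gram : ∀ a b, trace (K a * K b) =
      ((if a = b then (d : ℂ) else 0) + trace (K a) * trace (K b)) / (d + 1))
    (hsmall : ∀ k r s : ℕ, 2 ≤ k → k ≤ m → k * (d + 1) ≤ r * (d + k) → 2 * r ≤ k + s → k < s ^ 2) :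
    ∃ (t : Fin m → ℝ) (q : n → ℂ), q ≠ 0 ∧ ∑ a, (t a : ℂ) • K a = vecMulVec q (star q) :=
  k2_rank_one' hk2 K hH hS hd hm gram fun k r s h1 h2 h3 h4 h5 =>
    absurd (hsmall k r s h1 h2 h3 h4) (by omega)

end Core

end Pool.Agent.Lib.MP_d0f9e0_co.K2
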