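import Pool.Agent.Lib.MP_d0f9e0_co.K2.FamGram
import Pool.Agent.Lib.MP_d0f9e0_co.Gap.RankCritD

/-!
# From the rank one theorem for symmetric families to the completion of systems of lines
-/

set_option autoImplicit false

open Matrix
open scoped ComplexOrder

namespace Pool.Agent.Lib.MP_d0f9e0_co.K2

open Pool.Agent.Lib.MP_d0f9e0_co.Gap

/-- Symmetric Hermitian families of `m` matrices with the Gram matrix of a system of lines of
`ℂ^d` contain a rank one element. -/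
def RankOne (n : Type*) [Fintype n] [DecidableEq n] (d m : ℕ) : Prop :=
  ∀ K : Fin m → Matrix n n ℂ, (∀ a, (K a).IsHermitian) → Sym K →
    (∀ a b, trace (K a * K b) =
      ((if a = b then (d : ℂ) else 0) + trace (K a) * trace (K b)) / (d + 1)) →
    ∃ (t : Fin m → ℝ) (q : n → ℂ), q ≠ 0 ∧ ∑ a, (t a : ℂ) • K a = vecMulVec q (star q)

section Extend

variable {n : Type*} [Fintype n] [DecidableEq n]

/-- One more vector. -/
theorem extend_one_k2 {κ : Type*} [Fintype κ] (x : κ → n → ℂ) (d m : ℕ)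
    (hd : Fintype.card n = d)
    (hx : ∀ i, star (x i) ⬝ᵥ x i = 1)
    (hxy : ∀ i j, i ≠ j → ‖star (x i) ⬝ᵥ x j‖ ^ 2 = 1 / ((d : ℝ) + 1))
    (hm0 : 0 < m) (hm : Fintype.card κ + m = d ^ 2) (hK2 : RankOne n d m) :
    ∃ q : n → ℂ, q ≠ 0 ∧ ∀ i, ‖star (x i) ⬝ᵥ q‖ ^ 2 = (star q ⬝ᵥ q).re / ((d : ℝ) + 1) := by
  obtain ⟨w, K, c, R, hw, hR, hKH, hKS, hRc, hR2, hPK, htr, htr2, hgram⟩ :=
    fam_data_gram x d hd hx hxy (by omega)
  have hmw : m = w + 1 := by omega
  subst hmw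
  set e := finSuccEquiv w with he
  obtain ⟨t, q, hq0, htq⟩ := hK2 (fun a => K (e a)) (fun a => hKH _)
    (by
      intro p q r s
      have h1 := e.sum_comp (fun a => K a p q * K a r s)
      have h2 := e.sum_comp (fun a => K a p s * K a r q)
      rw [h1, h2]
      exact hKS p q r s)
    (by
      intro a b
      rw [hgram]
      by_cases hab : a = b
      · rw [if_pos hab, if_pos (by rw [hab])]
      · rw [if_neg hab, if_neg (fun h => hab (e.injective h))])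
  refine ⟨q, hq0, fun i => ?_⟩
  have hPq : trace (vecMulVec (x i) (star (x i)) * vecMulVec q (star q)) =
      ((‖star (x i) ⬝ᵥ q‖ ^ 2 : ℝ) : ℂ) := trace_proj_mul _ _
  have h1 : trace (vecMulVec (x i) (star (x i)) * vecMulVec q (star q)) =
      trace (vecMulVec q (star q)) / (d + 1) := by
    rw [← htq, Matrix.mul_sum, Matrix.trace_sum, Matrix.trace_sum, Finset.sum_div]
    refine Finset.sum_congr rfl fun a _ => ?_
    rw [Matrix.mul_smul, Matrix.trace_smul, Matrix.trace_smul, hPK, smul_eq_mul, smul_eq_mul]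
    ring
  rw [hPq, Matrix.trace_vecMulVec, dotProduct_comm q (star q)] at h1
  have h2 := congrArg Complex.re h1
  rw [Complex.ofReal_re] at h2
  rw [h2]
  have h3 : (star q ⬝ᵥ q / ((d : ℂ) + 1)) = (star q ⬝ᵥ q) / (((d : ℝ) + 1 : ℝ) : ℂ) := by
    push_cast; rfl
  rw [h3, Complex.div_ofReal_re]

end Extend

private theorem hin {d : ℕ} (a b : EuclideanSpace ℂ (Fin d)) :
    star a.ofLp ⬝ᵥ b.ofLp = inner ℂ a b := by
  rw [EuclideanSpace.inner_eq_star_dotProduct, dotProduct_comm]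

private theorem hunit {d : ℕ} (a : EuclideanSpace ℂ (Fin d)) (ha : ‖a‖ = 1) :
    star a.ofLp ⬝ᵥ a.ofLp = 1 := by
  rw [hin, inner_self_eq_norm_sq_to_K, ha]; simp

private theorem hs2 (d : ℕ) : (1 / Real.sqrt ((d : ℝ) + 1)) ^ 2 = 1 / ((d : ℝ) + 1) := by
  rw [div_pow, one_pow, Real.sq_sqrt (by positivity)]

theorem add_vector_k2 (d N m : ℕ) (v : Fin N → EuclideanSpace ℂ (Fin d))
    (hv1 : ∀ i, ‖v i‖ = 1)
    (hv2 : ∀ i j, i ≠ j → ‖inner ℂ (v i) (v j)‖ = 1 / Real.sqrt ((d : ℝ) + 1))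
    (hm0 : 0 < m) (hm : N + m = d ^ 2) (hK2 : RankOne (Fin d) d m) :
    ∃ u : EuclideanSpace ℂ (Fin d), ‖u‖ = 1 ∧
      ∀ i, ‖inner ℂ (v i) u‖ = 1 / Real.sqrt ((d : ℝ) + 1) := by
  obtain ⟨q, hq0, hq⟩ := extend_one_k2 (n := Fin d) (fun i => (v i).ofLp) d m
    (Fintype.card_fin d)
    (fun i => hunit _ (hv1 i)) (fun i j hij => by rw [hin, hv2 i j hij, hs2])
    hm0 (by rwa [Fintype.card_fin]) hK2
  set Q : EuclideanSpace ℂ (Fin d) := WithLp.toLp 2 q with hQ
  have hQ0 : Q ≠ 0 := by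
    intro h
    apply hq0
    have := congrArg (fun z : EuclideanSpace ℂ (Fin d) => z.ofLp) h
    simpa [hQ] using this
  have hQn : 0 < ‖Q‖ := norm_pos_iff.mpr hQ0
  refine ⟨((‖Q‖⁻¹ : ℝ) : ℂ) • Q, ?_, ?_⟩
  · rw [norm_smul, Complex.norm_real, norm_inv, norm_norm, inv_mul_cancel₀ hQn.ne']
  · intro i
    rw [inner_smul_right, norm_mul, Complex.norm_real, norm_inv, norm_norm]
    have h1 := hq i
    have h2 : (star q ⬝ᵥ q).re = ‖Q‖ ^ 2 := by
      have : star q ⬝ᵥ q = inner ℂ Q Q := hin Q Q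
      rw [this, inner_self_eq_norm_sq_to_K]
      norm_cast
    have h3 : star (v i).ofLp ⬝ᵥ q = inner ℂ (v i) Q := hin (v i) Q
    rw [h2, h3] at h1
    have h4 : (‖Q‖⁻¹ * ‖inner ℂ (v i) Q‖) ^ 2 = (1 / Real.sqrt ((d : ℝ) + 1)) ^ 2 := by
      rw [mul_pow, h1, hs2]
      field_simp
    exact (pow_left_inj₀ (by positivity) (by positivity) two_ne_zero).mp h4

theorem extend_all_k2 (d : ℕ) : ∀ k N : ℕ, (hNk : N + k = d ^ 2) →
    ∀ v : Fin N → EuclideanSpace ℂ (Fin d), (∀ m, 0 < m → m ≤ k → RankOne (Fin d) d m) →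
    (∀ i, ‖v i‖ = 1) →
    (∀ i j, i ≠ j → ‖inner ℂ (v i) (v j)‖ = 1 / Real.sqrt ((d : ℝ) + 1)) →
    ∃ w : Fin (d ^ 2) → EuclideanSpace ℂ (Fin d), (∀ i, ‖w i‖ = 1) ∧
      (∀ i j, i ≠ j → ‖inner ℂ (w i) (w j)‖ = 1 / Real.sqrt ((d : ℝ) + 1)) ∧
      ∀ i : Fin N, w (Fin.castLE (by omega) i) = v i := by
  intro k
  induction k with
  | zero =>
    intro N hNk v _ hv1 hv2
    have hN : N = d ^ 2 := by omega
    subst hN
    exact ⟨v, hv1, hv2, fun i => rfl⟩
  | succ k ih =>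
    intro N hNk v hk hv1 hv2
    obtain ⟨u, hu1, hu2⟩ := add_vector_k2 d N (k + 1) v hv1 hv2 (by omega) hNk
      (hk (k + 1) (by omega) le_rfl)
    obtain ⟨w, hw1, hw2, hw3⟩ := ih (N + 1) (by omega) (Fin.snoc v u)
      (fun m hm0 hm => hk m hm0 (by omega))
      (by
        intro i
        refine Fin.lastCases ?_ (fun j => ?_) i
        · simpa using hu1
        · simpa using hv1 j)
      (by
        intro i j
        refine Fin.lastCases ?_ (fun i' => ?_) i
        · refine Fin.lastCases ?_ (fun j' => ?_) j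
          · intro h; exact absurd rfl h
          · intro _
            simp only [Fin.snoc_last, Fin.snoc_castSucc]
            rw [norm_inner_symm]
            exact hu2 j'
        · refine Fin.lastCases ?_ (fun j' => ?_) j
          · intro _
            simp only [Fin.snoc_last, Fin.snoc_castSucc]
            exact hu2 i'
          · intro h
            simp only [Fin.snoc_castSucc]
            exact hv2 i' j' (fun h' => h (by rw [h'])))
    refine ⟨w, hw1, hw2, fun i => ?_⟩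
    have h1 := hw3 i.castSucc
    rw [Fin.snoc_castSucc] at h1
    exact h1

/-- A family at the angle of the maximal ETFs lies in a maximal ETF if the rank one theorem holds
for at most `d² - N` matrices. -/
theorem k2_completion_of (d N : ℕ) (hd : 1 ≤ d)
    (hK2 : ∀ m, 0 < m → N + m ≤ d ^ 2 → RankOne (Fin d) d m)
    (v : Fin N → EuclideanSpace ℂ (Fin d)) (hv1 : ∀ i, ‖v i‖ = 1)
    (hv2 : ∀ i j, i ≠ j → ‖inner ℂ (v i) (v j)‖ = 1 / Real.sqrt ((d : ℝ) + 1)) :
    ∃ (w : Fin (d ^ 2) → EuclideanSpace ℂ (Fin d)) (f : Fin N ↪ Fin (d ^ 2)),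
      (∀ i, ‖w i‖ = 1) ∧
      (∀ i j, i ≠ j → ‖inner ℂ (w i) (w j)‖ = 1 / Real.sqrt ((d : ℝ) + 1)) ∧
      (∀ i, w (f i) = v i) := by
  have h := defect_rank_le d N hd v hv1 hv2
  have hle : N ≤ d ^ 2 := by omega
  obtain ⟨w, hw1, hw2, hw3⟩ := extend_all_k2 d (d ^ 2 - N) N (by omega) v
    (fun m hm0 hm => hK2 m hm0 (by omega)) hv1 hv2
  exact ⟨w, ⟨Fin.castLE hle, Fin.castLE_injective hle⟩, hw1, hw2, fun i => hw3 i⟩

end Pool.Agent.Lib.MP_d0f9e0_co.K2
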