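import Pool.Agent.Lib.MP_d0f9e0_co.K2.EtfExt
import Pool.Agent.Lib.MP_d0f9e0_co.K2.Arith

/-!
# Completion of systems of lines from a rank one theorem depending on the rank of the defect
-/

set_option autoImplicit false

open Matrix
open scoped ComplexOrder

namespace Pool.Agent.Lib.MP_d0f9e0_co.K2

open Pool.Agent.Lib.MP_d0f9e0_co.Gap

/-- Symmetric Hermitian families of `m` matrices with the Gram matrix of a system of lines of
`ℂ^d`, the sum of the squares of which has rank `ρ`, contain a rank one element. -/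
def RankOneD (n : Type*) [Fintype n] [DecidableEq n] (d m ρ : ℕ) : Prop :=
  ∀ K : Fin m → Matrix n n ℂ, (∀ a, (K a).IsHermitian) → Sym K →
    (∀ a b, trace (K a * K b) =
      ((if a = b then (d : ℂ) else 0) + trace (K a) * trace (K b)) / (d + 1)) →
    (∑ a, K a * K a).rank = ρ →
    ∃ (t : Fin m → ℝ) (q : n → ℂ), q ≠ 0 ∧ ∑ a, (t a : ℂ) • K a = vecMulVec q (star q)

section Extend

variable {n : Type*} [Fintype n] [DecidableEq n]

/-- One more vector. -/
theorem extend_one_k2D {κ : Type*} [Fintype κ] (x : κ → n → ℂ) (d m ρ : ℕ)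
    (hd : Fintype.card n = d)
    (hx : ∀ i, star (x i) ⬝ᵥ x i = 1)
    (hxy : ∀ i j, i ≠ j → ‖star (x i) ⬝ᵥ x j‖ ^ 2 = 1 / ((d : ℝ) + 1))
    (hm0 : 0 < m) (hm : Fintype.card κ + m = d ^ 2)
    (hρ : ((d : ℂ) • (1 : Matrix n n ℂ) - ∑ i, vecMulVec (x i) (star (x i))).rank = ρ)
    (hK2 : RankOneD n d m ρ) :
    ∃ q : n → ℂ, q ≠ 0 ∧ ∀ i, ‖star (x i) ⬝ᵥ q‖ ^ 2 = (star q ⬝ᵥ q).re / ((d : ℝ) + 1) := by
  obtain ⟨w, K, c, R, hw, hR, hKH, hKS, hRc, hR2, hPK, htr, htr2, hgram⟩ :=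
    fam_data_gram x d hd hx hxy (by omega)
  have hmw : m = w + 1 := by omega
  subst hmw
  set e := finSuccEquiv w with he
  obtain ⟨t, q, hq0, htq⟩ := hK2 (fun a => K (e a)) (fun a => hKH _)
    (by
      intro p q r s
      have h1 := e.sum_comp (fun a => K a p q * K a r s)
      have h2 := e.sum_comp (fun a => K a p s * K a r q)
      rw [h1, h2]
      exact hKS p q r s)
    (by
      intro a b
      rw [hgram]
      by_cases hab : a = b
      · rw [if_pos hab, if_pos (by rw [hab])]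
      · rw [if_neg hab, if_neg (fun h => hab (e.injective h))])
    (by
      have h1 := e.sum_comp (fun a => K a * K a)
      rw [h1, hR2, hR]
      exact hρ)
  refine ⟨q, hq0, fun i => ?_⟩
  have hPq : trace (vecMulVec (x i) (star (x i)) * vecMulVec q (star q)) =
      ((‖star (x i) ⬝ᵥ q‖ ^ 2 : ℝ) : ℂ) := trace_proj_mul _ _
  have h1 : trace (vecMulVec (x i) (star (x i)) * vecMulVec q (star q)) =
      trace (vecMulVec q (star q)) / (d + 1) := by
    rw [← htq, Matrix.mul_sum, Matrix.trace_sum, Matrix.trace_sum, Finset.sum_div]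
    refine Finset.sum_congr rfl fun a _ => ?_
    rw [Matrix.mul_smul, Matrix.trace_smul, Matrix.trace_smul, hPK, smul_eq_mul, smul_eq_mul]
    ring
  rw [hPq, Matrix.trace_vecMulVec, dotProduct_comm q (star q)] at h1
  have h2 := congrArg Complex.re h1
  rw [Complex.ofReal_re] at h2
  rw [h2]
  have h3 : (star q ⬝ᵥ q / ((d : ℂ) + 1)) = (star q ⬝ᵥ q) / (((d : ℝ) + 1 : ℝ) : ℂ) := by
    push_cast; rfl
  rw [h3, Complex.div_ofReal_re]

end Extend

private theorem hin {d : ℕ} (a b : EuclideanSpace ℂ (Fin d)) :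
    star a.ofLp ⬝ᵥ b.ofLp = inner ℂ a b := by
  rw [EuclideanSpace.inner_eq_star_dotProduct, dotProduct_comm]

private theorem hunit {d : ℕ} (a : EuclideanSpace ℂ (Fin d)) (ha : ‖a‖ = 1) :
    star a.ofLp ⬝ᵥ a.ofLp = 1 := by
  rw [hin, inner_self_eq_norm_sq_to_K, ha]; simp

private theorem hs2 (d : ℕ) : (1 / Real.sqrt ((d : ℝ) + 1)) ^ 2 = 1 / ((d : ℝ) + 1) := by
  rw [div_pow, one_pow, Real.sq_sqrt (by positivity)]

theorem add_vector_k2D (d N m : ℕ) (v : Fin N → EuclideanSpace ℂ (Fin d))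
    (hv1 : ∀ i, ‖v i‖ = 1)
    (hv2 : ∀ i j, i ≠ j → ‖inner ℂ (v i) (v j)‖ = 1 / Real.sqrt ((d : ℝ) + 1))
    (hm0 : 0 < m) (hm : N + m = d ^ 2) (hK2 : RankOneD (Fin d) d m (defect d N v).rank) :
    ∃ u : EuclideanSpace ℂ (Fin d), ‖u‖ = 1 ∧
      ∀ i, ‖inner ℂ (v i) u‖ = 1 / Real.sqrt ((d : ℝ) + 1) := by
  obtain ⟨q, hq0, hq⟩ := extend_one_k2D (n := Fin d) (fun i => (v i).ofLp) d m
    (defect d N v).rank (Fintype.card_fin d)
    (fun i => hunit _ (hv1 i)) (fun i j hij => by rw [hin, hv2 i j hij, hs2])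
    hm0 (by rwa [Fintype.card_fin]) rfl hK2
  set Q : EuclideanSpace ℂ (Fin d) := WithLp.toLp 2 q with hQ
  have hQ0 : Q ≠ 0 := by
    intro h
    apply hq0
    have := congrArg (fun z : EuclideanSpace ℂ (Fin d) => z.ofLp) h
    simpa [hQ] using this
  have hQn : 0 < ‖Q‖ := norm_pos_iff.mpr hQ0
  refine ⟨((‖Q‖⁻¹ : ℝ) : ℂ) • Q, ?_, ?_⟩
  · rw [norm_smul, Complex.norm_real, norm_inv, norm_norm, inv_mul_cancel₀ hQn.ne']
  · intro i
    rw [inner_smul_right, norm_mul, Complex.norm_real, norm_inv, norm_norm]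
    have h1 := hq i
    have h2 : (star q ⬝ᵥ q).re = ‖Q‖ ^ 2 := by
      have : star q ⬝ᵥ q = inner ℂ Q Q := hin Q Q
      rw [this, inner_self_eq_norm_sq_to_K]
      norm_cast
    have h3 : star (v i).ofLp ⬝ᵥ q = inner ℂ (v i) Q := hin (v i) Q
    rw [h2, h3] at h1
    have h4 : (‖Q‖⁻¹ * ‖inner ℂ (v i) Q‖) ^ 2 = (1 / Real.sqrt ((d : ℝ) + 1)) ^ 2 := by
      rw [mul_pow, h1, hs2]
      field_simp
    exact (pow_left_inj₀ (by positivity) (by positivity) two_ne_zero).mp h4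

/-- Induction: `P m ρ` is a property of the number of missing vectors and the rank of the defect
which is stable when one vector is added. -/
theorem extend_all_k2D (d : ℕ) (P : ℕ → ℕ → Prop)
    (hP : ∀ m ρ ρ', P (m + 1) ρ → ρ ≤ ρ' + 1 → P m ρ')
    (hK2 : ∀ m ρ, 0 < m → P m ρ → RankOneD (Fin d) d m ρ) :
    ∀ k N : ℕ, (hNk : N + k = d ^ 2) →
    ∀ v : Fin N → EuclideanSpace ℂ (Fin d), P k (defect d N v).rank →
    (∀ i, ‖v i‖ = 1) →
    (∀ i j, i ≠ j → ‖inner ℂ (v i) (v j)‖ = 1 / Real.sqrt ((d : ℝ) + 1)) →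
    ∃ w : Fin (d ^ 2) → EuclideanSpace ℂ (Fin d), (∀ i, ‖w i‖ = 1) ∧
      (∀ i j, i ≠ j → ‖inner ℂ (w i) (w j)‖ = 1 / Real.sqrt ((d : ℝ) + 1)) ∧
      ∀ i : Fin N, w (Fin.castLE (by omega) i) = v i := by
  intro k
  induction k with
  | zero =>
    intro N hNk v _ hv1 hv2
    have hN : N = d ^ 2 := by omega
    subst hN
    exact ⟨v, hv1, hv2, fun i => rfl⟩
  | succ k ih =>
    intro N hNk v hk hv1 hv2
    obtain ⟨u, hu1, hu2⟩ := add_vector_k2D d N (k + 1) v hv1 hv2 (by omega) hNk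
      (hK2 (k + 1) _ (by omega) hk)
    have hk' : P k (defect d (N + 1) (Fin.snoc v u)).rank := by
      refine hP k _ _ hk ?_
      have h1 : defect d N v =
          defect d (N + 1) (Fin.snoc v u) + vecMulVec u.ofLp (star u.ofLp) := by
        unfold defect
        rw [Fin.sum_univ_castSucc]
        simp only [Fin.snoc_castSucc, Fin.snoc_last]
        abel
      have h2 := rank_add_le' (defect d (N + 1) (Fin.snoc v u)) (vecMulVec u.ofLp (star u.ofLp))
      have h3 := Matrix.rank_vecMulVec_le u.ofLp (star u.ofLp)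
      rw [← h1] at h2
      omega
    obtain ⟨w, hw1, hw2, hw3⟩ := ih (N + 1) (by omega) (Fin.snoc v u) hk'
      (by
        intro i
        refine Fin.lastCases ?_ (fun j => ?_) i
        · simpa using hu1
        · simpa using hv1 j)
      (by
        intro i j
        refine Fin.lastCases ?_ (fun i' => ?_) i
        · refine Fin.lastCases ?_ (fun j' => ?_) j
          · intro h; exact absurd rfl h
          · intro _
            simp only [Fin.snoc_last, Fin.snoc_castSucc]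
            rw [norm_inner_symm]
            exact hu2 j'
        · refine Fin.lastCases ?_ (fun j' => ?_) j
          · intro _
            simp only [Fin.snoc_last, Fin.snoc_castSucc]
            exact hu2 i'
          · intro h
            simp only [Fin.snoc_castSucc]
            exact hv2 i' j' (fun h' => h (by rw [h'])))
    refine ⟨w, hw1, hw2, fun i => ?_⟩
    have h1 := hw3 i.castSucc
    rw [Fin.snoc_castSucc] at h1
    exact h1

/-- A family at the angle of the maximal ETFs lies in a maximal ETF if `P` holds for it. -/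
theorem k2_completion_P (d N : ℕ) (hd : 1 ≤ d) (P : ℕ → ℕ → Prop)
    (hP : ∀ m ρ ρ', P (m + 1) ρ → ρ ≤ ρ' + 1 → P m ρ')
    (hK2 : ∀ m ρ, 0 < m → P m ρ → RankOneD (Fin d) d m ρ)
    (v : Fin N → EuclideanSpace ℂ (Fin d)) (hv1 : ∀ i, ‖v i‖ = 1)
    (hv2 : ∀ i j, i ≠ j → ‖inner ℂ (v i) (v j)‖ = 1 / Real.sqrt ((d : ℝ) + 1))
    (hPv : P (d ^ 2 - N) (defect d N v).rank) :
    ∃ (w : Fin (d ^ 2) → EuclideanSpace ℂ (Fin d)) (f : Fin N ↪ Fin (d ^ 2)),
      (∀ i, ‖w i‖ = 1) ∧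
      (∀ i j, i ≠ j → ‖inner ℂ (w i) (w j)‖ = 1 / Real.sqrt ((d : ℝ) + 1)) ∧
      (∀ i, w (f i) = v i) := by
  have h := defect_rank_le d N hd v hv1 hv2
  have hle : N ≤ d ^ 2 := by omega
  obtain ⟨w, hw1, hw2, hw3⟩ := extend_all_k2D d P hP hK2 (d ^ 2 - N) N (by omega) v hPv hv1 hv2
  exact ⟨w, ⟨Fin.castLE hle, Fin.castLE_injective hle⟩, hw1, hw2, fun i => hw3 i⟩

/-- The hypothesis of the rank one theorem: every block of `k ≥ 2` matrices allowed by Welch's
bound and by `s² ≤ k` has a defect `k - r` larger than `m - ρ`. -/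
def GoodD (d m ρ : ℕ) : Prop :=
  ∀ k r s : ℕ, 2 ≤ k → k ≤ m → k * (d + 1) ≤ r * (d + k) → 2 * r ≤ k + s → s ^ 2 ≤ k →
    m + r < ρ + k

theorem Good.goodD {d m : ℕ} (h : Good d m) (ρ : ℕ) : GoodD d m ρ :=
  fun k r s h2 hk h3 h4 h5 => absurd (h k r s h2 hk h3 h4) (by omega)

theorem goodD_of_lt (d m ρ : ℕ)
    (h : (m : ℝ) - ρ < (Real.sqrt ((d : ℝ) + 1) - 1) * (Real.sqrt ((d : ℝ) + 1) - 2) / 2) :
    GoodD d m ρ := by
  intro k r s h2 hk hr hs hcon
  set a : ℝ := Real.sqrt ((d : ℝ) + 1) with ha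
  have ha2 : a ^ 2 = d + 1 := Real.sq_sqrt (by positivity)
  have ha1 : 1 ≤ a := by
    rw [ha]
    exact Real.one_le_sqrt.mpr (by linarith [Nat.cast_nonneg (α := ℝ) d])
  set b : ℝ := Real.sqrt (k : ℝ) with hb
  have hb2 : b ^ 2 = k := Real.sq_sqrt (Nat.cast_nonneg k)
  have hb0 : 0 ≤ b := Real.sqrt_nonneg _
  have hkR : (2 : ℝ) ≤ k := by exact_mod_cast h2
  have hb1 : 1 < b := by nlinarith
  have hsR : (s : ℝ) ≤ b := by
    have h3 : (s : ℝ) ^ 2 ≤ b ^ 2 := by rw [hb2]; exact_mod_cast hcon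
    exact (pow_le_pow_iff_left₀ (Nat.cast_nonneg s) hb0 two_ne_zero).mp h3
  have hrR : (k : ℝ) * (d + 1) ≤ r * (d + k) := by exact_mod_cast hr
  have hsR2 : 2 * (r : ℝ) ≤ k + s := by exact_mod_cast hs
  have hd0 : (0 : ℝ) ≤ d := Nat.cast_nonneg d
  have h4 : 2 * ((k : ℝ) * (d + 1)) ≤ (k + s) * (d + k) := by
    calc 2 * ((k : ℝ) * (d + 1)) ≤ 2 * (r * (d + k)) := by linarith
      _ = (2 * r) * (d + k) := by ring
      _ ≤ (k + s) * (d + k) := mul_le_mul_of_nonneg_right hsR2 (by positivity)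
  have h5 : (k + s) * ((d : ℝ) + k) ≤ (k + b) * (d + k) :=
    mul_le_mul_of_nonneg_right (by linarith) (by positivity)
  have h6 : 2 * (b ^ 2 * a ^ 2) ≤ (b ^ 2 + b) * (a ^ 2 - 1 + b ^ 2) := by
    have e1 : (d : ℝ) + 1 = a ^ 2 := ha2.symm
    have e2 : (d : ℝ) = a ^ 2 - 1 := by linarith
    rw [← hb2] at h4 h5
    rw [e1] at h4
    rw [e2] at h4 h5
    linarith
  have hba : a ≤ b + 1 := by
    by_contra hcon2
    push Not at hcon2
    have h8 : (b + 1) ^ 2 < a ^ 2 := by nlinarith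
    have h9 : b * ((b - 1) * ((b + 1) ^ 2 - a ^ 2)) < 0 :=
      mul_neg_of_pos_of_neg (by linarith) (mul_neg_of_pos_of_neg (by linarith) (by linarith))
    have e3 : b * ((b - 1) * ((b + 1) ^ 2 - a ^ 2)) =
        (b ^ 2 + b) * (a ^ 2 - 1 + b ^ 2) - 2 * (b ^ 2 * a ^ 2) := by ring
    rw [e3] at h9
    linarith
  have h10 : (a - 1) * (a - 2) ≤ b * (b - 1) := by
    have : 0 ≤ (b - a + 1) * (b + a - 2) := mul_nonneg (by linarith) (by linarith)
    nlinarith
  have h11 : (m : ℝ) + r < ρ + k := by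
    have h12 : 2 * (r : ℝ) ≤ b ^ 2 + b := by rw [hb2]; linarith
    rw [← hb2]
    nlinarith
  exact_mod_cast h11

end Pool.Agent.Lib.MP_d0f9e0_co.K2
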