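import Pool.Agent.Lib.MP_d0f9e0_co.K2.EtfCore
import Pool.Agent.Lib.MP_d0f9e0_co.K2.EtfRank

/-!
# Completion of systems of lines: the gap and the defect
-/

set_option autoImplicit false

open Matrix Module
open scoped ComplexOrder

namespace Pool.Agent.Lib.MP_d0f9e0_co.K2

open Pool.Agent.Lib.MP_d0f9e0_co.Gap

theorem rankOneD_of (hk2 : K2Real) (d m ρ : ℕ) (hd : 1 ≤ d) (hm : 0 < m) (h : GoodD d m ρ) :
    RankOneD (Fin d) d m ρ := by
  intro K hH hS gram hρ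
  refine k2_rank_one' hk2 K hH hS hd hm gram ?_
  rw [hρ]
  exact h

/-- THE GAP: a family at the angle of the maximal ETFs with more than `d² - (√(d+1) - 1)²` members
lies in a maximal ETF. -/
theorem gap_completion (hk2 : K2Real) (d N : ℕ) (hd : 1 ≤ d)
    (hN : (d : ℝ) ^ 2 - (Real.sqrt ((d : ℝ) + 1) - 1) ^ 2 < N)
    (v : Fin N → EuclideanSpace ℂ (Fin d)) (hv1 : ∀ i, ‖v i‖ = 1)
    (hv2 : ∀ i j, i ≠ j → ‖inner ℂ (v i) (v j)‖ = 1 / Real.sqrt ((d : ℝ) + 1)) :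
    ∃ (w : Fin (d ^ 2) → EuclideanSpace ℂ (Fin d)) (f : Fin N ↪ Fin (d ^ 2)),
      (∀ i, ‖w i‖ = 1) ∧
      (∀ i j, i ≠ j → ‖inner ℂ (w i) (w j)‖ = 1 / Real.sqrt ((d : ℝ) + 1)) ∧
      (∀ i, w (f i) = v i) := by
  have hle : N ≤ d ^ 2 := by
    have := defect_rank_le d N hd v hv1 hv2
    omega
  refine k2_completion_P d N hd
    (fun m _ => (m : ℝ) < (Real.sqrt ((d : ℝ) + 1) - 1) ^ 2) ?_ ?_ v hv1 hv2 ?_
  · intro m ρ ρ' h _
    push_cast at h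
    linarith
  · intro m ρ hm h
    exact rankOneD_of hk2 d m ρ hd hm ((good_of_lt d m h).goodD ρ)
  · rw [Nat.cast_sub hle]
    push_cast
    linarith

/-- THE DEFECT THEOREM: a family at the angle of the maximal ETFs with a small defect lies in a
maximal ETF. -/
theorem defect_completion (hk2 : K2Real) (d N : ℕ) (hd : 1 ≤ d)
    (v : Fin N → EuclideanSpace ℂ (Fin d)) (hv1 : ∀ i, ‖v i‖ = 1)
    (hv2 : ∀ i j, i ≠ j → ‖inner ℂ (v i) (v j)‖ = 1 / Real.sqrt ((d : ℝ) + 1))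
    (hD : (d : ℝ) ^ 2 - N - (defect d N v).rank <
      (Real.sqrt ((d : ℝ) + 1) - 1) * (Real.sqrt ((d : ℝ) + 1) - 2) / 2) :
    ∃ (w : Fin (d ^ 2) → EuclideanSpace ℂ (Fin d)) (f : Fin N ↪ Fin (d ^ 2)),
      (∀ i, ‖w i‖ = 1) ∧
      (∀ i j, i ≠ j → ‖inner ℂ (w i) (w j)‖ = 1 / Real.sqrt ((d : ℝ) + 1)) ∧
      (∀ i, w (f i) = v i) := by
  have hle : N ≤ d ^ 2 := by
    have := defect_rank_le d N hd v hv1 hv2
    omega
  refine k2_completion_P d N hd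
    (fun m ρ => (m : ℝ) - ρ < (Real.sqrt ((d : ℝ) + 1) - 1) * (Real.sqrt ((d : ℝ) + 1) - 2) / 2)
    ?_ ?_ v hv1 hv2 ?_
  · intro m ρ ρ' h hρ
    have h1 : (ρ : ℝ) ≤ ρ' + 1 := by exact_mod_cast hρ
    push_cast at h
    linarith
  · intro m ρ hm h
    exact rankOneD_of hk2 d m ρ hd hm (goodD_of_lt d m ρ h)
  · rw [Nat.cast_sub hle]
    push_cast
    linarith

end Pool.Agent.Lib.MP_d0f9e0_co.K2
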