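import Mathlib
import Pool.Agent.Lib.MP_d0f9e0_co.K2.Defs

/-!
# The complex structure

From a diagonalisation at `e` of an indecomposable family: the evaluation at `e`, the fact that the
classes with `c ≠ 0` span the dual of the kernel, and the relation coming from `Ω (J x) (J y) = Ω x y`.
-/

set_option autoImplicit false

open Module
open scoped InnerProductSpace

namespace Pool.Agent.Lib.MP_d0f9e0_co.K2

section JPart

variable {V : Type*} [AddCommGroup V] [Module ℝ V]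
variable {W : Type*} [NormedAddCommGroup W] [InnerProductSpace ℝ W]

theorem Bi.self {Om : V →ₗ[ℝ] V →ₗ[ℝ] W} (h : Bi Om) (x : V) : Om x x = 0 := by
  have h1 := h.skew x x
  have h2 : (2 : ℝ) • Om x x = 0 := by
    rw [two_smul]
    nth_rewrite 1 [h1]
    simp
  rcases smul_eq_zero.1 h2 with h3 | h3
  · norm_num at h3
  · exact h3

theorem Bi.mem_ker {Om : V →ₗ[ℝ] V →ₗ[ℝ] W} (h : Bi Om) (e : V) :
    e ∈ LinearMap.ker (Om e) := by
  rw [LinearMap.mem_ker]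
  exact h.self e

theorem Irr.OJ1 [FiniteDimensional ℝ W] {Om : V →ₗ[ℝ] V →ₗ[ℝ] W} {J : V →ₗ[ℝ] V}
    (h : Irr Om J) (x y : V) : Om (J x) y = -Om x (J y) := by
  have h1 := h.OJ (J x) y
  rw [h.hJ, map_neg, LinearMap.neg_apply] at h1
  exact h1.symm

theorem Irr.OJ2 [FiniteDimensional ℝ W] {Om : V →ₗ[ℝ] V →ₗ[ℝ] W} {J : V →ₗ[ℝ] V}
    (h : Irr Om J) (x y : V) : Om x (J y) = Om y (J x) := by
  have h1 := h.OJ1 x y
  rw [h.skew (J x) y] at h1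
  exact (neg_injective h1).symm

/-- the coordinates of `Om v x`, `v` in the kernel -/
theorem Dg.inner_diag {Om : V →ₗ[ℝ] V →ₗ[ℝ] W} {e : V} {k : ℕ} {ξ : Fin k → W} {σ : Fin k → V}
    {χ : Fin k → (LinearMap.ker (Om e) →ₗ[ℝ] ℝ)} (D : Dg Om e k ξ σ χ)
    (v : LinearMap.ker (Om e)) (x : V) (i : Fin k) :
    ⟪ξ i, Om v.1 x⟫_ℝ = χ i v * ⟪ξ i, Om e x⟫_ℝ := by
  rw [D.diag v x, inner_sum]
  rw [Finset.sum_eq_single i]
  · rw [inner_smul_right, real_inner_self_eq_norm_sq, D.on.1 i]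
    ring
  · intro j _ hj
    rw [inner_smul_right, D.on.2 (Ne.symm hj), mul_zero]
  · intro hi
    exact absurd (Finset.mem_univ i) hi

theorem Dg.inner_sigma {Om : V →ₗ[ℝ] V →ₗ[ℝ] W} {e : V} {k : ℕ} {ξ : Fin k → W} {σ : Fin k → V}
    {χ : Fin k → (LinearMap.ker (Om e) →ₗ[ℝ] ℝ)} (D : Dg Om e k ξ σ χ) (i j : Fin k) :
    ⟪ξ i, Om e (σ j)⟫_ℝ = if i = j then 1 else 0 := by
  rw [D.hσ j]
  split_ifs with hij
  · rw [hij, real_inner_self_eq_norm_sq, D.on.1 j]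
    norm_num
  · exact D.on.2 hij

/-- the eigenfunctionals take the value `1` at `e` -/
theorem Dg.ev_one {Om : V →ₗ[ℝ] V →ₗ[ℝ] W} (h : Bi Om) {e : V} {k : ℕ} {ξ : Fin k → W}
    {σ : Fin k → V} {χ : Fin k → (LinearMap.ker (Om e) →ₗ[ℝ] ℝ)} (D : Dg Om e k ξ σ χ)
    (i : Fin k) : χ i ⟨e, h.mem_ker e⟩ = 1 := by
  have h1 := D.inner_diag ⟨e, h.mem_ker e⟩ (σ i) i
  have h2 := D.inner_sigma i i
  rw [if_pos rfl] at h2
  simp only [h2, mul_one] at h1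
  exact h1.symm

/-- `Om e (J v)` for `v` in the kernel -/
theorem Dg.J_ker [FiniteDimensional ℝ W] {Om : V →ₗ[ℝ] V →ₗ[ℝ] W} {J : V →ₗ[ℝ] V}
    (h : Irr Om J) {e : V} {k : ℕ} {ξ : Fin k → W}
    {σ : Fin k → V} {χ : Fin k → (LinearMap.ker (Om e) →ₗ[ℝ] ℝ)} (D : Dg Om e k ξ σ χ)
    (v : LinearMap.ker (Om e)) :
    Om e (J v.1) = ∑ j, (χ j v * ⟪ξ j, Om e (J e)⟫_ℝ) • ξ j := by
  rw [h.OJ2 e v.1]
  exact D.diag v (J e)

/-- The classes with `c ≠ 0` span. -/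
theorem Dg.spanc [FiniteDimensional ℝ V] [FiniteDimensional ℝ W] {Om : V →ₗ[ℝ] V →ₗ[ℝ] W}
    {J : V →ₗ[ℝ] V} (h : Irr Om J) {e : V} {k : ℕ} {ξ : Fin k → W}
    {σ : Fin k → V} {χ : Fin k → (LinearMap.ker (Om e) →ₗ[ℝ] ℝ)} (D : Dg Om e k ξ σ χ) :
    Submodule.span ℝ {X : Dual ℝ (LinearMap.ker (Om e)) |
      ∃ i, ⟪ξ i, Om e (J e)⟫_ℝ ≠ 0 ∧ χ i = X} = ⊤ := by
  set P : Submodule ℝ (Dual ℝ (LinearMap.ker (Om e))) :=
    Submodule.span ℝ {X : Dual ℝ (LinearMap.ker (Om e)) |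
      ∃ i, ⟪ξ i, Om e (J e)⟫_ℝ ≠ 0 ∧ χ i = X} with hP
  have key : P.dualCoannihilator = ⊥ := by
    rw [eq_bot_iff]
    intro v hv
    rw [Submodule.mem_dualCoannihilator] at hv
    have h0 : Om e (J v.1) = 0 := by
      rw [D.J_ker h v]
      refine Finset.sum_eq_zero fun j _ => ?_
      by_cases hc : ⟪ξ j, Om e (J e)⟫_ℝ = 0
      · rw [hc, mul_zero, zero_smul]
      · have := hv (χ j) (Submodule.subset_span ⟨j, hc, rfl⟩)
        rw [this, zero_mul, zero_smul]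
    have h1 : Om v.1 (J v.1) = 0 := D.uu v ⟨J v.1, LinearMap.mem_ker.2 h0⟩
    have h2 : ∀ y, Om v.1 y = 0 := by
      intro y
      have hb := h.bianchi v.1 (J v.1) y (J y)
      rw [h1, inner_zero_left, zero_add, h.OJ y v.1, h.OJ1 v.1 y, h.skew y v.1, inner_neg_right,
        inner_neg_right, real_inner_self_eq_norm_sq, real_inner_self_eq_norm_sq] at hb
      have h3 : ‖Om v.1 y‖ ^ 2 = 0 := by
        nlinarith [sq_nonneg ‖Om v.1 y‖, sq_nonneg ‖Om v.1 (J y)‖]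
      exact norm_eq_zero.1 (pow_eq_zero_iff (two_ne_zero)|>.1 h3)
    have h3 : v.1 = 0 := h.nd v.1 h2
    rw [Submodule.mem_bot]
    exact Subtype.ext h3
  have h4 : P.dualCoannihilator.dualAnnihilator = P :=
    Subspace.dualCoannihilator_dualAnnihilator_eq
  rw [← h4, key, Submodule.dualAnnihilator_bot]

/-- The classes span. -/
theorem Dg.span [FiniteDimensional ℝ V] [FiniteDimensional ℝ W] {Om : V →ₗ[ℝ] V →ₗ[ℝ] W}
    {J : V →ₗ[ℝ] V} (h : Irr Om J) {e : V} {k : ℕ} {ξ : Fin k → W}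
    {σ : Fin k → V} {χ : Fin k → (LinearMap.ker (Om e) →ₗ[ℝ] ℝ)} (D : Dg Om e k ξ σ χ) :
    Submodule.span ℝ (Set.range (χ : Fin k → Dual ℝ (LinearMap.ker (Om e)))) = ⊤ := by
  rw [eq_top_iff, ← D.spanc h]
  refine Submodule.span_mono ?_
  rintro X ⟨i, _, rfl⟩
  exact ⟨i, rfl⟩

/-- The relation of the complex structure. -/
theorem Dg.cplx [FiniteDimensional ℝ W] {Om : V →ₗ[ℝ] V →ₗ[ℝ] W} {J : V →ₗ[ℝ] V}
    (h : Irr Om J) {e : V} {k : ℕ} {ξ : Fin k → W}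
    {σ : Fin k → V} {χ : Fin k → (LinearMap.ker (Om e) →ₗ[ℝ] ℝ)} (D : Dg Om e k ξ σ χ)
    (p l : Fin k) (hpl : p ≠ l) :
    ∃ r : ℝ, ∑ j, (⟪ξ j, Om e (J e)⟫_ℝ * ⟪ξ p, Om (σ j) (σ l)⟫_ℝ) • χ j = r • χ p := by
  refine ⟨-⟪ξ p, Om e (J (σ l))⟫_ℝ, ?_⟩
  ext v
  have h1 : ⟪ξ p, Om (J v.1) (σ l)⟫_ℝ = -(χ p v * ⟪ξ p, Om e (J (σ l))⟫_ℝ) := by
    rw [h.OJ1 v.1 (σ l), inner_neg_right, D.inner_diag v (J (σ l)) p]
  set u : V := J v.1 - ∑ j, (χ j v * ⟪ξ j, Om e (J e)⟫_ℝ) • σ j with hu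
  have h2 : Om e u = 0 := by
    rw [hu, map_sub, D.J_ker h v, map_sum, sub_eq_zero]
    refine Finset.sum_congr rfl fun j _ => ?_
    rw [map_smul, D.hσ j]
  have h3 : ⟪ξ p, Om u (σ l)⟫_ℝ = 0 := by
    have := D.inner_diag ⟨u, LinearMap.mem_ker.2 h2⟩ (σ l) p
    rw [D.inner_sigma p l, if_neg hpl, mul_zero] at this
    exact this
  have h4 : J v.1 = u + ∑ j, (χ j v * ⟪ξ j, Om e (J e)⟫_ℝ) • σ j := by
    rw [hu]; abel
  rw [h4, map_add, LinearMap.add_apply, inner_add_right, h3, zero_add, map_sum,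
    LinearMap.sum_apply, inner_sum] at h1
  simp only [LinearMap.sum_apply, LinearMap.smul_apply, smul_eq_mul]
  rw [neg_mul, mul_comm ⟪ξ p, Om e (J (σ l))⟫_ℝ (χ p v), ← h1]
  refine Finset.sum_congr rfl fun j _ => ?_
  rw [map_smul, LinearMap.smul_apply, inner_smul_right]
  ring

end JPart

end Pool.Agent.Lib.MP_d0f9e0_co.K2
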