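import Mathlib
import Pool.Agent.Lib.MP_d0f9e0_co.K2.Defs
import Pool.Agent.Lib.MP_d0f9e0_co.K2.JPart

/-!
# Assembly of the root data
-/

set_option autoImplicit false

open Module
open scoped InnerProductSpace

namespace Pool.Agent.Lib.MP_d0f9e0_co.K2

section MkRoot

variable {V : Type*} [AddCommGroup V] [Module ℝ V]
variable {W : Type*} [NormedAddCommGroup W] [InnerProductSpace ℝ W]

/-- the coefficients at `e` -/
noncomputable def coef (Om : V →ₗ[ℝ] V →ₗ[ℝ] W) {k : ℕ} (ξ : Fin k → W) (σ : Fin k → V)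
    (i j l : Fin k) : ℝ := ⟪ξ i, Om (σ j) (σ l)⟫_ℝ

/-- Root data from a diagonalisation and the relations `one`, `two`, `gen1`, `gen2`, `conn`. -/
noncomputable def Dg.mkRoot [FiniteDimensional ℝ V] [FiniteDimensional ℝ W]
    {Om : V →ₗ[ℝ] V →ₗ[ℝ] W} {J : V →ₗ[ℝ] V} (h : Irr Om J) {e : V} {k : ℕ} {ξ : Fin k → W}
    {σ : Fin k → V} {χ : Fin k → (LinearMap.ker (Om e) →ₗ[ℝ] ℝ)} (D : Dg Om e k ξ σ χ)
    (one : ∀ i j l, coef Om ξ σ i j l • χ i + coef Om ξ σ j l i • χ j +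
      coef Om ξ σ l i j • χ l = 0)
    (two : ∀ p q s t, χ p ≠ χ q → χ p ≠ χ s → χ p ≠ χ t → χ q ≠ χ s → χ q ≠ χ t → χ s ≠ χ t →
      ∑ i, (coef Om ξ σ i p q * coef Om ξ σ i s t - coef Om ξ σ i p s * coef Om ξ σ i q t +
        coef Om ξ σ i p t * coef Om ξ σ i q s) = 0)
    (gen1 : ∀ i j l, χ i = χ j → i ≠ j → χ l ≠ χ i → coef Om ξ σ i j l = 0)
    (gen2 : ∀ (i l : Fin k), χ l ≠ χ i → ∀ (t : Fin k → ℝ) (F : Finset (Fin k)),
      (∀ g, g ∈ F ↔ (χ g ≠ χ i ∧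
        (χ g : Dual ℝ (LinearMap.ker (Om e))) ∈ Submodule.span ℝ {χ i, χ l})) →
      (∀ g ∈ F, χ g = χ i + t g • (χ l - χ i)) →
      ∃ s : ℝ, ∀ j j', χ j = χ i → χ j' = χ i →
        ∑ g ∈ F, ((t g)⁻¹ - (t l)⁻¹) * (coef Om ξ σ g l j * coef Om ξ σ g l j') =
          if j = j' then s else 0)
    (conn : ∀ A : Set (Fin k), (∀ i j, χ i = χ j → (i ∈ A ↔ j ∈ A)) →
      (∀ i j l, χ i ≠ χ j → χ i ≠ χ l → χ j ≠ χ l → coef Om ξ σ i j l ≠ 0 → (i ∈ A ↔ j ∈ A)) →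
      A = ∅ ∨ A = Set.univ) :
    Root (Dual ℝ (LinearMap.ker (Om e))) k where
  χ := χ
  a := coef Om ξ σ
  c i := ⟪ξ i, Om e (J e)⟫_ℝ
  ev := Dual.eval ℝ (LinearMap.ker (Om e)) ⟨e, h.mem_ker e⟩
  hev i := D.ev_one h.toBi i
  skew i j l := by
    simp only [coef]
    rw [h.skew (σ j) (σ l), inner_neg_right]
  one := one
  two := two
  gen1 := gen1
  gen2 := gen2
  span := D.span h
  spanc := D.spanc h
  cplx p l hpl := D.cplx h p l hpl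
  conn := conn

/-- the same with `k` replaced by the rank -/
theorem Dg.root_rank [FiniteDimensional ℝ V] [FiniteDimensional ℝ W]
    {Om : V →ₗ[ℝ] V →ₗ[ℝ] W} {e : V} {k : ℕ} {ξ : Fin k → W}
    {σ : Fin k → V} {χ : Fin k → (LinearMap.ker (Om e) →ₗ[ℝ] ℝ)} (D : Dg Om e k ξ σ χ)
    (R : Root (Dual ℝ (LinearMap.ker (Om e))) k) :
    Nonempty (Root (Dual ℝ (LinearMap.ker (Om e))) (finrank ℝ (LinearMap.range (Om e)))) := by
  have := D.hk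
  subst this
  exact ⟨R⟩

end MkRoot

end Pool.Agent.Lib.MP_d0f9e0_co.K2
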