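import Mathlib

/-!
# Regularity lemmas

If the rank of `A + t B` does not exceed the rank of `A` for small `t` then limits of vectors of the
ranges of `A + t B` lie in the range of `A`.  Applied to commutators this gives first and second
order perturbation theory of eigenvalues without perturbation theory.
-/

set_option autoImplicit false

open Module Filter Topology
open scoped InnerProductSpace

namespace Pool.Agent.Lib.MP_d0f9e0_co.K2

section Limit

variable {V : Type*} [AddCommGroup V] [Module ℝ V]
variable {F : Type*} [NormedAddCommGroup F] [NormedSpace ℝ F] [FiniteDimensional ℝ F]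

/-- The limit lemma. -/
theorem limit_mem (A B : V →ₗ[ℝ] F)
    (h : ∀ᶠ t in 𝓝 (0 : ℝ), finrank ℝ (LinearMap.range (A + t • B)) ≤
      finrank ℝ (LinearMap.range A))
    (w : ℝ → F) (z : F) (hw : Tendsto w (𝓝[≠] (0 : ℝ)) (𝓝 z))
    (hm : ∀ᶠ t in 𝓝[≠] (0 : ℝ), w t ∈ LinearMap.range (A + t • B)) :
    z ∈ LinearMap.range A := by
  classical
  by_contra hcon
  set b := Module.finBasis ℝ (LinearMap.range A) with hb
  have hex : ∀ i, ∃ x : V, A x = (b i : F) := fun i => (b i).2
  choose x hx using hex
  let v : ℝ → Option (Fin (finrank ℝ (LinearMap.range A))) → F :=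
    fun t o => o.elim (w t) (fun i => A (x i) + t • B (x i))
  let v0 : Option (Fin (finrank ℝ (LinearMap.range A))) → F :=
    fun o => o.elim z (fun i => A (x i))
  have hli : LinearIndependent ℝ v0 := by
    have h1 : LinearIndependent ℝ (fun i => (b i : F)) := by
      have := b.linearIndependent.map' (LinearMap.range A).subtype (Submodule.ker_subtype _)
      exact this
    rw [linearIndependent_option]
    refine ⟨?_, ?_⟩
    · have h2 : (v0 ∘ (fun i => some i) : Fin _ → F) = fun i => (b i : F) := by
        funext i
        simp [v0, hx]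
      rw [h2]; exact h1
    · intro h3
      apply hcon
      change z ∈ _ at h3
      refine (Submodule.span_le (p := LinearMap.range A)).mpr ?_ h3
      rintro _ ⟨i, rfl⟩
      simp only [v0, Function.comp, Option.elim_some]
      exact ⟨x i, rfl⟩
  have hopen : IsOpen {f : Option (Fin (finrank ℝ (LinearMap.range A))) → F |
      LinearIndependent ℝ f} := isOpen_setOfPred_linearIndependent
  have hcont : Tendsto v (𝓝[≠] (0 : ℝ)) (𝓝 v0) := by
    refine tendsto_pi_nhds.mpr fun o => ?_
    cases o with
    | none => exact hw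
    | some i =>
      have h1 : Tendsto (fun t : ℝ => A (x i) + t • B (x i)) (𝓝 0) (𝓝 (A (x i) + (0 : ℝ) • B (x i))) :=
        tendsto_const_nhds.add (tendsto_id.smul tendsto_const_nhds)
      rw [zero_smul, add_zero] at h1
      exact h1.mono_left nhdsWithin_le_nhds
  have hpre : ∀ᶠ t in 𝓝[≠] (0 : ℝ), LinearIndependent ℝ (v t) :=
    hcont.eventually (hopen.mem_nhds hli)
  have hh := h.filter_mono (nhdsWithin_le_nhds (s := {0}ᶜ))
  obtain ⟨t, ht, htm, htr⟩ := (hpre.and (hm.and hh)).exists
  have hmem : ∀ o, v t o ∈ LinearMap.range (A + t • B) := by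
    intro o
    cases o with
    | none => exact htm
    | some i =>
      refine ⟨x i, ?_⟩
      simp [v]
  let u : Option (Fin (finrank ℝ (LinearMap.range A))) → LinearMap.range (A + t • B) :=
    fun o => ⟨v t o, hmem o⟩
  have hu : LinearIndependent ℝ u := by
    apply LinearIndependent.of_comp (LinearMap.range (A + t • B)).subtype
    exact ht
  have h4 := hu.fintype_card_le_finrank
  rw [Fintype.card_option, Fintype.card_fin] at h4
  omega

end Limit

section Reg

variable {V : Type*} [AddCommGroup V] [Module ℝ V]
variable {F : Type*} [AddCommGroup F] [Module ℝ F] [FiniteDimensional ℝ F]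

theorem const_mem (A B : V →ₗ[ℝ] F)
    (h : ∀ᶠ t in 𝓝 (0 : ℝ), finrank ℝ (LinearMap.range (A + t • B)) ≤
      finrank ℝ (LinearMap.range A)) (z : F)
    (hm : ∀ t : ℝ, t ≠ 0 → z ∈ LinearMap.range (A + t • B)) : z ∈ LinearMap.range A := by
  let φ : F ≃ₗ[ℝ] EuclideanSpace ℝ (Fin (finrank ℝ F)) :=
    LinearEquiv.ofFinrankEq _ _ (by rw [finrank_euclideanSpace, Fintype.card_fin])
  have hr : ∀ L : V →ₗ[ℝ] F, finrank ℝ (LinearMap.range (φ.toLinearMap ∘ₗ L)) =
      finrank ℝ (LinearMap.range L) := by
    intro L
    rw [LinearMap.range_comp]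
    exact LinearEquiv.finrank_map_eq φ _
  have hadd : ∀ t : ℝ, φ.toLinearMap ∘ₗ A + t • (φ.toLinearMap ∘ₗ B) =
      φ.toLinearMap ∘ₗ (A + t • B) := by
    intro t
    ext x
    simp
  have h1 := limit_mem (φ.toLinearMap ∘ₗ A) (φ.toLinearMap ∘ₗ B)
    (h.mono fun t ht => by rw [hadd, hr, hr]; exact ht) (fun _ => φ z) (φ z) tendsto_const_nhds
    (eventually_nhdsWithin_of_forall fun t ht => by
      obtain ⟨x, hx⟩ := hm t ht
      rw [hadd]
      exact ⟨x, by rw [LinearMap.comp_apply, hx]; rfl⟩)
  obtain ⟨x, hx⟩ := h1
  exact ⟨x, φ.injective hx⟩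

/-- First regularity lemma. -/
theorem reg1 (A B : V →ₗ[ℝ] F)
    (h : ∀ᶠ t in 𝓝 (0 : ℝ), finrank ℝ (LinearMap.range (A + t • B)) ≤
      finrank ℝ (LinearMap.range A)) (x : V) (hx : A x = 0) : B x ∈ LinearMap.range A := by
  refine const_mem A B h _ fun t ht => ⟨t⁻¹ • x, ?_⟩
  rw [map_smul, LinearMap.add_apply, LinearMap.smul_apply, hx, zero_add, smul_smul,
    inv_mul_cancel₀ ht, one_smul]

/-- Second regularity lemma. -/
theorem reg2 (A B : V →ₗ[ℝ] F)
    (h : ∀ᶠ t in 𝓝 (0 : ℝ), finrank ℝ (LinearMap.range (A + t • B)) ≤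
      finrank ℝ (LinearMap.range A)) (x y : V) (hx : A x = 0) (hxy : A y + B x = 0) :
    B y ∈ LinearMap.range A := by
  refine const_mem A B h _ fun t ht => ⟨(t * t)⁻¹ • (x + t • y), ?_⟩
  have h1 : (A + t • B) (x + t • y) = (t * t) • B y := by
    have h2 : (A + t • B) (x + t • y) = A x + t • (A y + B x) + (t * t) • B y := by
      simp only [LinearMap.add_apply, LinearMap.smul_apply, map_add, map_smul, smul_add, smul_smul]
      abel
    rw [h2, hx, hxy, smul_zero, add_zero, zero_add]
  rw [map_smul, h1, smul_smul, inv_mul_cancel₀ (mul_ne_zero ht ht), one_smul]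

end Reg

section Ad

variable {k : Type*} [Fintype k] [DecidableEq k]

/-- the commutator with `M` -/
def ad (M : Matrix k k ℝ) : Matrix k k ℝ →ₗ[ℝ] Matrix k k ℝ where
  toFun S := M * S - S * M
  map_add' S T := by
    rw [mul_add, add_mul]
    abel
  map_smul' c S := by
    rw [RingHom.id_apply, Matrix.mul_smul, Matrix.smul_mul, smul_sub]

theorem ad_apply (M S : Matrix k k ℝ) : ad M S = M * S - S * M := rfl

theorem ad_add_smul (M N : Matrix k k ℝ) (t : ℝ) : ad (M + t • N) = ad M + t • ad N := by
  refine LinearMap.ext fun S => ?_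
  rw [LinearMap.add_apply, LinearMap.smul_apply, ad_apply, ad_apply, ad_apply, add_mul, mul_add,
    Matrix.smul_mul, Matrix.mul_smul, smul_sub]
  abel

theorem ad_diag_apply (s : k → ℝ) (S : Matrix k k ℝ) (i j : k) :
    ad (Matrix.diagonal s) S i j = (s i - s j) * S i j := by
  rw [ad_apply, Matrix.sub_apply, Matrix.diagonal_mul, Matrix.mul_diagonal]
  ring

/-- First and second order perturbation theory, from the dimension of the commutant. -/
theorem ad_gen (s : k → ℝ) (B : Matrix k k ℝ)
    (h : ∀ᶠ t in 𝓝 (0 : ℝ), finrank ℝ (LinearMap.ker (ad (Matrix.diagonal s))) ≤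
      finrank ℝ (LinearMap.ker (ad (Matrix.diagonal s + t • B)))) :
    (∀ i j, s i = s j → i ≠ j → B i j = 0) ∧ (∀ i j, s i = s j → B i i = B j j) ∧
    ∀ x : ℝ, ∃ σ : ℝ, ∀ i j, s i = x → s j = x →
      ∑ g with s g ≠ x, B i g * B g j / (x - s g) = if i = j then σ else 0 := by
  set A := ad (Matrix.diagonal s) with hA
  have hr : ∀ᶠ t in 𝓝 (0 : ℝ), finrank ℝ (LinearMap.range (A + t • ad B)) ≤
      finrank ℝ (LinearMap.range A) := by
    filter_upwards [h] with t ht
    have h1 := LinearMap.finrank_range_add_finrank_ker A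
    have h2 := LinearMap.finrank_range_add_finrank_ker (A + t • ad B)
    rw [hA, ← ad_add_smul] at h2
    rw [hA, ← ad_add_smul]
    rw [hA] at h1 ht
    omega
  have hz : ∀ S ∈ LinearMap.range A, ∀ i j, s i = s j → S i j = 0 := by
    rintro _ ⟨S, rfl⟩ i j hij
    rw [hA, ad_diag_apply, hij, sub_self, zero_mul]
  -- the matrix units
  let E : k → k → Matrix k k ℝ := fun a b => Matrix.single a b 1
  have hEa : ∀ a b i j, E a b i j = if a = i ∧ b = j then 1 else 0 := fun a b i j =>
    Matrix.single_apply a b 1 i j
  have hE0 : ∀ a b, s a = s b → A (E a b) = 0 := by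
    intro a b hab
    ext i j
    rw [hA, ad_diag_apply]
    by_cases hi : a = i ∧ b = j
    · rw [← hi.1, ← hi.2, hab, sub_self, zero_mul, Matrix.zero_apply]
    · rw [hEa, if_neg hi, mul_zero, Matrix.zero_apply]
  have hBE : ∀ a b i j, ad B (E a b) i j =
      (if b = j then B i a else 0) - (if a = i then B b j else 0) := by
    intro a b i j
    rw [ad_apply, Matrix.sub_apply, Matrix.mul_apply, Matrix.mul_apply]
    congr 1
    · rw [Finset.sum_eq_single a]
      · by_cases hb : b = j
        · rw [if_pos hb, hEa, if_pos ⟨rfl, hb⟩, mul_one]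
        · rw [if_neg hb, hEa, if_neg (fun h => hb h.2), mul_zero]
      · intro g _ hg
        rw [hEa, if_neg (fun h => hg h.1.symm), mul_zero]
      · intro h; exact absurd (Finset.mem_univ a) h
    · rw [Finset.sum_eq_single b]
      · by_cases ha : a = i
        · rw [if_pos ha, hEa, if_pos ⟨ha, rfl⟩, one_mul]
        · rw [if_neg ha, hEa, if_neg (fun h => ha h.1), zero_mul]
      · intro g _ hg
        rw [hEa, if_neg (fun h => hg h.2.symm), zero_mul]
      · intro h; exact absurd (Finset.mem_univ b) h
  have h1 : ∀ a b i j, s a = s b → s i = s j → ad B (E a b) i j = 0 := fun a b i j hab hij =>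
    hz _ (reg1 A (ad B) hr (E a b) (hE0 a b hab)) i j hij
  refine ⟨?_, ?_, ?_⟩
  · intro i j hij hne
    have h2 := h1 j j i j rfl hij
    rw [hBE, if_pos rfl, if_neg hne.symm, sub_zero] at h2
    exact h2
  · intro i j hij
    have h2 := h1 i j i j hij hij
    rw [hBE, if_pos rfl, if_pos rfl, sub_eq_zero] at h2
    exact h2
  · intro x
    let Q : k → k → ℝ := fun i j => ∑ g with s g ≠ x, B i g * B g j / (x - s g)
    have hQ : ∀ a b i j, s a = x → s b = x → s i = x → s j = x →
        (if b = j then Q i a else 0) - (if a = i then Q b j else 0) = 0 := by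
      intro a b i j ha hb hi hj
      let S' : Matrix k k ℝ := Matrix.of fun p q =>
        if s p = s q then 0 else -(ad B (E a b) p q) / (s p - s q)
      have hS' : A S' + ad B (E a b) = 0 := by
        ext p q
        rw [Matrix.add_apply, hA, ad_diag_apply, Matrix.zero_apply]
        by_cases hpq : s p = s q
        · rw [hpq, sub_self, zero_mul, zero_add]
          exact h1 a b p q (ha.trans hb.symm) hpq
        · simp only [S', Matrix.of_apply, if_neg hpq]
          have h5 : s p - s q ≠ 0 := sub_ne_zero.mpr hpq
          field_simp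
          ring
      have h2 := hz _ (reg2 A (ad B) hr (E a b) S' (hE0 a b (ha.trans hb.symm)) hS') i j
        (hi.trans hj.symm)
      rw [ad_apply, Matrix.sub_apply, Matrix.mul_apply, Matrix.mul_apply] at h2
      have e1 : ∑ g, B i g * S' g j = if b = j then Q i a else 0 := by
        have h3 : ∀ g, B i g * S' g j =
            if s g ≠ x then (if b = j then B i g * B g a / (x - s g) else 0) else 0 := by
          intro g
          by_cases hg : s g = x
          · simp only [S', Matrix.of_apply, hj, hg, if_true, ne_eq, not_true_eq_false, if_false,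
              mul_zero]
          · rw [if_pos hg]
            simp only [S', Matrix.of_apply, hj, if_neg hg, hBE]
            have hga : a ≠ g := fun h => hg (h ▸ ha)
            rw [if_neg hga]
            have h5 : s g - x ≠ 0 := sub_ne_zero.mpr hg
            have h6 : x - s g ≠ 0 := sub_ne_zero.mpr (Ne.symm hg)
            by_cases hb' : b = j
            · rw [if_pos hb', if_pos hb']
              field_simp
              ring
            · rw [if_neg hb', if_neg hb']
              simp
        rw [Finset.sum_congr rfl fun g _ => h3 g, ← Finset.sum_filter]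
        by_cases hb' : b = j
        · simp only [if_pos hb', Q]
        · simp only [if_neg hb', Finset.sum_const_zero]
      have e2 : ∑ g, S' i g * B g j = if a = i then Q b j else 0 := by
        have h3 : ∀ g, S' i g * B g j =
            if s g ≠ x then (if a = i then B b g * B g j / (x - s g) else 0) else 0 := by
          intro g
          by_cases hg : s g = x
          · simp only [S', Matrix.of_apply, hi, hg, if_true, ne_eq, not_true_eq_false, if_false,
              zero_mul]
          · rw [if_pos hg]
            simp only [S', Matrix.of_apply, hi, if_neg (Ne.symm hg), hBE]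
            have hgb : b ≠ g := fun h => hg (h ▸ hb)
            rw [if_neg hgb]
            have h6 : x - s g ≠ 0 := sub_ne_zero.mpr (Ne.symm hg)
            by_cases ha' : a = i
            · rw [if_pos ha', if_pos ha']
              field_simp
              ring
            · rw [if_neg ha', if_neg ha']
              simp
        rw [Finset.sum_congr rfl fun g _ => h3 g, ← Finset.sum_filter]
        by_cases ha' : a = i
        · simp only [if_pos ha', Q]
        · simp only [if_neg ha', Finset.sum_const_zero]
      rw [e1, e2] at h2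
      exact h2
    by_cases hne : ∃ a, s a = x
    · obtain ⟨a, ha⟩ := hne
      refine ⟨Q a a, fun i j hi hj => ?_⟩
      change Q i j = _
      by_cases hij : i = j
      · subst hij
        rw [if_pos rfl]
        have h2 := hQ a i a i ha hi ha hi
        rw [if_pos rfl, if_pos rfl, sub_eq_zero] at h2
        exact h2.symm
      · rw [if_neg hij]
        have h2 := hQ j j i j hj hj hi hj
        rw [if_pos rfl, if_neg (Ne.symm hij), sub_zero] at h2
        exact h2
    · exact ⟨0, fun i j hi _ => absurd ⟨i, hi⟩ hne⟩

end Ad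

end Pool.Agent.Lib.MP_d0f9e0_co.K2
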