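import Mathlib
import Pool.Agent.Lib.MP_d0f9e0_co.Gap.Linear
import Pool.Agent.Lib.MP_d0f9e0_co.K2.Defs
import Pool.Agent.Lib.MP_d0f9e0_co.K2.Reg
import Pool.Agent.Lib.MP_d0f9e0_co.K2.MkRoot

/-!
# Vectors of maximal rank

Existence of vectors of maximal rank and of the diagonalisation at such a vector; values of the form
at two vectors of different classes lie in the range; the first two relations of the root data.
-/

set_option autoImplicit false

open Module Filter Topology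
open scoped InnerProductSpace

namespace Pool.Agent.Lib.MP_d0f9e0_co.K2

section Flat

variable {V : Type*} [AddCommGroup V] [Module ℝ V]
variable {W : Type*} [NormedAddCommGroup W] [InnerProductSpace ℝ W]

theorem exists_maxRank [FiniteDimensional ℝ W] (Om : V →ₗ[ℝ] V →ₗ[ℝ] W) : ∃ e, MaxRank Om e :=
  Gap.Lin.exists_max Om

theorem MaxRank.le {Om : V →ₗ[ℝ] V →ₗ[ℝ] W} {e : V} (he : MaxRank Om e) (x : V) (t : ℝ) :
    finrank ℝ (LinearMap.range (Om e + t • Om x)) ≤ finrank ℝ (LinearMap.range (Om e)) := by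
  have h1 := he (e + t • x)
  rwa [map_add, map_smul] at h1

/-- a vector of the same rank has maximal rank -/
theorem MaxRank.of_le {Om : V →ₗ[ℝ] V →ₗ[ℝ] W} {e e' : V} (he : MaxRank Om e)
    (h : finrank ℝ (LinearMap.range (Om e)) ≤ finrank ℝ (LinearMap.range (Om e'))) :
    MaxRank Om e' := fun x => (he x).trans h

/-- the vectors near a vector of maximal rank have maximal rank -/
theorem MaxRank.eventually_maxRank [FiniteDimensional ℝ W] {Om : V →ₗ[ℝ] V →ₗ[ℝ] W} {e : V}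
    (he : MaxRank Om e) (x : V) : ∀ᶠ t in 𝓝 (0 : ℝ), MaxRank Om (e + t • x) := by
  classical
  set b := Module.finBasis ℝ (LinearMap.range (Om e)) with hb
  have hex : ∀ i, ∃ y : V, Om e y = (b i : W) := fun i => (b i).2
  choose y hy using hex
  let v : ℝ → Fin (finrank ℝ (LinearMap.range (Om e))) → W := fun t i => Om (e + t • x) (y i)
  have hli : LinearIndependent ℝ (v 0) := by
    have h1 : LinearIndependent ℝ (fun i => (b i : W)) := by
      have := b.linearIndependent.map' (LinearMap.range (Om e)).subtype (Submodule.ker_subtype _)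
      exact this
    have h2 : v 0 = fun i => (b i : W) := by
      funext i
      simp [v, hy]
    rw [h2]; exact h1
  have hopen : IsOpen {f : Fin (finrank ℝ (LinearMap.range (Om e))) → W |
      LinearIndependent ℝ f} := isOpen_setOfPred_linearIndependent
  have hcont : Continuous v := by
    refine continuous_pi fun i => ?_
    have h1 : (fun t : ℝ => v t i) = fun t => Om e (y i) + t • Om x (y i) := by
      funext t
      simp [v]
    rw [h1]
    exact continuous_const.add (continuous_id.smul continuous_const)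
  have hpre : IsOpen {t : ℝ | LinearIndependent ℝ (v t)} := hopen.preimage hcont
  filter_upwards [hpre.mem_nhds hli] with t ht
  refine he.of_le ?_
  let w : Fin (finrank ℝ (LinearMap.range (Om e))) → LinearMap.range (Om (e + t • x)) :=
    fun i => ⟨v t i, ⟨y i, rfl⟩⟩
  have hw : LinearIndependent ℝ w := by
    apply LinearIndependent.of_comp (LinearMap.range (Om (e + t • x))).subtype
    exact ht
  have h4 := hw.fintype_card_le_finrank
  rwa [Fintype.card_fin] at h4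

theorem Bi.lin {Om : V →ₗ[ℝ] V →ₗ[ℝ] W} (h : Bi Om) {v w : V} (hvw : Om v w = 0) (x y : V) :
    ⟪Om v x, Om w y⟫_ℝ = ⟪Om v y, Om w x⟫_ℝ := by
  have h1 := h.bianchi v x w y
  rw [hvw, inner_zero_left, add_zero, h.skew x w, inner_neg_right] at h1
  linarith

/-- the values at a vector of the kernel lie in the range -/
theorem MaxRank.mem_range [FiniteDimensional ℝ W] {Om : V →ₗ[ℝ] V →ₗ[ℝ] W} {e : V}
    (he : MaxRank Om e) {v : V} (hv : Om e v = 0) (x : V) :
    Om x v ∈ LinearMap.range (Om e) :=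
  reg1 (Om e) (Om x) (Eventually.of_forall fun t => he.le x t) v hv

theorem MaxRank.mem_range' [FiniteDimensional ℝ W] {Om : V →ₗ[ℝ] V →ₗ[ℝ] W} (h : Bi Om) {e : V}
    (he : MaxRank Om e) {v : V} (hv : Om e v = 0) (x : V) :
    Om v x ∈ LinearMap.range (Om e) := by
  rw [h.skew v x]
  exact Submodule.neg_mem _ (he.mem_range hv x)

/-- the kernel of a vector of maximal rank is isotropic -/
theorem MaxRank.isotropic [FiniteDimensional ℝ W] {Om : V →ₗ[ℝ] V →ₗ[ℝ] W} (h : Bi Om) {e : V}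
    (he : MaxRank Om e) {v w : V} (hv : Om e v = 0) (hw : Om e w = 0) : Om v w = 0 := by
  obtain ⟨y, hy⟩ := he.mem_range hw v
  have h1 := h.bianchi v w e y
  rw [h.skew v e, hv, neg_zero, inner_zero_left, h.skew w e, hw, neg_zero, inner_zero_right,
    add_zero, add_zero, hy, inner_self_eq_zero] at h1
  exact h1

/-- Existence of the diagonalisation at a vector of maximal rank. -/
theorem exists_dg [FiniteDimensional ℝ W] {Om : V →ₗ[ℝ] V →ₗ[ℝ] W} (h : Bi Om) {e : V}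
    (he : MaxRank Om e) :
    ∃ (ξ : Fin (finrank ℝ (LinearMap.range (Om e))) → W)
      (σ : Fin (finrank ℝ (LinearMap.range (Om e))) → V)
      (χ : Fin (finrank ℝ (LinearMap.range (Om e))) → (LinearMap.ker (Om e) →ₗ[ℝ] ℝ)),
      Dg Om e (finrank ℝ (LinearMap.range (Om e))) ξ σ χ := by
  classical
  set E := LinearMap.range (Om e) with hE
  obtain ⟨g, hg⟩ := (Om e).rangeRestrict.exists_rightInverse_of_surjective
    (LinearMap.range_rangeRestrict (Om e))
  have hgE : ∀ z : E, Om e (g z) = (z : W) := by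
    intro z
    have h1 := congrArg (fun f : E →ₗ[ℝ] E => ((f z : E) : W)) hg
    simpa using h1
  have hker : ∀ v : LinearMap.ker (Om e), Om e v.1 = 0 := fun v => LinearMap.mem_ker.mp v.2
  let T : LinearMap.ker (Om e) → E →ₗ[ℝ] E := fun v =>
    ((Om v.1).comp g).codRestrict E (fun z => he.mem_range' h (hker v) (g z))
  have hTapp : ∀ v z, ((T v z : E) : W) = Om v.1 (g z) := fun v z => rfl
  have hTR : ∀ (v : LinearMap.ker (Om e)) (x : V),
      ((T v ⟨Om e x, ⟨x, rfl⟩⟩ : E) : W) = Om v.1 x := by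
    intro v x
    rw [hTapp]
    have h1 : Om e (g ⟨Om e x, ⟨x, rfl⟩⟩ - x) = 0 := by
      rw [map_sub, hgE, sub_self]
    have h2 := he.isotropic h (hker v) h1
    rw [map_sub, sub_eq_zero] at h2
    exact h2
  have hTsym : ∀ v, (T v).IsSymmetric := by
    rintro v ⟨_, x, rfl⟩ ⟨_, y, rfl⟩
    rw [Submodule.coe_inner, Submodule.coe_inner, hTR, hTR]
    change ⟪Om v.1 x, Om e y⟫_ℝ = ⟪Om e x, Om v.1 y⟫_ℝ
    have h0 : Om v.1 e = 0 := by rw [h.skew, hker v, neg_zero]
    rw [h.lin h0 x y, real_inner_comm]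
  have hTcomm : ∀ v w, T v * T w = T w * T v := by
    intro v w
    have h1 : ∀ z z' : E, ⟪(T v * T w) z, z'⟫_ℝ = ⟪(T w * T v) z, z'⟫_ℝ := by
      rintro ⟨_, x, rfl⟩ ⟨_, y, rfl⟩
      have e1 : ⟪(T v * T w) ⟨Om e x, ⟨x, rfl⟩⟩, ⟨Om e y, ⟨y, rfl⟩⟩⟫_ℝ =
          ⟪Om w.1 x, Om v.1 y⟫_ℝ := by
        have h2 := hTsym v (T w ⟨Om e x, ⟨x, rfl⟩⟩) ⟨Om e y, ⟨y, rfl⟩⟩
        rw [Module.End.mul_apply]
        refine h2.trans ?_
        rw [Submodule.coe_inner, hTR, hTR]
      have e2 : ⟪(T w * T v) ⟨Om e x, ⟨x, rfl⟩⟩, ⟨Om e y, ⟨y, rfl⟩⟩⟫_ℝ =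
          ⟪Om v.1 x, Om w.1 y⟫_ℝ := by
        have h2 := hTsym w (T v ⟨Om e x, ⟨x, rfl⟩⟩) ⟨Om e y, ⟨y, rfl⟩⟩
        rw [Module.End.mul_apply]
        refine h2.trans ?_
        rw [Submodule.coe_inner, hTR, hTR]
      refine (e1.trans ?_).trans e2.symm
      rw [h.lin (he.isotropic h (hker w) (hker v)) x y, real_inner_comm]
    refine LinearMap.ext fun z => ?_
    exact ext_inner_right ℝ (h1 z)
  obtain ⟨b, χ, hb⟩ := Gap.Lin.joint_basis T hTsym hTcomm
  have hrep : ∀ x, Om e x = ∑ j, ⟪(b j : W), Om e x⟫_ℝ • (b j : W) := by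
    intro x
    have h1 := congrArg (fun z : E => (z : W)) (b.sum_repr' ⟨Om e x, ⟨x, rfl⟩⟩)
    simp only [Submodule.coe_sum, Submodule.coe_smul, Submodule.coe_inner] at h1
    exact h1.symm
  have hchi : ∀ v j, χ v j = ⟪(b j : W), Om v.1 (g (b j))⟫_ℝ := by
    intro v j
    have h3 : ⟪b j, T v (b j)⟫_ℝ = χ v j := by
      rw [hb, inner_smul_right, real_inner_self_eq_norm_sq, b.norm_eq_one]
      ring
    rw [← h3, Submodule.coe_inner]
    rfl
  refine ⟨fun j => (b j : W), fun j => g (b j),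
    fun j => ((innerₛₗ ℝ (b j : W)).comp (Om.flip (g (b j)))).comp
      (LinearMap.ker (Om e)).subtype, ?_⟩
  refine ⟨rfl, ?_, fun j => hgE _, hrep, ?_, fun v w => he.isotropic h (hker v) (hker w)⟩
  · rw [orthonormal_iff_ite]
    intro i j
    rw [← Submodule.coe_inner]
    exact orthonormal_iff_ite.mp b.orthonormal i j
  · intro v x
    have h1 : (T v ⟨Om e x, ⟨x, rfl⟩⟩ : E) = ∑ j, (χ v j * ⟪(b j : W), Om e x⟫_ℝ) • b j := by
      conv_lhs => rw [← b.sum_repr' ⟨Om e x, ⟨x, rfl⟩⟩]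
      rw [map_sum]
      refine Finset.sum_congr rfl fun j _ => ?_
      rw [map_smul, hb, smul_smul, mul_comm]
      rfl
    have h2 := congrArg (fun z : E => (z : W)) h1
    simp only [Submodule.coe_sum, Submodule.coe_smul] at h2
    rw [hTR] at h2
    rw [h2]
    refine Finset.sum_congr rfl fun j _ => ?_
    rw [hchi]
    rfl

/-- The value at two vectors of different classes lies in the range. -/
theorem Dg.mem_range [FiniteDimensional ℝ W] {Om : V →ₗ[ℝ] V →ₗ[ℝ] W} (h : Bi Om) {e : V}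
    (he : MaxRank Om e) {k : ℕ} {ξ : Fin k → W} {σ : Fin k → V}
    {χ : Fin k → (LinearMap.ker (Om e) →ₗ[ℝ] ℝ)} (D : Dg Om e k ξ σ χ) {i j : Fin k}
    (hij : χ i ≠ χ j) : Om (σ i) (σ j) ∈ LinearMap.range (Om e) := by
  have hex : ∃ v, χ i v ≠ χ j v := by
    by_contra hc
    push Not at hc
    exact hij (LinearMap.ext hc)
  obtain ⟨v, hv⟩ := hex
  have hv0 : Om e v.1 = 0 := LinearMap.mem_ker.mp v.2
  have hd : ∀ l, Om v.1 (σ l) = χ l v • ξ l := by
    intro l
    rw [D.diag v (σ l), Finset.sum_eq_single l]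
    · rw [D.inner_sigma, if_pos rfl, mul_one]
    · intro j _ hj
      rw [D.inner_sigma, if_neg hj, mul_zero, zero_smul]
    · intro hl
      exact absurd (Finset.mem_univ l) hl
  have h1 : Om e (χ i v • σ i + χ j v • σ j) + Om (σ i + σ j) v.1 = 0 := by
    rw [h.skew (σ i + σ j) v.1, map_add, map_add, map_smul, map_smul, D.hσ, D.hσ, hd, hd,
      add_neg_cancel]
  have h2 := reg2 (Om e) (Om (σ i + σ j)) (Eventually.of_forall fun t => he.le _ t) v.1
    (χ i v • σ i + χ j v • σ j) hv0 h1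
  have h3 : Om (σ i + σ j) (χ i v • σ i + χ j v • σ j) =
      (χ j v - χ i v) • Om (σ i) (σ j) := by
    rw [map_add, map_smul, map_smul, map_add, LinearMap.add_apply, LinearMap.add_apply,
      h.self (σ i), h.self (σ j), h.skew (σ j) (σ i)]
    module
  rw [h3] at h2
  have h4 := Submodule.smul_mem _ (χ j v - χ i v)⁻¹ h2
  rwa [smul_smul, inv_mul_cancel₀ (sub_ne_zero.mpr (Ne.symm hv)), one_smul] at h4

/-- elements of the range are the sums of their components -/
theorem Dg.rep_mem {Om : V →ₗ[ℝ] V →ₗ[ℝ] W} {e : V} {k : ℕ} {ξ : Fin k → W} {σ : Fin k → V}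
    {χ : Fin k → (LinearMap.ker (Om e) →ₗ[ℝ] ℝ)} (D : Dg Om e k ξ σ χ) {z : W}
    (hz : z ∈ LinearMap.range (Om e)) : z = ∑ i, ⟪ξ i, z⟫_ℝ • ξ i := by
  obtain ⟨x, rfl⟩ := hz
  exact D.rep x

theorem Dg.value [FiniteDimensional ℝ W] {Om : V →ₗ[ℝ] V →ₗ[ℝ] W} (h : Bi Om) {e : V}
    (he : MaxRank Om e) {k : ℕ} {ξ : Fin k → W} {σ : Fin k → V}
    {χ : Fin k → (LinearMap.ker (Om e) →ₗ[ℝ] ℝ)} (D : Dg Om e k ξ σ χ) {p q : Fin k}
    (hpq : χ p ≠ χ q) : Om (σ p) (σ q) = ∑ i, coef Om ξ σ i p q • ξ i :=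
  D.rep_mem (D.mem_range h he hpq)

/-- vectors orthogonal to the range are orthogonal to the values at two different classes -/
theorem Dg.perp_zero [FiniteDimensional ℝ W] {Om : V →ₗ[ℝ] V →ₗ[ℝ] W} (h : Bi Om) {e : V}
    (he : MaxRank Om e) {k : ℕ} {ξ : Fin k → W} {σ : Fin k → V}
    {χ : Fin k → (LinearMap.ker (Om e) →ₗ[ℝ] ℝ)} (D : Dg Om e k ξ σ χ) {p q : Fin k}
    (hpq : χ p ≠ χ q) {w : W} (hw : ∀ x, ⟪w, Om e x⟫_ℝ = 0) :
    ⟪w, Om (σ p) (σ q)⟫_ℝ = 0 := by
  obtain ⟨x, hx⟩ := D.mem_range h he hpq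
  rw [← hx, hw]

theorem Dg.inner_value [FiniteDimensional ℝ W] {Om : V →ₗ[ℝ] V →ₗ[ℝ] W} (h : Bi Om) {e : V}
    (he : MaxRank Om e) {k : ℕ} {ξ : Fin k → W} {σ : Fin k → V}
    {χ : Fin k → (LinearMap.ker (Om e) →ₗ[ℝ] ℝ)} (D : Dg Om e k ξ σ χ) {p q : Fin k}
    (hpq : χ p ≠ χ q) (s t : Fin k) :
    ⟪Om (σ p) (σ q), Om (σ s) (σ t)⟫_ℝ = ∑ i, coef Om ξ σ i p q * coef Om ξ σ i s t := by
  rw [D.value h he hpq, sum_inner]
  refine Finset.sum_congr rfl fun i _ => ?_
  rw [real_inner_smul_left]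
  rfl

/-- the first relation: Bianchi with one argument in the kernel -/
theorem Dg.one {Om : V →ₗ[ℝ] V →ₗ[ℝ] W} (h : Bi Om) {e : V}
    {k : ℕ} {ξ : Fin k → W} {σ : Fin k → V}
    {χ : Fin k → (LinearMap.ker (Om e) →ₗ[ℝ] ℝ)} (D : Dg Om e k ξ σ χ) (i j l : Fin k) :
    coef Om ξ σ i j l • χ i + coef Om ξ σ j l i • χ j + coef Om ξ σ l i j • χ l = 0 := by
  have hd : ∀ (v : LinearMap.ker (Om e)) l, Om v.1 (σ l) = χ l v • ξ l := by
    intro v l
    rw [D.diag v (σ l), Finset.sum_eq_single l]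
    · rw [D.inner_sigma, if_pos rfl, mul_one]
    · intro j _ hj
      rw [D.inner_sigma, if_neg hj, mul_zero, zero_smul]
    · intro hl
      exact absurd (Finset.mem_univ l) hl
  ext v
  have h1 := h.bianchi v.1 (σ i) (σ j) (σ l)
  rw [hd, hd, hd, real_inner_smul_left, real_inner_smul_left, real_inner_smul_left] at h1
  simp only [LinearMap.add_apply, LinearMap.smul_apply, smul_eq_mul, LinearMap.zero_apply, coef]
  linarith

/-- the second relation: Bianchi with four arguments of different classes -/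
theorem Dg.two [FiniteDimensional ℝ W] {Om : V →ₗ[ℝ] V →ₗ[ℝ] W} (h : Bi Om) {e : V}
    (he : MaxRank Om e) {k : ℕ} {ξ : Fin k → W} {σ : Fin k → V}
    {χ : Fin k → (LinearMap.ker (Om e) →ₗ[ℝ] ℝ)} (D : Dg Om e k ξ σ χ) (p q s t : Fin k)
    (hpq : χ p ≠ χ q) (hps : χ p ≠ χ s) (hpt : χ p ≠ χ t) (hqs : χ q ≠ χ s) (hqt : χ q ≠ χ t)
    (hst : χ s ≠ χ t) :
    ∑ i, (coef Om ξ σ i p q * coef Om ξ σ i s t - coef Om ξ σ i p s * coef Om ξ σ i q t +
      coef Om ξ σ i p t * coef Om ξ σ i q s) = 0 := by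
  have _ := hqs
  have _ := hqt
  have _ := hst
  have h1 := h.bianchi (σ p) (σ q) (σ s) (σ t)
  rw [h.skew (σ t) (σ q), inner_neg_right, D.inner_value h he hpq s t,
    D.inner_value h he hps q t, D.inner_value h he hpt q s] at h1
  rw [Finset.sum_add_distrib, Finset.sum_sub_distrib]
  linarith

end Flat

end Pool.Agent.Lib.MP_d0f9e0_co.K2
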