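import Mathlib
import Pool.Agent.Lib.MP_d0f9e0_co.K2.MkRoot
import Pool.Agent.Lib.MP_d0f9e0_co.K2.Reg
import Pool.Agent.Lib.MP_d0f9e0_co.K2.CommS

/-!
# The generic choice of `e`
-/

set_option autoImplicit false

open Module Filter Topology
open scoped InnerProductSpace

namespace Pool.Agent.Lib.MP_d0f9e0_co.K2

section Gen1

variable {V : Type*} [AddCommGroup V] [Module ℝ V]
variable {W : Type*} [NormedAddCommGroup W] [InnerProductSpace ℝ W]

/-- `Om w (σ j) = χ j w • ξ j` -/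
theorem Dg.app {Om : V →ₗ[ℝ] V →ₗ[ℝ] W} {e : V} {k : ℕ} {ξ : Fin k → W}
    {σ : Fin k → V} {χ : Fin k → (LinearMap.ker (Om e) →ₗ[ℝ] ℝ)} (D : Dg Om e k ξ σ χ)
    (w : LinearMap.ker (Om e)) (j : Fin k) : Om w.1 (σ j) = χ j w • ξ j := by
  rw [D.diag w (σ j), Finset.sum_eq_single j]
  · rw [D.inner_sigma j j, if_pos rfl, mul_one]
  · intro i _ hi
    rw [D.inner_sigma i j, if_neg hi, mul_zero, zero_smul]
  · intro h
    exact absurd (Finset.mem_univ j) h

/-- for `y` in the kernel of `Om w` the form `⟪Om y x, Om w x'⟫` is symmetric -/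
theorem Bi.sym0 {Om : V →ₗ[ℝ] V →ₗ[ℝ] W} (h : Bi Om) {w y : V} (hy : Om w y = 0) (x x' : V) :
    ⟪Om y x, Om w x'⟫_ℝ = ⟪Om y x', Om w x⟫_ℝ := by
  have h1 := h.bianchi y x w x'
  have h2 : Om y w = 0 := by rw [h.skew, hy, neg_zero]
  rw [h2, inner_zero_left, add_zero, h.skew x w, inner_neg_right] at h1
  linarith

/-- Parseval in the range of `Om w` -/
theorem Dg.pars {Om : V →ₗ[ℝ] V →ₗ[ℝ] W} {e : V} {k : ℕ} {ξ : Fin k → W}
    {σ : Fin k → V} {χ : Fin k → (LinearMap.ker (Om e) →ₗ[ℝ] ℝ)} (D : Dg Om e k ξ σ χ)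
    (w : LinearMap.ker (Om e)) (p : Fin k → Prop) [DecidablePred p] (hp : ∀ g, p g ↔ χ g w ≠ 0)
    (z : V) (y : W) :
    ⟪y, Om w.1 z⟫_ℝ = ∑ g : {g : Fin k // p g}, ⟪ξ g, Om w.1 z⟫_ℝ * ⟪y, ξ g⟫_ℝ := by
  have h1 : ⟪y, Om w.1 z⟫_ℝ = ∑ g : Fin k, ⟪ξ g, Om w.1 z⟫_ℝ * ⟪y, ξ g⟫_ℝ := by
    conv_lhs => rw [D.diag w z, inner_sum]
    refine Finset.sum_congr rfl fun g _ => ?_
    rw [inner_smul_right, D.inner_diag]
  rw [h1, ← Finset.sum_filter_add_sum_filter_not Finset.univ p]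
  rw [Finset.sum_subtype (Finset.univ.filter p) (p := p) (by simp)
    (fun g => ⟪ξ g, Om w.1 z⟫_ℝ * ⟪y, ξ g⟫_ℝ)]
  rw [add_eq_left]
  refine Finset.sum_eq_zero fun g hg => ?_
  rw [Finset.mem_filter] at hg
  have h2 : χ g w = 0 := by
    by_contra h3
    exact hg.2 ((hp g).mpr h3)
  rw [D.inner_diag, h2, zero_mul, zero_mul]

/-- existence of a separating vector on the wall of `l` -/
theorem Dg.exists_sep {Om : V →ₗ[ℝ] V →ₗ[ℝ] W} (h : Bi Om) {e : V} {k : ℕ} {ξ : Fin k → W}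
    {σ : Fin k → V} {χ : Fin k → (LinearMap.ker (Om e) →ₗ[ℝ] ℝ)} (D : Dg Om e k ξ σ χ)
    (l : Fin k) : ∃ w : LinearMap.ker (Om e), χ l w = 0 ∧ (∀ g, χ g ≠ χ l → χ g w ≠ 0) ∧
      ∀ g g', χ g ≠ χ g' → χ g ≠ χ l → χ g' ≠ χ l → χ g w ≠ χ g' w := by
  classical
  let f : {g : Fin k // χ g ≠ χ l} ⊕ {p : Fin k × Fin k // χ p.1 ≠ χ p.2} →
      Dual ℝ (LinearMap.ker (Om e)) :=
    Sum.elim (fun g => χ g.1) (fun p => χ p.1.1 - χ p.1.2)
  set e0 : LinearMap.ker (Om e) := ⟨e, h.mem_ker e⟩ with he0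
  have hev : ∀ j, χ j e0 = 1 := fun j => D.ev_one h j
  -- a functional vanishing on the kernel of `χ l`
  have hker : ∀ φ : Dual ℝ (LinearMap.ker (Om e)), (∀ v, χ l v = 0 → φ v = 0) →
      ∀ v, φ v = χ l v * φ e0 := by
    intro φ hφ v
    have h1 := hφ (v - χ l v • e0) (by rw [map_sub, map_smul, hev, smul_eq_mul, mul_one, sub_self])
    rw [map_sub, map_smul, smul_eq_mul] at h1
    linarith
  obtain ⟨w, hw, hne⟩ := Module.Dual.exists_forall_mem_ne_zero_of_forall_exists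
    (LinearMap.ker (χ l)) f (by
      rintro (g | p)
      · by_contra hcon
        push Not at hcon
        have h1 := hker (χ g.1) (fun v hv => hcon v (LinearMap.mem_ker.mpr hv))
        apply g.2
        ext v
        rw [h1 v, hev, mul_one]
      · by_contra hcon
        push Not at hcon
        have h1 := hker (χ p.1.1 - χ p.1.2) (fun v hv => hcon v (LinearMap.mem_ker.mpr hv))
        apply p.2
        ext v
        have h2 := h1 v
        rw [LinearMap.sub_apply, LinearMap.sub_apply, hev, hev, sub_self, mul_zero] at h2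
        linarith)
  refine ⟨w, LinearMap.mem_ker.mp hw, fun g hg => hne (Sum.inl ⟨g, hg⟩), fun g g' hgg' _ _ => ?_⟩
  have h1 := hne (Sum.inr ⟨(g, g'), hgg'⟩)
  change (χ g - χ g') w ≠ 0 at h1
  rw [LinearMap.sub_apply] at h1
  exact sub_ne_zero.mp h1

/-- the maximal rank is attained on an open set -/
theorem MaxRank.eventually_dg [FiniteDimensional ℝ W] {Om : V →ₗ[ℝ] V →ₗ[ℝ] W} {e : V} {k : ℕ}
    {ξ : Fin k → W} {σ : Fin k → V} {χ : Fin k → (LinearMap.ker (Om e) →ₗ[ℝ] ℝ)}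
    (D : Dg Om e k ξ σ χ) (hm : MaxRank Om e) (y : V) :
    ∀ᶠ t in 𝓝 (0 : ℝ), MaxRank Om (e + t • y) := by
  classical
  let v : ℝ → Fin k → W := fun t j => Om e (σ j) + t • Om y (σ j)
  have hli : LinearIndependent ℝ (v 0) := by
    have h1 : v 0 = ξ := by
      funext j
      simp [v, D.hσ]
    rw [h1]
    exact D.on.linearIndependent
  have hopen : IsOpen {f : Fin k → W | LinearIndependent ℝ f} := isOpen_setOfPred_linearIndependent
  have hcont : Continuous v := by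
    refine continuous_pi fun j => ?_
    exact continuous_const.add (continuous_id.smul continuous_const)
  have hpre : IsOpen {t : ℝ | LinearIndependent ℝ (v t)} := hopen.preimage hcont
  filter_upwards [hpre.mem_nhds hli] with t ht
  change LinearIndependent ℝ (v t) at ht
  intro e'
  refine le_trans (hm e') ?_
  rw [← D.hk]
  have hmem : ∀ j, v t j ∈ LinearMap.range (Om (e + t • y)) := by
    intro j
    refine ⟨σ j, ?_⟩
    simp [v]
  let u : Fin k → LinearMap.range (Om (e + t • y)) := fun j => ⟨v t j, hmem j⟩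
  have hu : LinearIndependent ℝ u := by
    apply LinearIndependent.of_comp (LinearMap.range (Om (e + t • y))).subtype
    exact ht
  have h4 := hu.fintype_card_le_finrank
  rwa [Fintype.card_fin] at h4

end Gen1

end Pool.Agent.Lib.MP_d0f9e0_co.K2
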