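import Mathlib
import Pool.Agent.Lib.MP_d0f9e0_co.K2.Gen1

/-!
# The generic choice of `e`, second part
-/

set_option autoImplicit false

open Module Filter Topology
open scoped InnerProductSpace

namespace Pool.Agent.Lib.MP_d0f9e0_co.K2

section Count

variable {U : Type*} [AddCommGroup U] [Module ℝ U] {k : ℕ} (χ : Fin k → (U →ₗ[ℝ] ℝ)) (w : U)

/-- pairs of equal functionals: those vanishing at `w`, and the rest -/
theorem comm_le (p : Fin k → Prop) (hp : ∀ g, p g ↔ χ g w ≠ 0) :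
    comm χ ≤ Nat.card {j : Fin k // ¬ p j} * Nat.card {j : Fin k // ¬ p j} +
      Nat.card {q : {j : Fin k // p j} × {j : Fin k // p j} //
        (χ q.1.1 w)⁻¹ = (χ q.2.1 w)⁻¹} := by
  classical
  rw [← Nat.card_prod, ← Nat.card_sum]
  unfold comm
  have key : ∀ q : {q : Fin k × Fin k // χ q.1 = χ q.2}, p q.1.1 ↔ p q.1.2 := by
    intro q
    rw [hp, hp, q.2]
  let f : {q : Fin k × Fin k // χ q.1 = χ q.2} →
      ({j : Fin k // ¬ p j} × {j : Fin k // ¬ p j}) ⊕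
      {q : {j : Fin k // p j} × {j : Fin k // p j} // (χ q.1.1 w)⁻¹ = (χ q.2.1 w)⁻¹} :=
    fun q => if h : p q.1.1 then
      Sum.inr ⟨(⟨q.1.1, h⟩, ⟨q.1.2, (key q).mp h⟩), by simp only; rw [q.2]⟩
      else Sum.inl (⟨q.1.1, h⟩, ⟨q.1.2, fun h' => h ((key q).mpr h')⟩)
  apply Nat.card_le_card_of_injective f
  intro q q' hqq
  by_cases h : p q.1.1
  · by_cases h' : p q'.1.1
    · simp only [f, dif_pos h, dif_pos h', Sum.inr.injEq, Subtype.mk.injEq, Prod.mk.injEq] at hqq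
      exact Subtype.ext (Prod.ext hqq.1 hqq.2)
    · simp only [f, dif_pos h, dif_neg h', reduceCtorEq] at hqq
  · by_cases h' : p q'.1.1
    · simp only [f, dif_neg h, dif_pos h', reduceCtorEq] at hqq
    · simp only [f, dif_neg h, dif_neg h', Sum.inl.injEq, Subtype.mk.injEq, Prod.mk.injEq] at hqq
      exact Subtype.ext (Prod.ext hqq.1 hqq.2)

theorem le_comm (p : Fin k → Prop)
    (h0 : ∀ i j, ¬ p i → ¬ p j → χ i = χ j)
    (h1 : ∀ i j, p i → p j → χ i w = χ j w → χ i = χ j) :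
    Nat.card {j : Fin k // ¬ p j} * Nat.card {j : Fin k // ¬ p j} +
      Nat.card {q : {j : Fin k // p j} × {j : Fin k // p j} //
        (χ q.1.1 w)⁻¹ = (χ q.2.1 w)⁻¹} ≤ comm χ := by
  classical
  rw [← Nat.card_prod, ← Nat.card_sum]
  unfold comm
  let f : ({j : Fin k // ¬ p j} × {j : Fin k // ¬ p j}) ⊕
      {q : {j : Fin k // p j} × {j : Fin k // p j} // (χ q.1.1 w)⁻¹ = (χ q.2.1 w)⁻¹} →
      {q : Fin k × Fin k // χ q.1 = χ q.2} :=
    Sum.elim (fun q => ⟨(q.1.1, q.2.1), h0 _ _ q.1.2 q.2.2⟩)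
      (fun q => ⟨(q.1.1.1, q.1.2.1), h1 _ _ q.1.1.2 q.1.2.2 (inv_injective q.2)⟩)
  apply Nat.card_le_card_of_injective f
  rintro (q | q) (q' | q') hqq
  · simp only [f, Sum.elim_inl, Subtype.mk.injEq, Prod.mk.injEq] at hqq
    exact congrArg Sum.inl (Prod.ext (Subtype.ext hqq.1) (Subtype.ext hqq.2))
  · simp only [f, Sum.elim_inl, Sum.elim_inr, Subtype.mk.injEq, Prod.mk.injEq] at hqq
    exact absurd (hqq.1 ▸ q'.1.1.2) q.1.2
  · simp only [f, Sum.elim_inl, Sum.elim_inr, Subtype.mk.injEq, Prod.mk.injEq] at hqq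
    exact absurd (hqq.1 ▸ q.1.1.2) q'.1.2
  · simp only [f, Sum.elim_inr, Subtype.mk.injEq, Prod.mk.injEq] at hqq
    exact congrArg Sum.inr (Subtype.ext (Prod.ext (Subtype.ext hqq.1) (Subtype.ext hqq.2)))

omit χ w in
theorem card_not (p : Fin k → Prop) :
    Nat.card {j : Fin k // ¬ p j} + Nat.card {j : Fin k // p j} = k := by
  classical
  have h1 := Fintype.card_subtype_compl p
  have h2 := Fintype.card_subtype_le p
  rw [Fintype.card_fin] at h1 h2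
  rw [Nat.card_eq_fintype_card, Nat.card_eq_fintype_card, h1]
  omega

end Count

section Key

variable {V : Type*} [AddCommGroup V] [Module ℝ V]
variable {W : Type*} [NormedAddCommGroup W] [InnerProductSpace ℝ W]
variable {Om : V →ₗ[ℝ] V →ₗ[ℝ] W} {e e' : V} {k k' : ℕ} {ξ : Fin k → W} {σ : Fin k → V}
  {χ : Fin k → (LinearMap.ker (Om e) →ₗ[ℝ] ℝ)} {ξ' : Fin k' → W} {σ' : Fin k' → V}
  {χ' : Fin k' → (LinearMap.ker (Om e') →ₗ[ℝ] ℝ)}

theorem key_sum (D : Dg Om e k ξ σ χ) (w : LinearMap.ker (Om e)) (p : Fin k → Prop)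
    [DecidablePred p] (hp : ∀ g, p g ↔ χ g w ≠ 0) (x : W) (c : ℝ) (z : V)
    (hx : c • x = Om w.1 z) (hc : c ≠ 0) (y : W) :
    ⟪y, x⟫_ℝ = ∑ g : {g : Fin k // p g}, ⟪ξ g, x⟫_ℝ * ⟪y, ξ g⟫_ℝ := by
  have h1 := D.pars w p hp z y
  rw [← hx, inner_smul_right] at h1
  have h2 : ∀ g : {g : Fin k // p g}, ⟪ξ g, c • x⟫_ℝ * ⟪y, ξ g⟫_ℝ =
      c * (⟪ξ g, x⟫_ℝ * ⟪y, ξ g⟫_ℝ) := by
    intro g
    rw [inner_smul_right]
    ring
  rw [Finset.sum_congr rfl fun g _ => h2 g, ← Finset.mul_sum] at h1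
  exact mul_left_cancel₀ hc h1

theorem key_card (D : Dg Om e k ξ σ χ) (D' : Dg Om e' k' ξ' σ' χ')
    (w : LinearMap.ker (Om e)) (w' : LinearMap.ker (Om e')) (hww : w.1 = w'.1)
    (p : Fin k → Prop) [DecidablePred p] (hp : ∀ g, p g ↔ χ g w ≠ 0)
    (p' : Fin k' → Prop) [DecidablePred p'] (hp' : ∀ g, p' g ↔ χ' g w' ≠ 0) :
    Fintype.card {g : Fin k // p g} ≤ Fintype.card {g : Fin k' // p' g} := by
  classical
  let Q : Matrix {g : Fin k // p g} {g : Fin k' // p' g} ℝ := Matrix.of fun g j => ⟪ξ g, ξ' j⟫_ℝ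
  have hQ : Q * Q.transpose = 1 := by
    ext i j
    have h1 : χ j.1 w ≠ 0 := (hp j.1).mp j.2
    have h2 := key_sum D' w' p' hp' (ξ j.1) (χ j.1 w) (σ j.1) (by rw [← D.app, hww]) h1 (ξ i.1)
    rw [Matrix.mul_apply, Matrix.one_apply]
    simp only [Q, Matrix.of_apply, Matrix.transpose_apply]
    calc ∑ x : {g : Fin k' // p' g}, ⟪ξ i.1, ξ' x⟫_ℝ * ⟪ξ j.1, ξ' x⟫_ℝ
        = ∑ x : {g : Fin k' // p' g}, ⟪ξ' x, ξ j.1⟫_ℝ * ⟪ξ i.1, ξ' x⟫_ℝ := by
          refine Finset.sum_congr rfl fun x _ => ?_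
          rw [real_inner_comm (ξ j.1) (ξ' x)]
          ring
      _ = ⟪ξ i.1, ξ j.1⟫_ℝ := h2.symm
      _ = if i = j then 1 else 0 := by
          have h3 := orthonormal_iff_ite.mp D.on i.1 j.1
          rw [h3]
          by_cases hij : i = j
          · rw [if_pos hij, if_pos (congrArg Subtype.val hij)]
          · rw [if_neg hij, if_neg (fun h => hij (Subtype.ext h))]
  have h4 : (Q * Q.transpose).rank ≤ Q.rank := Matrix.rank_mul_le_left Q Q.transpose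
  rw [hQ, Matrix.rank_one] at h4
  exact h4.trans Q.rank_le_card_width

theorem key_comm (hB : Bi Om) (D : Dg Om e k ξ σ χ) (D' : Dg Om e' k' ξ' σ' χ')
    (w : LinearMap.ker (Om e)) (w' : LinearMap.ker (Om e')) (hww : w.1 = w'.1)
    (p : Fin k → Prop) [DecidablePred p] (hp : ∀ g, p g ↔ χ g w ≠ 0)
    (p' : Fin k' → Prop) [DecidablePred p'] (hp' : ∀ g, p' g ↔ χ' g w' ≠ 0)
    (N : Matrix {g : Fin k // p g} {g : Fin k // p g} ℝ)
    (hN : ∀ g g', N g g' * χ g'.1 w = ⟪ξ g.1, Om e' (σ g'.1)⟫_ℝ) :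
    N.IsSymm ∧
    finrank ℝ (commS (Matrix.diagonal fun j : {g : Fin k' // p' g} => (χ' j.1 w')⁻¹)) ≤
      finrank ℝ (commS N) := by
  classical
  have hwe : Om w.1 e' = 0 := by
    rw [hww, hB.skew, LinearMap.mem_ker.mp w'.2, neg_zero]
  have hχ : ∀ g : {g : Fin k // p g}, χ g.1 w ≠ 0 := fun g => (hp g.1).mp g.2
  have hχ' : ∀ g : {g : Fin k' // p' g}, χ' g.1 w' ≠ 0 := fun g => (hp' g.1).mp g.2
  have hsym : N.IsSymm := by
    ext g g'
    rw [Matrix.transpose_apply]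
    have h1 := hB.sym0 hwe (σ g'.1) (σ g.1)
    rw [D.app, D.app, inner_smul_right, inner_smul_right, real_inner_comm (ξ g.1),
      real_inner_comm (ξ g'.1), ← hN, ← hN] at h1
    have h2 : (χ g.1 w * χ g'.1 w) * (N g' g - N g g') = 0 := by linarith
    rcases mul_eq_zero.mp h2 with h3 | h3
    · exact absurd h3 (mul_ne_zero (hχ g) (hχ g'))
    · linarith
  refine ⟨hsym, ?_⟩
  let Q : Matrix {g : Fin k // p g} {g : Fin k' // p' g} ℝ := Matrix.of fun g j => ⟪ξ g, ξ' j⟫_ℝ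
  have hpars : ∀ (j : {g : Fin k' // p' g}) (y : W), ⟪y, ξ' j.1⟫_ℝ =
      ∑ g : {g : Fin k // p g}, ⟪ξ g.1, ξ' j.1⟫_ℝ * ⟪y, ξ g.1⟫_ℝ := fun j y =>
    key_sum D w p hp (ξ' j.1) (χ' j.1 w') (σ' j.1) (by rw [← D'.app, hww]) (hχ' j) y
  refine finrank_commS_le N _ Q ?_ hsym (Matrix.isSymm_diagonal _) ?_
  · ext i j
    rw [Matrix.mul_apply, Matrix.one_apply]
    simp only [Q, Matrix.of_apply, Matrix.transpose_apply]
    calc ∑ x : {g : Fin k // p g}, ⟪ξ x.1, ξ' i.1⟫_ℝ * ⟪ξ x.1, ξ' j.1⟫_ℝ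
        = ∑ x : {g : Fin k // p g}, ⟪ξ x.1, ξ' j.1⟫_ℝ * ⟪ξ' i.1, ξ x.1⟫_ℝ := by
          refine Finset.sum_congr rfl fun x _ => ?_
          rw [real_inner_comm (ξ x.1) (ξ' i.1)]
          ring
      _ = ⟪ξ' i.1, ξ' j.1⟫_ℝ := (hpars j _).symm
      _ = if i = j then 1 else 0 := by
          have h3 := orthonormal_iff_ite.mp D'.on i.1 j.1
          rw [h3]
          by_cases hij : i = j
          · rw [if_pos hij, if_pos (congrArg Subtype.val hij)]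
          · rw [if_neg hij, if_neg (fun h => hij (Subtype.ext h))]
  · ext g j
    rw [Matrix.mul_apply, Matrix.mul_diagonal]
    simp only [Q, Matrix.of_apply]
    -- both sides multiplied with `χ g w * χ' j w'`
    have h1 := hB.sym0 hwe (σ g.1) (σ' j.1)
    rw [hww, D'.app, ← hww, D.app, inner_smul_right, inner_smul_right, D'.hσ] at h1
    have h2 := hpars j (Om e' (σ g.1))
    have h3 : ∑ x : {g : Fin k // p g}, N g x * ⟪ξ x.1, ξ' j.1⟫_ℝ =
        (χ g.1 w)⁻¹ * ⟪Om e' (σ g.1), ξ' j.1⟫_ℝ := by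
      rw [h2, Finset.mul_sum]
      refine Finset.sum_congr rfl fun x _ => ?_
      have h4 : N g x = N x g := by
        have := congrFun (congrFun hsym x) g
        rw [Matrix.transpose_apply] at this
        exact this
      have h5 : N x g = (χ g.1 w)⁻¹ * ⟪Om e' (σ g.1), ξ x.1⟫_ℝ := by
        rw [real_inner_comm, ← hN x g]
        field_simp [hχ g]
      rw [h4, h5]
      ring
    rw [h3]
    have h6 : ⟪Om e' (σ g.1), ξ' j.1⟫_ℝ = (χ' j.1 w')⁻¹ * (χ g.1 w * ⟪ξ' j.1, ξ g.1⟫_ℝ) := by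
      rw [← h1]
      field_simp [hχ' j]
    rw [h6, real_inner_comm (ξ g.1)]
    field_simp [hχ g, hχ' j]

end Key

end Pool.Agent.Lib.MP_d0f9e0_co.K2
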