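import Mathlib
import Pool.Agent.Lib.MP_d0f9e0_co.K2.Gen1b

/-!
# The generic choice of `e`: the output used for the genericity relations
-/

set_option autoImplicit false

open Module Filter Topology
open scoped InnerProductSpace

namespace Pool.Agent.Lib.MP_d0f9e0_co.K2

section Gen1c

variable {V : Type*} [AddCommGroup V] [Module ℝ V]
variable {W : Type*} [NormedAddCommGroup W] [InnerProductSpace ℝ W]

theorem ker_ad_eq {k : Type*} [Fintype k] [DecidableEq k] (A : Matrix k k ℝ) :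
    LinearMap.ker (ad A) = commS A := by
  ext S
  rw [LinearMap.mem_ker, ad_apply, sub_eq_zero, mem_commS]

/-- a diagonalisation with the smallest commutant -/
theorem exists_min {Om : V →ₗ[ℝ] V →ₗ[ℝ] W} (hmax : ∃ e, MaxRank Om e)
    (hdg : ∀ e', MaxRank Om e' → ∃ (k' : ℕ) (ξ' : Fin k' → W) (σ' : Fin k' → V)
      (χ' : Fin k' → (LinearMap.ker (Om e') →ₗ[ℝ] ℝ)), Dg Om e' k' ξ' σ' χ') :
    ∃ (e : V) (k : ℕ) (ξ : Fin k → W) (σ : Fin k → V)
      (χ : Fin k → (LinearMap.ker (Om e) →ₗ[ℝ] ℝ)), MaxRank Om e ∧ Dg Om e k ξ σ χ ∧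
      ∀ (e' : V) (k' : ℕ) (ξ' : Fin k' → W) (σ' : Fin k' → V)
        (χ' : Fin k' → (LinearMap.ker (Om e') →ₗ[ℝ] ℝ)), MaxRank Om e' → Dg Om e' k' ξ' σ' χ' →
        comm χ ≤ comm χ' := by
  classical
  let P : ℕ → Prop := fun n => ∃ (e : V) (k : ℕ) (ξ : Fin k → W) (σ : Fin k → V)
    (χ : Fin k → (LinearMap.ker (Om e) →ₗ[ℝ] ℝ)), MaxRank Om e ∧ Dg Om e k ξ σ χ ∧ comm χ = n
  have hP : ∃ n, P n := by
    obtain ⟨e, he⟩ := hmax
    obtain ⟨k, ξ, σ, χ, D⟩ := hdg e he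
    exact ⟨comm χ, e, k, ξ, σ, χ, he, D, rfl⟩
  obtain ⟨e, k, ξ, σ, χ, he, D, hc⟩ := Nat.find_spec hP
  refine ⟨e, k, ξ, σ, χ, he, D, fun e' k' ξ' σ' χ' he' D' => ?_⟩
  rw [hc]
  exact Nat.find_min' hP ⟨e', k', ξ', σ', χ', he', D', rfl⟩

theorem gen_E1 [FiniteDimensional ℝ W] {Om : V →ₗ[ℝ] V →ₗ[ℝ] W} (hB : Bi Om) {e : V} {k : ℕ}
    {ξ : Fin k → W} {σ : Fin k → V} {χ : Fin k → (LinearMap.ker (Om e) →ₗ[ℝ] ℝ)}
    (hm : MaxRank Om e) (D : Dg Om e k ξ σ χ)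
    (hdg : ∀ e', MaxRank Om e' → ∃ (k' : ℕ) (ξ' : Fin k' → W) (σ' : Fin k' → V)
      (χ' : Fin k' → (LinearMap.ker (Om e') →ₗ[ℝ] ℝ)), Dg Om e' k' ξ' σ' χ')
    (hmin : ∀ (e' : V) (k' : ℕ) (ξ' : Fin k' → W) (σ' : Fin k' → V)
      (χ' : Fin k' → (LinearMap.ker (Om e') →ₗ[ℝ] ℝ)), MaxRank Om e' → Dg Om e' k' ξ' σ' χ' →
      comm χ ≤ comm χ')
    (l : Fin k) [hF : Fintype {g : Fin k // χ g ≠ χ l}]
    [hD : DecidableEq {g : Fin k // χ g ≠ χ l}] :
    ∃ w : LinearMap.ker (Om e), χ l w = 0 ∧ (∀ g, χ g ≠ χ l → χ g w ≠ 0) ∧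
      (∀ g g', χ g ≠ χ g' → χ g ≠ χ l → χ g' ≠ χ l → χ g w ≠ χ g' w) ∧
      (∀ g g', χ g ≠ χ l → χ g' ≠ χ l →
        coef Om ξ σ g l g' * χ g w = coef Om ξ σ g' l g * χ g' w) ∧
      ∀ᶠ t in 𝓝 (0 : ℝ),
        finrank ℝ (LinearMap.ker (ad (Matrix.diagonal
          (fun g : {g : Fin k // χ g ≠ χ l} => (χ g.1 w)⁻¹)))) ≤
        finrank ℝ (LinearMap.ker (ad (Matrix.diagonal
          (fun g : {g : Fin k // χ g ≠ χ l} => (χ g.1 w)⁻¹) + t •
            (Matrix.of fun g g' : {g : Fin k // χ g ≠ χ l} =>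
              coef Om ξ σ g.1 l g'.1 / χ g'.1 w)))) := by
  classical
  have e1 : hF = Subtype.fintype (fun g => χ g ≠ χ l) := Subsingleton.elim _ _
  have e2 : hD = fun a b => Subtype.instDecidableEq a b := Subsingleton.elim _ _
  subst e1
  subst e2
  obtain ⟨w, hw0, hw1, hw2⟩ := D.exists_sep hB l
  have hp : ∀ g, χ g ≠ χ l ↔ χ g w ≠ 0 := by
    intro g
    refine ⟨hw1 g, fun h h' => h ?_⟩
    rw [h', hw0]
  have hwl : Om w.1 (σ l) = 0 := by rw [D.app, hw0, zero_smul]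
  refine ⟨w, hw0, hw1, hw2, ?_, ?_⟩
  · intro g g' _ _
    have h1 := hB.sym0 hwl (σ g') (σ g)
    rw [D.app, D.app, inner_smul_right, inner_smul_right, real_inner_comm (ξ g),
      real_inner_comm (ξ g')] at h1
    unfold coef
    linarith
  · filter_upwards [MaxRank.eventually_dg D hm (σ l)] with t ht
    obtain ⟨k', ξ', σ', χ', D'⟩ := hdg _ ht
    have hwe : Om (e + t • σ l) w.1 = 0 := by
      rw [hB.skew, map_add, map_smul, hwl, smul_zero, add_zero, hB.skew w.1 e,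
        LinearMap.mem_ker.mp w.2, neg_zero, neg_zero]
    let w' : LinearMap.ker (Om (e + t • σ l)) := ⟨w.1, LinearMap.mem_ker.mpr hwe⟩
    have hkk : k = k' := by
      rw [D.hk, D'.hk]
      exact le_antisymm (ht e) (hm _)
    have hN : ∀ g g' : {g : Fin k // χ g ≠ χ l},
        (Matrix.diagonal (fun g : {g : Fin k // χ g ≠ χ l} => (χ g.1 w)⁻¹) + t •
            (Matrix.of fun g g' : {g : Fin k // χ g ≠ χ l} =>
              coef Om ξ σ g.1 l g'.1 / χ g'.1 w)) g g' * χ g'.1 w =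
          ⟪ξ g.1, Om (e + t • σ l) (σ g'.1)⟫_ℝ := by
      intro g g'
      have h0 : χ g'.1 w ≠ 0 := (hp g'.1).mp g'.2
      rw [map_add, map_smul, LinearMap.add_apply, LinearMap.smul_apply, inner_add_right,
        inner_smul_right, D.inner_sigma, Matrix.add_apply, Matrix.smul_apply, Matrix.of_apply,
        Matrix.diagonal_apply, smul_eq_mul]
      unfold coef
      by_cases hg : g = g'
      · rw [if_pos hg, if_pos (congrArg Subtype.val hg), hg]
        field_simp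
      · rw [if_neg hg, if_neg (fun h => hg (Subtype.ext h))]
        field_simp
        ring
    have h1 := key_comm hB D D' w w' rfl (fun g => χ g ≠ χ l) hp (fun g => χ' g w' ≠ 0)
      (fun g => Iff.rfl) _ hN
    have h2 := key_card D D' w w' rfl (fun g => χ g ≠ χ l) hp (fun g => χ' g w' ≠ 0)
      (fun g => Iff.rfl)
    have h3 := comm_le χ' w' (fun g => χ' g w' ≠ 0) (fun g => Iff.rfl)
    have h4 := le_comm χ w (fun g => χ g ≠ χ l)
      (fun i j hi hj => by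
        rw [not_not.mp hi, not_not.mp hj])
      (fun i j hi hj hij => by
        by_contra hne
        exact hw2 i j hne hi hj hij)
    have h5 := hmin _ _ _ _ _ ht D'
    have h6 := card_not (fun g => χ g ≠ χ l)
    have h7 := card_not (fun g => χ' g w' ≠ 0)
    rw [ker_ad_eq, ker_ad_eq, finrank_commS_diagonal]
    have h10 := h1.2
    rw [finrank_commS_diagonal] at h10
    refine le_trans ?_ (le_of_le_of_eq h10 (by congr!))
    rw [← Nat.card_eq_fintype_card, ← Nat.card_eq_fintype_card] at h2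
    have h8 : Nat.card {j : Fin k' // ¬ χ' j w' ≠ 0} ≤ Nat.card {j : Fin k // ¬ χ j ≠ χ l} := by
      omega
    have h9 := Nat.mul_le_mul h8 h8
    omega

end Gen1c

end Pool.Agent.Lib.MP_d0f9e0_co.K2
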