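import Pool.Agent.Lib.MP_d0f9e0_co.K2.Gen1c
import Pool.Agent.Lib.MP_d0f9e0_co.K2.MkRoot

/-!
# The genericity relations

From the output of the generic choice of `e` (`gen_E1`) and first and second order perturbation theory
(`ad_gen`) the relations `gen1` and `gen2` of the root data.
-/

set_option autoImplicit false

open Module Filter Topology
open scoped InnerProductSpace

namespace Pool.Agent.Lib.MP_d0f9e0_co.K2

section Abs

variable {U : Type*} [AddCommGroup U] [Module ℝ U] {k : ℕ} {χ : Fin k → (U →ₗ[ℝ] ℝ)}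
  {a : Fin k → Fin k → Fin k → ℝ}

/-- first order -/
theorem gen1_abs (skew : ∀ i j l, a i j l = -a i l j) (l : Fin k)
    [Fintype {g : Fin k // χ g ≠ χ l}] [DecidableEq {g : Fin k // χ g ≠ χ l}]
    (h : ∃ w : U, χ l w = 0 ∧ (∀ g, χ g ≠ χ l → χ g w ≠ 0) ∧
      (∀ g g', χ g ≠ χ g' → χ g ≠ χ l → χ g' ≠ χ l → χ g w ≠ χ g' w) ∧
      (∀ g g', χ g ≠ χ l → χ g' ≠ χ l → a g l g' * χ g w = a g' l g * χ g' w) ∧
      ∀ᶠ t in 𝓝 (0 : ℝ),
        finrank ℝ (LinearMap.ker (ad (Matrix.diagonal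
          (fun g : {g : Fin k // χ g ≠ χ l} => (χ g.1 w)⁻¹)))) ≤
        finrank ℝ (LinearMap.ker (ad (Matrix.diagonal
          (fun g : {g : Fin k // χ g ≠ χ l} => (χ g.1 w)⁻¹) + t •
            (Matrix.of fun g g' : {g : Fin k // χ g ≠ χ l} => a g.1 l g'.1 / χ g'.1 w))))) :
    (∀ i j, χ i = χ j → i ≠ j → χ l ≠ χ i → a i j l = 0) ∧
      ∀ i j, χ i = χ j → χ l ≠ χ i → a i i l = a j j l := by
  obtain ⟨w, hw0, hw1, hw2, hsy, hev⟩ := h
  obtain ⟨h1, h2, -⟩ := ad_gen _ _ hev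
  constructor
  · intro i j hij hne hl
    have hi : χ i ≠ χ l := Ne.symm hl
    have hj : χ j ≠ χ l := hij ▸ hi
    have h3 := h1 ⟨i, hi⟩ ⟨j, hj⟩ (by simp only [hij]) (fun h => hne (congrArg Subtype.val h))
    simp only [Matrix.of_apply] at h3
    have h4 : a i l j = 0 := (div_eq_zero_iff.1 h3).resolve_right (hw1 j hj)
    rw [skew, h4, neg_zero]
  · intro i j hij hl
    have hi : χ i ≠ χ l := Ne.symm hl
    have hj : χ j ≠ χ l := hij ▸ hi
    have h3 := h2 ⟨i, hi⟩ ⟨j, hj⟩ (by simp only [hij])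
    simp only [Matrix.of_apply] at h3
    rw [hij] at h3
    have h4 : a i l i = a j l j := (div_left_inj' (hw1 j hj)).1 h3
    rw [skew i i l, skew j j l, h4]

/-- second order -/
theorem gen2_abs (one : ∀ i j l, a i j l • χ i + a j l i • χ j + a l i j • χ l = 0)
    (l : Fin k)
    [Fintype {g : Fin k // χ g ≠ χ l}] [DecidableEq {g : Fin k // χ g ≠ χ l}]
    (h : ∃ w : U, χ l w = 0 ∧ (∀ g, χ g ≠ χ l → χ g w ≠ 0) ∧
      (∀ g g', χ g ≠ χ g' → χ g ≠ χ l → χ g' ≠ χ l → χ g w ≠ χ g' w) ∧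
      (∀ g g', χ g ≠ χ l → χ g' ≠ χ l → a g l g' * χ g w = a g' l g * χ g' w) ∧
      ∀ᶠ t in 𝓝 (0 : ℝ),
        finrank ℝ (LinearMap.ker (ad (Matrix.diagonal
          (fun g : {g : Fin k // χ g ≠ χ l} => (χ g.1 w)⁻¹)))) ≤
        finrank ℝ (LinearMap.ker (ad (Matrix.diagonal
          (fun g : {g : Fin k // χ g ≠ χ l} => (χ g.1 w)⁻¹) + t •
            (Matrix.of fun g g' : {g : Fin k // χ g ≠ χ l} => a g.1 l g'.1 / χ g'.1 w)))))
    (i : Fin k) (hl : χ l ≠ χ i) (t : Fin k → ℝ) (F : Finset (Fin k))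
    (hF : ∀ g, g ∈ F ↔ (χ g ≠ χ i ∧ χ g ∈ Submodule.span ℝ {χ i, χ l}))
    (ht : ∀ g ∈ F, χ g = χ i + t g • (χ l - χ i)) :
    ∃ s : ℝ, ∀ j j', χ j = χ i → χ j' = χ i →
      ∑ g ∈ F, ((t g)⁻¹ - (t l)⁻¹) * (a g l j * a g l j') = if j = j' then s else 0 := by
  classical
  obtain ⟨w, hw0, hw1, hw2, hsy, hev⟩ := h
  obtain ⟨-, -, h3⟩ := ad_gen _ _ hev
  have hi : χ i ≠ χ l := Ne.symm hl
  obtain ⟨s, hs⟩ := h3 (χ i w)⁻¹
  have hX : χ i w ≠ 0 := hw1 i hi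
  have hsub : χ l - χ i ≠ 0 := sub_ne_zero.2 hl
  have ht1 : ∀ g ∈ F, χ g = χ l → t g = 1 := by
    intro g hg hgl
    have h4 := ht g hg
    rw [hgl] at h4
    have h5 : (1 - t g) • (χ l - χ i) = 0 := by
      linear_combination (norm := module) h4
    rcases smul_eq_zero.1 h5 with h6 | h6
    · linarith
    · exact absurd h6 hsub
  have hlF : l ∈ F := (hF l).2 ⟨hl, Submodule.subset_span (by simp)⟩
  have htl : t l = 1 := ht1 l hlF rfl
  have ht0 : ∀ g ∈ F, t g ≠ 0 := by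
    intro g hg h0
    have h4 := ht g hg
    rw [h0, zero_smul, add_zero] at h4
    exact ((hF g).1 hg).1 h4
  refine ⟨-(χ i w) * s, ?_⟩
  intro j j' hj hj'
  -- the terms outside the flat vanish
  have hout : ∀ g, g ∉ F → χ g ≠ χ i → a g l j' = 0 := by
    intro g hg hgi
    by_contra hne
    apply hg
    rw [hF]
    refine ⟨hgi, ?_⟩
    have h4 := one g l j'
    have h5 : χ g = (-(a g l j')⁻¹ * a l j' g) • χ l + (-(a g l j')⁻¹ * a j' g l) • χ i := by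
      rw [hj'] at h4
      have h6 := congrArg (fun x => (a g l j')⁻¹ • x) h4
      simp only [smul_add, smul_smul, inv_mul_cancel₀ hne, one_smul, smul_zero] at h6
      linear_combination (norm := module) h6
    rw [h5]
    exact Submodule.add_mem _
      (Submodule.smul_mem _ _ (Submodule.subset_span (by simp)))
      (Submodule.smul_mem _ _ (Submodule.subset_span (by simp)))
  have hjl : χ j ≠ χ l := hj ▸ hi
  have hjl' : χ j' ≠ χ l := hj' ▸ hi
  have h4 := hs ⟨j, hjl⟩ ⟨j', hjl'⟩ (by simp only [hj]) (by simp only [hj'])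
  simp only [Matrix.of_apply, Subtype.mk.injEq] at h4
  -- the value of a term
  let f : Fin k → ℝ := fun g => a j l g / χ g w * (a g l j' / χ j' w) / ((χ i w)⁻¹ - (χ g w)⁻¹)
  have h5 : ∑ g : {g : Fin k // χ g ≠ χ l} with (χ g.1 w)⁻¹ ≠ (χ i w)⁻¹, f g.1 =
      if j = j' then s else 0 := h4
  have h6 : ∑ g : {g : Fin k // χ g ≠ χ l} with (χ g.1 w)⁻¹ ≠ (χ i w)⁻¹, f g.1 =
      ∑ g ∈ Finset.univ.filter (fun g : Fin k => χ g ≠ χ l ∧ χ g ≠ χ i), f g := by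
    refine Finset.sum_bij (fun g _ => g.1) ?_ ?_ ?_ ?_
    · intro g hg
      have := (Finset.mem_filter.1 hg).2
      refine Finset.mem_filter.2 ⟨Finset.mem_univ _, g.2, fun h => this ?_⟩
      rw [h]
    · intro g _ g' _ hgg
      exact Subtype.ext hgg
    · intro g hg
      obtain ⟨-, hg1, hg2⟩ := Finset.mem_filter.1 hg
      refine ⟨⟨g, hg1⟩, Finset.mem_filter.2 ⟨Finset.mem_univ _, fun h => ?_⟩, rfl⟩
      exact hw2 g i hg2 hg1 hi (inv_injective h)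
    · intro g _
      rfl
  -- the value of a term of the flat
  have h7 : ∀ g ∈ F, χ g ≠ χ l →
      -(χ i w) * f g = ((t g)⁻¹ - 1) * (a g l j * a g l j') := by
    intro g hg hgl
    have hG : χ g w ≠ 0 := hw1 g hgl
    have hGt : χ g w = (1 - t g) * χ i w := by
      have h8 := congrArg (fun φ : U →ₗ[ℝ] ℝ => φ w) (ht g hg)
      simp only [LinearMap.add_apply, LinearMap.smul_apply, LinearMap.sub_apply, hw0,
        smul_eq_mul] at h8
      linarith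
    have h1t : 1 - t g ≠ 0 := fun h => hG (by rw [hGt, h, zero_mul])
    have htg := ht0 g hg
    have h9 : a j l g = a g l j * (1 - t g) := by
      have h10 := hsy j g hjl hgl
      rw [hj, hGt] at h10
      have h11 : (a j l g - a g l j * (1 - t g)) * χ i w = 0 := by linarith
      exact sub_eq_zero.1 ((mul_eq_zero.1 h11).resolve_right hX)
    have h12 : (χ i w)⁻¹ - ((1 - t g) * χ i w)⁻¹ = -(t g) / ((1 - t g) * χ i w) := by
      field_simp
      ring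
    simp only [f]
    rw [hGt, hj', h9, h12]
    field_simp
  have h8 : ∑ g ∈ Finset.univ.filter (fun g : Fin k => χ g ≠ χ l ∧ χ g ≠ χ i), -(χ i w) * f g =
      ∑ g ∈ F, ((t g)⁻¹ - (t l)⁻¹) * (a g l j * a g l j') := by
    rw [htl, inv_one]
    have h9 : ∑ g ∈ F.filter (fun g => χ g ≠ χ l), ((t g)⁻¹ - 1) * (a g l j * a g l j') =
        ∑ g ∈ F, ((t g)⁻¹ - 1) * (a g l j * a g l j') := by
      refine Finset.sum_filter_of_ne ?_
      intro g hg hne hgl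
      apply hne
      rw [ht1 g hg hgl]
      simp
    rw [← h9]
    symm
    have h10 : F.filter (fun g => χ g ≠ χ l) ⊆
        Finset.univ.filter (fun g : Fin k => χ g ≠ χ l ∧ χ g ≠ χ i) := by
      intro g hg
      obtain ⟨hg1, hg2⟩ := Finset.mem_filter.1 hg
      exact Finset.mem_filter.2 ⟨Finset.mem_univ _, hg2, ((hF g).1 hg1).1⟩
    have h11 : ∀ g ∈ Finset.univ.filter (fun g : Fin k => χ g ≠ χ l ∧ χ g ≠ χ i),
        g ∉ F.filter (fun g => χ g ≠ χ l) → -(χ i w) * f g = 0 := by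
      intro g hg hg'
      obtain ⟨-, hg1, hg2⟩ := Finset.mem_filter.1 hg
      have h12 : g ∉ F := fun h => hg' (Finset.mem_filter.2 ⟨h, hg1⟩)
      simp only [f]
      rw [hout g h12 hg2]
      simp
    rw [← Finset.sum_subset h10 h11]
    refine Finset.sum_congr rfl fun g hg => ?_
    obtain ⟨hg1, hg2⟩ := Finset.mem_filter.1 hg
    exact (h7 g hg1 hg2).symm
  rw [← h8, ← Finset.mul_sum, ← h6, h5]
  split_ifs
  · rfl
  · rw [mul_zero]

end Abs

section Conc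

variable {V : Type*} [AddCommGroup V] [Module ℝ V]
variable {W : Type*} [NormedAddCommGroup W] [InnerProductSpace ℝ W]

/-- the relations `gen1` of the root data (verbatim) and the equality of the diagonal entries -/
theorem Dg.gen1 [FiniteDimensional ℝ W] {Om : V →ₗ[ℝ] V →ₗ[ℝ] W} (hB : Bi Om) {e : V} {k : ℕ}
    {ξ : Fin k → W} {σ : Fin k → V} {χ : Fin k → (LinearMap.ker (Om e) →ₗ[ℝ] ℝ)}
    (hm : MaxRank Om e) (D : Dg Om e k ξ σ χ)
    (hdg : ∀ e', MaxRank Om e' → ∃ (k' : ℕ) (ξ' : Fin k' → W) (σ' : Fin k' → V)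
      (χ' : Fin k' → (LinearMap.ker (Om e') →ₗ[ℝ] ℝ)), Dg Om e' k' ξ' σ' χ')
    (hmin : ∀ (e' : V) (k' : ℕ) (ξ' : Fin k' → W) (σ' : Fin k' → V)
      (χ' : Fin k' → (LinearMap.ker (Om e') →ₗ[ℝ] ℝ)), MaxRank Om e' → Dg Om e' k' ξ' σ' χ' →
      comm χ ≤ comm χ') :
    (∀ i j l, χ i = χ j → i ≠ j → χ l ≠ χ i → coef Om ξ σ i j l = 0) ∧
      ∀ i j l, χ i = χ j → χ l ≠ χ i → coef Om ξ σ i i l = coef Om ξ σ j j l := by
  classical
  have skew : ∀ i j l, coef Om ξ σ i j l = -coef Om ξ σ i l j := by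
    intro i j l
    unfold coef
    rw [hB.skew (σ j) (σ l), inner_neg_right]
  exact ⟨fun i j l => (gen1_abs skew l (gen_E1 hB hm D hdg hmin l)).1 i j,
    fun i j l => (gen1_abs skew l (gen_E1 hB hm D hdg hmin l)).2 i j⟩

/-- the relations `gen2` of the root data (verbatim) -/
theorem Dg.gen2 [FiniteDimensional ℝ W] {Om : V →ₗ[ℝ] V →ₗ[ℝ] W} (hB : Bi Om) {e : V} {k : ℕ}
    {ξ : Fin k → W} {σ : Fin k → V} {χ : Fin k → (LinearMap.ker (Om e) →ₗ[ℝ] ℝ)}
    (hm : MaxRank Om e) (D : Dg Om e k ξ σ χ)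
    (hdg : ∀ e', MaxRank Om e' → ∃ (k' : ℕ) (ξ' : Fin k' → W) (σ' : Fin k' → V)
      (χ' : Fin k' → (LinearMap.ker (Om e') →ₗ[ℝ] ℝ)), Dg Om e' k' ξ' σ' χ')
    (hmin : ∀ (e' : V) (k' : ℕ) (ξ' : Fin k' → W) (σ' : Fin k' → V)
      (χ' : Fin k' → (LinearMap.ker (Om e') →ₗ[ℝ] ℝ)), MaxRank Om e' → Dg Om e' k' ξ' σ' χ' →
      comm χ ≤ comm χ')
    (one : ∀ i j l, coef Om ξ σ i j l • χ i + coef Om ξ σ j l i • χ j +
      coef Om ξ σ l i j • χ l = 0) :
    ∀ (i l : Fin k), χ l ≠ χ i → ∀ (t : Fin k → ℝ) (F : Finset (Fin k)),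
      (∀ g, g ∈ F ↔ (χ g ≠ χ i ∧
        (χ g : Dual ℝ (LinearMap.ker (Om e))) ∈ Submodule.span ℝ {χ i, χ l})) →
      (∀ g ∈ F, χ g = χ i + t g • (χ l - χ i)) →
      ∃ s : ℝ, ∀ j j', χ j = χ i → χ j' = χ i →
        ∑ g ∈ F, ((t g)⁻¹ - (t l)⁻¹) * (coef Om ξ σ g l j * coef Om ξ σ g l j') =
          if j = j' then s else 0 := by
  classical
  intro i l hl t F hF ht
  exact gen2_abs one l (gen_E1 hB hm D hdg hmin l) i hl t F hF ht

end Conc

end Pool.Agent.Lib.MP_d0f9e0_co.K2
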