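import Pool.Agent.Lib.MP_d0f9e0_co.K2.RootInc
import Pool.Agent.Lib.MP_d0f9e0_co.K2.MkRoot
import Pool.Agent.Lib.MP_d0f9e0_co.K2.Dec
import Pool.Agent.Lib.MP_d0f9e0_co.K2.Gen2
import Pool.Agent.Lib.MP_d0f9e0_co.K2.Flat
import Pool.Agent.Lib.MP_d0f9e0_co.K2.EtfCore

/-!
# Assembly: the dimension inequality for an indecomposable family
-/

set_option autoImplicit false

open Module
open scoped InnerProductSpace Topology

namespace Pool.Agent.Lib.MP_d0f9e0_co.K2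

variable {V : Type*} [AddCommGroup V] [Module ℝ V] [FiniteDimensional ℝ V]
variable {W : Type*} [NormedAddCommGroup W] [InnerProductSpace ℝ W] [FiniteDimensional ℝ W]

/-- existence of diagonalisations in the form used by the choice of `e` -/
theorem hdg_of {Om : V →ₗ[ℝ] V →ₗ[ℝ] W} (h : Bi Om) : ∀ e', MaxRank Om e' →
    ∃ (k' : ℕ) (ξ' : Fin k' → W) (σ' : Fin k' → V)
      (χ' : Fin k' → (LinearMap.ker (Om e') →ₗ[ℝ] ℝ)), Dg Om e' k' ξ' σ' χ' := by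
  intro e' he'
  obtain ⟨ξ, σ, χ, D⟩ := exists_dg h he'
  exact ⟨_, ξ, σ, χ, D⟩

/-- The root data of an indecomposable family. -/
theorem root_of_irr {Om : V →ₗ[ℝ] V →ₗ[ℝ] W} {J : V →ₗ[ℝ] V} (h : Irr Om J) :
    ∃ (e : V) (k : ℕ), k = finrank ℝ (LinearMap.range (Om e)) ∧
      Nonempty (Root (Dual ℝ (LinearMap.ker (Om e))) k) := by
  have hdg := hdg_of h.toBi
  obtain ⟨e, k, ξ, σ, χ, he, D, hmin⟩ := exists_min (exists_maxRank Om) hdg
  have hperp : ∀ z : W, (∀ j, ⟪ξ j, z⟫_ℝ = 0) → ∀ j l, χ j ≠ χ l →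
      ⟪z, Om (σ j) (σ l)⟫_ℝ = 0 := by
    intro z hz j l hjl
    refine D.perp_zero h.toBi he hjl fun x => ?_
    rw [D.rep x, inner_sum]
    refine Finset.sum_eq_zero fun i _ => ?_
    have h1 : ⟪z, ξ i⟫_ℝ = 0 := by rw [real_inner_comm]; exact hz i
    rw [inner_smul_right, h1, mul_zero]
  have one := D.one h.toBi
  have gen1 := (Dg.gen1 h.toBi he D hdg hmin).1
  have gen2 := Dg.gen2 h.toBi he D hdg hmin one
  exact ⟨e, k, D.hk, ⟨D.mkRoot h one (D.two h.toBi he) gen1 gen2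
    (fun A hcl hT => D.conn h.toBi h.irr hperp gen1 A hcl hT)⟩⟩

/-- (K2): an indecomposable symmetric family satisfies `(dim V - dim W) ^ 2 ≤ dim W`. -/
theorem k2_real {Om : V →ₗ[ℝ] V →ₗ[ℝ] W} {J : V →ₗ[ℝ] V} (h : Irr Om J) :
    ∃ s : ℕ, s ^ 2 ≤ finrank ℝ W ∧ finrank ℝ V ≤ finrank ℝ W + s := by
  obtain ⟨e, k, hk, ⟨R⟩⟩ := root_of_irr h
  have h1 := R.card_sq_le
  rw [Subspace.dual_finrank_eq] at h1
  have h3 : finrank ℝ (LinearMap.range (Om e)) ≤ finrank ℝ W := Submodule.finrank_le _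
  have h4 := (Om e).finrank_range_add_finrank_ker
  refine ⟨finrank ℝ (LinearMap.ker (Om e)), by omega, by omega⟩

theorem k2Real : K2Real := fun _ _ _ _ _ _ _ _ _ _ h => k2_real h

end Pool.Agent.Lib.MP_d0f9e0_co.K2
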