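import Pool.Agent.Lib.MP_d0f9e0_co.K2.Defs
import Pool.Agent.Lib.MP_d0f9e0_co.K2.Comb

/-!
# From root data to the incidence structure of the classes
-/

set_option autoImplicit false

open Module Finset

namespace Pool.Agent.Lib.MP_d0f9e0_co.K2

variable {M : Type*} [AddCommGroup M] [Module ℝ M] {k : ℕ}

namespace Root

/-- Two vectors of value one are independent or equal. -/
private theorem indep {ev : M →ₗ[ℝ] ℝ} {X Y : M} (hX : ev X = 1) (hY : ev Y = 1) (h : X ≠ Y)
    {α β : ℝ} (e : α • X + β • Y = 0) : α = 0 ∧ β = 0 := by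
  have h1 : α + β = 0 := by
    have := congrArg ev e
    simpa [hX, hY] using this
  have h2 : β = -α := by linarith
  have h3 : α • (X - Y) = 0 := by
    rw [h2] at e
    rw [smul_sub]
    rw [neg_smul] at e
    rw [sub_eq_add_neg]
    exact e
  rcases smul_eq_zero.1 h3 with h4 | h4
  · exact ⟨h4, by rw [h2, h4, neg_zero]⟩
  · exact absurd (sub_eq_zero.1 h4) h

variable (R : Root M k)

private theorem same {i j l : Fin k} (h : R.χ j = R.χ l) (hi : R.χ i ≠ R.χ j) : R.a i j l = 0 := by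
  have h1 := R.one i j l
  rw [← h] at h1
  have h2 : R.a i j l • R.χ i + (R.a j l i + R.a l i j) • R.χ j = 0 := by
    rw [add_smul, ← add_assoc]
    exact h1
  exact (indep (R.hev i) (R.hev j) hi h2).1

private theorem rot {i j l : Fin k} (_hij : R.χ i ≠ R.χ j) (hil : R.χ i ≠ R.χ l)
    (h : R.a i j l ≠ 0) : R.a j i l ≠ 0 := by
  intro h0
  have h1 := R.one i j l
  have h2 : R.a j l i = 0 := by rw [R.skew, h0, neg_zero]
  rw [h2, zero_smul, add_zero] at h1
  exact h (indep (R.hev i) (R.hev l) hil h1).1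

private theorem col {i j l : Fin k} (h : R.a i j l ≠ 0) :
    R.χ i ∈ Submodule.span ℝ {R.χ j, R.χ l} := by
  have h1 := R.one i j l
  rw [Submodule.mem_span_pair]
  refine ⟨-(R.a i j l)⁻¹ * R.a j l i, -(R.a i j l)⁻¹ * R.a l i j, ?_⟩
  have h2 : R.χ i = -(R.a i j l)⁻¹ • (R.a j l i • R.χ j + R.a l i j • R.χ l) := by
    have h3 : R.a i j l • R.χ i = -(R.a j l i • R.χ j + R.a l i j • R.χ l) := by
      rw [eq_neg_iff_add_eq_zero, ← add_assoc]
      exact h1
    have h4 : R.χ i = (R.a i j l)⁻¹ • (R.a i j l • R.χ i) := by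
      rw [smul_smul, inv_mul_cancel₀ h, one_smul]
    rw [h4, h3, smul_neg, neg_smul]
  rw [h2, smul_add, smul_smul, smul_smul]

/-- A class in the span of two classes is an affine combination. -/
private theorem aff {ev : M →ₗ[ℝ] ℝ} {X Y Z : M} (hX : ev X = 1) (hY : ev Y = 1) (hZ : ev Z = 1)
    (h : Z ∈ Submodule.span ℝ {X, Y}) : ∃ t : ℝ, Z = X + t • (Y - X) := by
  rw [Submodule.mem_span_pair] at h
  obtain ⟨α, β, e⟩ := h
  have h1 : α + β = 1 := by
    have := congrArg ev e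
    simpa [hX, hY, hZ] using this
  refine ⟨β, ?_⟩
  have h2 : α = 1 - β := by linarith
  rw [← e, h2]
  module

private theorem mem_of_aff {X Y : M} (t : ℝ) : X + t • (Y - X) ∈ Submodule.span ℝ {X, Y} := by
  rw [Submodule.mem_span_pair]
  exact ⟨1 - t, t, by module⟩

/-- Two different points of a line span it. -/
private theorem span_eq {ev : M →ₗ[ℝ] ℝ} {X Y Z : M} (hX : ev X = 1) (hY : ev Y = 1)
    (hZ : ev Z = 1) (h : Z ∈ Submodule.span ℝ {X, Y}) (hne : Z ≠ X) :
    Submodule.span ℝ {X, Z} = Submodule.span ℝ {X, Y} := by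
  obtain ⟨t, ht⟩ := aff hX hY hZ h
  have ht0 : t ≠ 0 := by
    rintro rfl
    exact hne (by rw [ht]; module)
  apply le_antisymm
  · rw [Submodule.span_le]
    rintro w (rfl | rfl)
    · exact Submodule.subset_span (by simp)
    · exact h
  · rw [Submodule.span_le]
    rintro w (rfl | rfl)
    · exact Submodule.subset_span (by simp)
    · rw [SetLike.mem_coe, Submodule.mem_span_pair]
      refine ⟨1 - t⁻¹, t⁻¹, ?_⟩
      rw [ht]
      have : t⁻¹ * t = 1 := inv_mul_cancel₀ ht0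
      calc (1 - t⁻¹) • X + t⁻¹ • (X + t • (w - X))
          = X + (t⁻¹ * t) • (w - X) := by module
        _ = w := by rw [this]; module

/-- The relation between the three structure constants of a collinear triple. -/
private theorem rel {i l0 : Fin k} (hne : R.χ l0 ≠ R.χ i) {j g l : Fin k} (hj : R.χ j = R.χ i)
    {dg dl : ℝ} (hg : R.χ g = R.χ i + dg • (R.χ l0 - R.χ i))
    (hl : R.χ l = R.χ i + dl • (R.χ l0 - R.χ i)) :
    dl * R.a j g l = (dg - dl) * R.a g l j := by
  have h1 := R.one j g l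
  have h2 : R.a j g l + R.a g l j + R.a l j g = 0 := by
    have := congrArg R.ev h1
    simpa [R.hev] using this
  rw [hj, hg, hl] at h1
  have h3 : (dg * R.a g l j + dl * R.a l j g) • (R.χ l0 - R.χ i) = 0 := by
    have h4 : (R.a j g l + R.a g l j + R.a l j g) • R.χ i +
        (dg * R.a g l j + dl * R.a l j g) • (R.χ l0 - R.χ i) = 0 := by
      rw [← h1]
      module
    rw [h2, zero_smul, zero_add] at h4
    exact h4
  have h5 : dg * R.a g l j + dl * R.a l j g = 0 := by
    rcases smul_eq_zero.1 h3 with h | h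
    · exact h
    · exact absurd (sub_eq_zero.1 h) hne
  linear_combination dl * h2 - h5

open Classical in
/-- The key lemma: either the class of `i` does not interact in the flat of `i`, `l0`, or the
interactions span the whole eigenspace. -/
private theorem key {i l0 : Fin k} (hne : R.χ l0 ≠ R.χ i) (y : Fin k → ℝ)
    (hy : ∃ j, R.χ j = R.χ i ∧ y j ≠ 0)
    (ho : ∀ p q, R.χ p ∈ Submodule.span ℝ {R.χ i, R.χ l0} →
      R.χ q ∈ Submodule.span ℝ {R.χ i, R.χ l0} → R.χ p ≠ R.χ i → R.χ q ≠ R.χ i →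
      R.χ p ≠ R.χ q → ∑ j with R.χ j = R.χ i, y j * R.a j p q = 0)
    {j p q : Fin k} (hj : R.χ j = R.χ i) (hp : R.χ p ∈ Submodule.span ℝ {R.χ i, R.χ l0})
    (hq : R.χ q ∈ Submodule.span ℝ {R.χ i, R.χ l0}) (hpi : R.χ p ≠ R.χ i) (hqi : R.χ q ≠ R.χ i)
    (hpq : R.χ p ≠ R.χ q) : R.a j p q = 0 := by
  set F : Finset (Fin k) := univ.filter fun g => R.χ g ≠ R.χ i ∧
    R.χ g ∈ Submodule.span ℝ {R.χ i, R.χ l0} with hF
  have memF : ∀ g, g ∈ F ↔ (R.χ g ≠ R.χ i ∧ R.χ g ∈ Submodule.span ℝ {R.χ i, R.χ l0}) := by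
    intro g
    simp [hF]
  have hd : ∀ g, ∃ d : ℝ, g ∈ F → R.χ g = R.χ i + d • (R.χ l0 - R.χ i) := by
    intro g
    by_cases hg : g ∈ F
    · obtain ⟨t, ht⟩ := aff (R.hev i) (R.hev l0) (R.hev g) ((memF g).1 hg).2
      exact ⟨t, fun _ => ht⟩
    · exact ⟨0, fun h => absurd h hg⟩
  choose d hd using hd
  have hd0 : ∀ g ∈ F, d g ≠ 0 := by
    intro g hg h0
    apply ((memF g).1 hg).1
    rw [hd g hg, h0, zero_smul, add_zero]
  have hdne : ∀ g ∈ F, ∀ l ∈ F, R.χ g ≠ R.χ l → d g ≠ d l := by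
    intro g hg l hl h h0
    apply h
    rw [hd g hg, hd l hl, h0]
  have hdeq : ∀ g ∈ F, ∀ l ∈ F, R.χ g = R.χ l → d g = d l := by
    intro g hg l hl h
    rw [hd g hg, hd l hl] at h
    have h1 : (d g - d l) • (R.χ l0 - R.χ i) = 0 := by
      rw [sub_smul, sub_eq_zero]
      exact add_left_cancel h
    rcases smul_eq_zero.1 h1 with h2 | h2
    · exact sub_eq_zero.1 h2
    · exact absurd (sub_eq_zero.1 h2) hne
  -- the second genericity relation at `l`
  have step : ∀ l ∈ F, ∀ j', R.χ j' = R.χ i →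
      ∑ g ∈ F, ((d g)⁻¹ - (d l)⁻¹) * (R.a g l j') ^ 2 = 0 := by
    intro l hl
    have hlm := (memF l).1 hl
    have hspan := span_eq (R.hev i) (R.hev l0) (R.hev l) hlm.2 hlm.1
    obtain ⟨s, hs⟩ := R.gen2 i l hlm.1 (fun g => d g / d l) F
      (fun g => by rw [memF g, hspan])
      (fun g hg => by
        have e : R.χ l - R.χ i = d l • (R.χ l0 - R.χ i) := by
          rw [hd l hl]
          module
        rw [e, smul_smul, div_mul_cancel₀ _ (hd0 l hl)]
        exact hd g hg)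
    have hz : ∀ g ∈ F, R.χ g ≠ R.χ l → ∑ j' with R.χ j' = R.χ i, y j' * R.a g l j' = 0 := by
      intro g hg hgl
      have h1 := ho g l ((memF g).1 hg).2 hlm.2 ((memF g).1 hg).1 hlm.1 hgl
      have h2 : (d g - d l) * ∑ j' with R.χ j' = R.χ i, y j' * R.a g l j' =
          d l * ∑ j' with R.χ j' = R.χ i, y j' * R.a j' g l := by
        rw [Finset.mul_sum, Finset.mul_sum]
        apply Finset.sum_congr rfl
        intro j' hj'
        have h3 := R.rel hne (Finset.mem_filter.1 hj').2 (hd g hg) (hd l hl)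
        linear_combination -(y j') * h3
      rw [h1, mul_zero] at h2
      exact (mul_eq_zero.1 h2).resolve_left (sub_ne_zero.2 (hdne g hg l hl hgl))
    -- quadratic form of the relation at `y`
    have hq1 : s * ∑ j' with R.χ j' = R.χ i, (y j') ^ 2 = 0 := by
      have h1 : ∑ j' with R.χ j' = R.χ i, ∑ j'' with R.χ j'' = R.χ i,
          y j' * y j'' * (∑ g ∈ F, ((d g / d l)⁻¹ - (d l / d l)⁻¹) *
            (R.a g l j' * R.a g l j'')) = s * ∑ j' with R.χ j' = R.χ i, (y j') ^ 2 := by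
        rw [Finset.mul_sum]
        apply Finset.sum_congr rfl
        intro j' hj'
        rw [Finset.sum_eq_single j']
        · rw [hs j' j' (Finset.mem_filter.1 hj').2 (Finset.mem_filter.1 hj').2, if_pos rfl]
          ring
        · intro b hb hbj
          rw [hs j' b (Finset.mem_filter.1 hj').2 (Finset.mem_filter.1 hb).2,
            if_neg (fun h => hbj h.symm), mul_zero]
        · intro h
          exact absurd hj' h
      rw [← h1]
      have h2 : ∑ j' with R.χ j' = R.χ i, ∑ j'' with R.χ j'' = R.χ i,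
          y j' * y j'' * (∑ g ∈ F, ((d g / d l)⁻¹ - (d l / d l)⁻¹) *
            (R.a g l j' * R.a g l j'')) =
          ∑ g ∈ F, ((d g / d l)⁻¹ - (d l / d l)⁻¹) *
            ((∑ j' with R.χ j' = R.χ i, y j' * R.a g l j') *
            (∑ j'' with R.χ j'' = R.χ i, y j'' * R.a g l j'')) := by
        simp only [Finset.mul_sum, Finset.sum_mul]
        rw [Finset.sum_congr rfl fun j' _ => Finset.sum_comm]
        rw [Finset.sum_comm]
        apply Finset.sum_congr rfl
        intro g _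
        rw [Finset.sum_comm]
        apply Finset.sum_congr rfl
        intro j' _
        apply Finset.sum_congr rfl
        intro j'' _
        ring
      rw [h2]
      apply Finset.sum_eq_zero
      intro g hg
      by_cases hgl : R.χ g = R.χ l
      · rw [hdeq g hg l hl hgl, sub_self, zero_mul]
      · rw [hz g hg hgl, zero_mul, mul_zero]
    have hs0 : s = 0 := by
      rcases mul_eq_zero.1 hq1 with h | h
      · exact h
      · exfalso
        obtain ⟨j1, hj1, hy1⟩ := hy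
        have h1 := (Finset.sum_eq_zero_iff_of_nonneg (fun j' _ => sq_nonneg (y j'))).1 h j1
          (Finset.mem_filter.2 ⟨Finset.mem_univ _, hj1⟩)
        exact hy1 (pow_eq_zero_iff (two_ne_zero)|>.1 h1)
    intro j' hj'
    have h1 := hs j' j' hj' hj'
    rw [if_pos rfl, hs0] at h1
    have h2 : d l * ∑ g ∈ F, ((d g)⁻¹ - (d l)⁻¹) * (R.a g l j') ^ 2 = 0 := by
      rw [← h1, Finset.mul_sum]
      apply Finset.sum_congr rfl
      intro g hg
      have hg0 := hd0 g hg
      have hl0 := hd0 l hl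
      field_simp
    exact (mul_eq_zero.1 h2).resolve_left (hd0 l hl)
  -- the set of interacting `l`
  by_contra hjpq
  set B : Finset (Fin k) := F.filter fun l => ∃ j', R.χ j' = R.χ i ∧ ∃ g ∈ F, R.χ g ≠ R.χ l ∧
    R.a g l j' ≠ 0 with hB
  have hpF : p ∈ F := (memF p).2 ⟨hpi, hp⟩
  have hqF : q ∈ F := (memF q).2 ⟨hqi, hq⟩
  have hqB : q ∈ B := by
    rw [hB, Finset.mem_filter]
    refine ⟨hqF, j, hj, p, hpF, hpq, ?_⟩
    have h1 : R.a p j q ≠ 0 := R.rot (by rw [hj]; exact hpi.symm) (by rw [hj]; exact hqi.symm) hjpq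
    rw [R.skew]
    exact neg_ne_zero.2 h1
  obtain ⟨l, hlB, hmax⟩ := Finset.exists_max_image B (fun g => (d g)⁻¹) ⟨q, hqB⟩
  obtain ⟨hlF, j', hj', g, hg, hgl, hne'⟩ := Finset.mem_filter.1 hlB
  have h1 := step l hlF j' hj'
  have hterm : ∀ g ∈ F, ((d g)⁻¹ - (d l)⁻¹) * (R.a g l j') ^ 2 ≤ 0 := by
    intro g hg
    by_cases h2 : (d g)⁻¹ ≤ (d l)⁻¹
    · exact mul_nonpos_of_nonpos_of_nonneg (by linarith) (sq_nonneg _)
    · have h3 : R.a g l j' = 0 := by
        by_contra h4
        have h5 : R.χ g ≠ R.χ l := by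
          intro h6
          exact h2 (by rw [hdeq g hg l hlF h6])
        have h6 : R.a l g j' ≠ 0 := R.rot h5 (by rw [hj']; exact ((memF g).1 hg).1) h4
        have h7 : g ∈ B := by
          rw [hB, Finset.mem_filter]
          exact ⟨hg, j', hj', l, hlF, h5.symm, h6⟩
        exact h2 (hmax g h7)
      rw [h3]
      simp
  have h2 := (Finset.sum_eq_zero_iff_of_nonpos hterm).1 h1 g hg
  rcases mul_eq_zero.1 h2 with h3 | h3
  · exact hdne g hg l hlF hgl (inv_injective (sub_eq_zero.1 h3))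
  · exact hne' (pow_eq_zero_iff (two_ne_zero)|>.1 h3)

open Classical in
/-- If the class of `i` interacts in the flat of `i`, `l0` then every nonzero vector of its
eigenspace is seen by an interaction. -/
private theorem seen {i l0 : Fin k} (hne : R.χ l0 ≠ R.χ i) {j p q : Fin k} (hj : R.χ j = R.χ i)
    (hp : R.χ p ∈ Submodule.span ℝ {R.χ i, R.χ l0})
    (hq : R.χ q ∈ Submodule.span ℝ {R.χ i, R.χ l0}) (hpi : R.χ p ≠ R.χ i) (hqi : R.χ q ≠ R.χ i)
    (hpq : R.χ p ≠ R.χ q) (h : R.a j p q ≠ 0) (y : Fin k → ℝ)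
    (hy : ∃ j, R.χ j = R.χ i ∧ y j ≠ 0) :
    ∃ s u, R.χ s ∈ Submodule.span ℝ {R.χ i, R.χ l0} ∧
      R.χ u ∈ Submodule.span ℝ {R.χ i, R.χ l0} ∧ R.χ s ≠ R.χ i ∧ R.χ u ≠ R.χ i ∧
      R.χ s ≠ R.χ u ∧ ∑ j with R.χ j = R.χ i, y j * R.a j s u ≠ 0 := by
  by_contra hcon
  push Not at hcon
  exact h (R.key hne y hy (fun p q h1 h2 h3 h4 h5 => hcon p q h1 h2 h3 h4 h5) hj hp hq hpi hqi hpq)

/-- The interaction relation between classes. -/
private def Tr (X P Q : M) : Prop :=
  X ≠ P ∧ X ≠ Q ∧ P ≠ Q ∧ ∃ i j l, R.χ i = X ∧ R.χ j = P ∧ R.χ l = Q ∧ R.a i j l ≠ 0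

private theorem tr_swap {X P Q : M} (h : R.Tr X P Q) : R.Tr X Q P := by
  obtain ⟨h1, h2, h3, i, j, l, hi, hj, hl, h⟩ := h
  refine ⟨h2, h1, h3.symm, i, l, j, hi, hl, hj, ?_⟩
  rw [R.skew]
  exact neg_ne_zero.2 h

private theorem tr_rot {X P Q : M} (h : R.Tr X P Q) : R.Tr P X Q := by
  obtain ⟨h1, h2, h3, i, j, l, hi, hj, hl, h⟩ := h
  refine ⟨h1.symm, h3, h2, j, i, l, hj, hi, hl, ?_⟩
  exact R.rot (by rw [hi, hj]; exact h1) (by rw [hi, hl]; exact h2) h

private theorem tr_col {X P Q : M} (h : R.Tr X P Q) : X ∈ Submodule.span ℝ {P, Q} := by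
  obtain ⟨_, _, _, i, j, l, hi, hj, hl, h⟩ := h
  rw [← hi, ← hj, ← hl]
  exact R.col h

private theorem tr_col' {X P Q : M} (h : R.Tr X P Q) : Q ∈ Submodule.span ℝ {X, P} :=
  R.tr_col (R.tr_rot (R.tr_swap h))

/-- In the plane case: a common point of two lines. -/
private theorem meet {ev : M →ₗ[ℝ] ℝ} {X Y Z W : M} (hX : ev X = 1) (hY : ev Y = 1)
    (hZ : ev Z = 1) (hW : ev W = 1) (h1 : W ∈ Submodule.span ℝ {X, Y})
    (h2 : W ∈ Submodule.span ℝ {X, Z}) (h3 : Z ∉ Submodule.span ℝ {X, Y}) : W = X := by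
  by_contra hne
  apply h3
  rw [← span_eq hX hY hW h1 hne, span_eq hX hZ hW h2 hne]
  exact Submodule.subset_span (by simp)

open Classical in
private theorem tr_pasch {X P Q S U : M} (h : R.Tr X P Q) (h' : R.Tr X S U)
    (hS : S ∉ Submodule.span ℝ {X, P}) :
    ∃ S' U' Y, S' ∈ Submodule.span ℝ {X, S} ∧ U' ∈ Submodule.span ℝ {X, S} ∧
      R.Tr X S' U' ∧ R.Tr Y P S' ∧ R.Tr Y Q U' := by
  have hQ := R.tr_col' h
  have hU := R.tr_col' h'
  obtain ⟨hXP, hXQ, hPQ, x, p, q, hx, hp, hq, ha⟩ := h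
  obtain ⟨hXS, hXU, hSU, x', s, u, hx', hs, hu, ha'⟩ := h'
  subst hx hp hq hs hu
  have hsu := R.seen (i := x) (l0 := s) hXS.symm hx'
    (Submodule.subset_span (by simp)) hU hXS.symm hXU.symm hSU ha'
    (fun j => R.a j p q) ⟨x, rfl, ha⟩
  obtain ⟨s1, u1, hs1, hu1, hs1x, hu1x, hsu1, hsum⟩ := hsu
  have ev := R.hev
  -- no point besides `X` is on both lines
  have hno : ∀ W Z : Fin k, R.χ W ∈ Submodule.span ℝ {R.χ x, R.χ p} →
      R.χ Z ∈ Submodule.span ℝ {R.χ x, R.χ s} → R.χ Z ≠ R.χ x → R.χ W ≠ R.χ Z := by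
    intro W Z hW hZ hZx hWZ
    rw [← hWZ] at hZ hZx
    exact hZx (meet (ev x) (ev p) (ev s) (ev W) hW hZ hS)
  have hpm : R.χ p ∈ Submodule.span ℝ {R.χ x, R.χ p} := Submodule.subset_span (by simp)
  -- the first sum
  have hfirst : ∑ i, R.a i p q * R.a i s1 u1 ≠ 0 := by
    have h1 : ∑ i, R.a i p q * R.a i s1 u1 =
        ∑ j with R.χ j = R.χ x, R.a j p q * R.a j s1 u1 := by
      rw [Finset.sum_filter]
      apply Finset.sum_congr rfl
      intro i _
      by_cases hi : R.χ i = R.χ x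
      · rw [if_pos hi]
      · rw [if_neg hi]
        by_contra h2
        have h3 := left_ne_zero_of_mul h2
        have h4 := right_ne_zero_of_mul h2
        have h5 : R.χ i ∈ Submodule.span ℝ {R.χ x, R.χ p} := by
          have h6 := R.col h3
          refine (Submodule.span_le.2 ?_) h6
          rintro w (rfl | rfl)
          · exact hpm
          · exact hQ
        have h7 : R.χ i ∈ Submodule.span ℝ {R.χ x, R.χ s} := by
          have h8 := R.col h4
          refine (Submodule.span_le.2 ?_) h8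
          rintro w (rfl | rfl)
          · exact hs1
          · exact hu1
        exact hi (meet (ev x) (ev p) (ev s) (ev i) h5 h7 hS)
    rw [h1]
    exact hsum
  have hps := hno p s1 hpm hs1 hs1x
  have hpu := hno p u1 hpm hu1 hu1x
  have hqs := hno q s1 hQ hs1 hs1x
  have hqu := hno q u1 hQ hu1 hu1x
  have htwo := R.two p q s1 u1 hPQ hps hpu hqs hqu hsu1
  rw [Finset.sum_add_distrib, Finset.sum_sub_distrib] at htwo
  -- a point which is joined to `P`, `A` and to `Q`, `B` is none of the four points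
  have aux : ∀ (i A B : Fin k), R.χ A ∈ Submodule.span ℝ {R.χ x, R.χ s} →
      R.χ B ∈ Submodule.span ℝ {R.χ x, R.χ s} → R.χ A ≠ R.χ x → R.χ B ≠ R.χ x →
      R.χ A ≠ R.χ B → R.a i p A * R.a i q B ≠ 0 →
      R.Tr (R.χ i) (R.χ p) (R.χ A) ∧ R.Tr (R.χ i) (R.χ q) (R.χ B) := by
    intro i A B hA hB hAx hBx hAB hi
    have h1 := left_ne_zero_of_mul hi
    have h2 := right_ne_zero_of_mul hi
    have c1 := R.col h1
    have c2 := R.col h2
    have hpA := hno p A hpm hA hAx
    have hpB := hno p B hpm hB hBx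
    have hqA := hno q A hQ hA hAx
    have hqB := hno q B hQ hB hBx
    -- `Q` is not on the line `P`, `A`
    have n1 : ∀ (a b c : Fin k), R.χ a ∈ Submodule.span ℝ {R.χ x, R.χ p} →
        R.χ b ∈ Submodule.span ℝ {R.χ x, R.χ p} → R.χ c ∈ Submodule.span ℝ {R.χ x, R.χ s} →
        R.χ c ≠ R.χ x → R.χ a ≠ R.χ b → R.χ a ∉ Submodule.span ℝ {R.χ b, R.χ c} := by
      intro a b c hta htb htc hcx hab hmem
      have h3 : Submodule.span ℝ {R.χ b, R.χ a} = Submodule.span ℝ {R.χ b, R.χ c} :=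
        span_eq (ev b) (ev c) (ev a) hmem hab
      have h4 : R.χ c ∈ Submodule.span ℝ {R.χ b, R.χ a} := by
        rw [h3]
        exact Submodule.subset_span (by simp)
      have h5 : R.χ c ∈ Submodule.span ℝ {R.χ x, R.χ p} := by
        refine (Submodule.span_le.2 ?_) h4
        rintro w (rfl | rfl)
        · exact htb
        · exact hta
      exact hno c c h5 htc hcx rfl
    have n2 : ∀ (a b c : Fin k), R.χ a ∈ Submodule.span ℝ {R.χ x, R.χ s} →
        R.χ b ∈ Submodule.span ℝ {R.χ x, R.χ s} → R.χ c ∈ Submodule.span ℝ {R.χ x, R.χ p} →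
        R.χ a ≠ R.χ x → R.χ b ≠ R.χ x →
        R.χ a ≠ R.χ b → R.χ c ≠ R.χ x → R.χ a ∉ Submodule.span ℝ {R.χ c, R.χ b} := by
      intro a b c hta htb htc hax hbx hab hcx hmem
      have h3 : Submodule.span ℝ {R.χ b, R.χ a} = Submodule.span ℝ {R.χ b, R.χ c} := by
        refine span_eq (ev b) (ev c) (ev a) ?_ hab
        rw [Set.pair_comm]
        exact hmem
      have h4 : R.χ c ∈ Submodule.span ℝ {R.χ b, R.χ a} := by
        rw [h3]
        exact Submodule.subset_span (by simp)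
      have h5 : R.χ c ∈ Submodule.span ℝ {R.χ x, R.χ s} := by
        refine (Submodule.span_le.2 ?_) h4
        rintro w (rfl | rfl)
        · exact htb
        · exact hta
      exact hno c c htc h5 hcx rfl
    have e1 : R.χ i ≠ R.χ p := by
      intro e
      rw [e] at c2
      exact n1 p q B hpm hQ hB hBx hPQ c2
    have e2 : R.χ i ≠ R.χ q := by
      intro e
      rw [e] at c1
      exact n1 q p A hQ hpm hA hAx hPQ.symm c1
    have e3 : R.χ i ≠ R.χ A := by
      intro e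
      rw [e] at c2
      exact n2 A B q hA hB hQ hAx hBx hAB hXQ.symm c2
    have e4 : R.χ i ≠ R.χ B := by
      intro e
      rw [e] at c1
      exact n2 B A p hB hA hpm hBx hAx hAB.symm hXP.symm c1
    exact ⟨⟨e1, e3, hpA, i, p, A, rfl, rfl, rfl, h1⟩, ⟨e2, e4, hqB, i, q, B, rfl, rfl, rfl, h2⟩⟩
  have hT : R.Tr (R.χ x) (R.χ s1) (R.χ u1) := by
    obtain ⟨j, hj, hj2⟩ := Finset.exists_ne_zero_of_sum_ne_zero hsum
    exact ⟨hs1x.symm, hu1x.symm, hsu1, j, s1, u1, (Finset.mem_filter.1 hj).2, rfl, rfl,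
      right_ne_zero_of_mul hj2⟩
  by_cases hc : ∑ i, R.a i p s1 * R.a i q u1 = 0
  · have hc2 : ∑ i, R.a i p u1 * R.a i q s1 ≠ 0 := by
      intro hc3
      rw [hc, hc3, sub_zero, add_zero] at htwo
      exact hfirst htwo
    obtain ⟨i, _, hi⟩ := Finset.exists_ne_zero_of_sum_ne_zero hc2
    obtain ⟨t1, t2⟩ := aux i u1 s1 hu1 hs1 hu1x hs1x hsu1.symm hi
    exact ⟨R.χ u1, R.χ s1, R.χ i, hu1, hs1, R.tr_swap hT, t1, t2⟩
  · obtain ⟨i, _, hi⟩ := Finset.exists_ne_zero_of_sum_ne_zero hc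
    obtain ⟨t1, t2⟩ := aux i s1 u1 hs1 hu1 hs1x hu1x hsu1 hi
    exact ⟨R.χ s1, R.χ u1, R.χ i, hs1, hu1, hT, t1, t2⟩

open Classical in
private theorem tr_four {i0 : Fin k} (hc0 : R.c i0 ≠ 0) {P Q : M} (h : R.Tr (R.χ i0) P Q) :
    ∃ P' Q' K, P' ∈ Submodule.span ℝ {R.χ i0, P} ∧ Q' ∈ Submodule.span ℝ {R.χ i0, P} ∧
      R.Tr (R.χ i0) P' Q' ∧ R.Tr K P' Q' ∧ K ≠ R.χ i0 := by
  have hQ := R.tr_col' h
  obtain ⟨hXP, hXQ, hPQ, x, p0, q0, hx, hp, hq, ha⟩ := h
  subst hp hq
  obtain ⟨p, q, hpm, hqm, hpx, hqx, hpq, hsum⟩ := R.seen (i := i0) (l0 := p0) hXP.symm hx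
    (Submodule.subset_span (by simp)) hQ hXP.symm hXQ.symm hPQ ha R.c ⟨i0, rfl, hc0⟩
  have ev := R.hev
  obtain ⟨dp, hdp⟩ := aff (ev i0) (ev p0) (ev p) hpm
  obtain ⟨dq, hdq⟩ := aff (ev i0) (ev p0) (ev q) hqm
  have hdq0 : dq ≠ 0 := by
    rintro rfl
    exact hqx (by rw [hdq, zero_smul, add_zero])
  -- the class of `i0` contributes to the relation of the complex structure
  have h1 : ∑ j with R.χ j = R.χ i0, R.c j * R.a p j q ≠ 0 := by
    intro h0
    have h2 : dq * ∑ j with R.χ j = R.χ i0, R.c j * R.a j p q =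
        -(dp - dq) * ∑ j with R.χ j = R.χ i0, R.c j * R.a p j q := by
      rw [Finset.mul_sum, Finset.mul_sum]
      apply Finset.sum_congr rfl
      intro j hj
      have h3 := R.rel hXP.symm (Finset.mem_filter.1 hj).2 hdp hdq
      have h4 := R.skew p j q
      linear_combination (R.c j) * h3 + (dp - dq) * R.c j * h4
    rw [h0, mul_zero] at h2
    rcases mul_eq_zero.1 h2 with h | h
    · exact hdq0 h
    · exact hsum h
  have hT : R.Tr (R.χ i0) (R.χ p) (R.χ q) := by
    obtain ⟨j, hj, hj2⟩ := Finset.exists_ne_zero_of_sum_ne_zero hsum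
    exact ⟨hpx.symm, hqx.symm, hpq, j, p, q, (Finset.mem_filter.1 hj).2, rfl, rfl,
      right_ne_zero_of_mul hj2⟩
  by_contra hcon
  push Not at hcon
  have hK : ∀ j, R.χ j ≠ R.χ i0 → R.χ j ≠ R.χ p → R.a p j q = 0 := by
    intro j hj0 hjp
    by_cases hjq : R.χ j = R.χ q
    · exact R.same hjq hjp.symm
    · by_contra h2
      have h3 : R.a j p q ≠ 0 := R.rot hjp.symm hpq h2
      exact hj0 (hcon (R.χ p) (R.χ q) (R.χ j) hpm hqm hT
        ⟨hjp, hjq, hpq, j, p, q, rfl, rfl, rfl, h3⟩)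
  obtain ⟨r, hr⟩ := R.cplx p q (fun e => hpq (by rw [e]))
  have h2 : ∑ j, (R.c j * R.a p j q) • R.χ j =
      (∑ j with R.χ j = R.χ i0, R.c j * R.a p j q) • R.χ i0 +
      (∑ j with R.χ j = R.χ p, R.c j * R.a p j q) • R.χ p := by
    rw [Finset.sum_filter, Finset.sum_filter, Finset.sum_smul, Finset.sum_smul,
      ← Finset.sum_add_distrib]
    apply Finset.sum_congr rfl
    intro j _
    by_cases hj0 : R.χ j = R.χ i0
    · have hjp : R.χ j ≠ R.χ p := by
        rw [hj0]
        exact hpx.symm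
      rw [if_pos hj0, if_neg hjp, zero_smul, add_zero, hj0]
    · by_cases hjp : R.χ j = R.χ p
      · rw [if_neg hj0, if_pos hjp, zero_smul, zero_add, hjp]
      · rw [if_neg hj0, if_neg hjp, hK j hj0 hjp]
        simp
  rw [hr] at h2
  have h3 : (∑ j with R.χ j = R.χ i0, R.c j * R.a p j q) • R.χ i0 +
      ((∑ j with R.χ j = R.χ p, R.c j * R.a p j q) - r) • R.χ p = 0 := by
    rw [sub_smul, h2]
    abel
  exact h1 (indep (ev i0) (ev p) hpx.symm h3).1

include R in
open Classical in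
/-- Root data give the incidence structure. -/
theorem exists_inc (hk : 0 < k) :
    ∃ C : Finset M, C.card ≤ k ∧ Nonempty (Inc M C) := by
  have ev := R.hev
  -- a class with `c ≠ 0`
  have hex : ∃ i, R.c i ≠ 0 := by
    by_contra hcon
    push Not at hcon
    have h1 : {X | ∃ i, R.c i ≠ 0 ∧ R.χ i = X} = (∅ : Set M) := by
      rw [Set.eq_empty_iff_forall_notMem]
      rintro X ⟨i, hi, _⟩
      exact hi (hcon i)
    have h2 := R.spanc
    rw [h1, Submodule.span_empty] at h2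
    have h3 : R.χ ⟨0, hk⟩ ∈ (⊥ : Submodule ℝ M) := by
      rw [h2]
      trivial
    rw [Submodule.mem_bot] at h3
    have h4 := ev ⟨0, hk⟩
    rw [h3, map_zero] at h4
    exact zero_ne_one h4
  obtain ⟨i0, hi0⟩ := hex
  refine ⟨Finset.univ.image R.χ, ?_, ⟨?_⟩⟩
  · exact Finset.card_image_le.trans (by simp)
  have hmem : ∀ {X P Q : M}, R.Tr X P Q → X ∈ Finset.univ.image R.χ ∧
      P ∈ Finset.univ.image R.χ ∧ Q ∈ Finset.univ.image R.χ := by
    rintro X P Q ⟨_, _, _, i, j, l, rfl, rfl, rfl, _⟩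
    exact ⟨Finset.mem_image_of_mem _ (Finset.mem_univ _), Finset.mem_image_of_mem _
      (Finset.mem_univ _), Finset.mem_image_of_mem _ (Finset.mem_univ _)⟩
  exact
  { T := R.Tr
    ev := R.ev
    hev := by
      intro X hX
      obtain ⟨i, _, rfl⟩ := Finset.mem_image.1 hX
      exact ev i
    memT := hmem
    neT := fun h => ⟨h.1, h.2.1, h.2.2.1⟩
    swap := R.tr_swap
    rot := R.tr_rot
    col := R.tr_col'
    pasch := fun h h' hS => R.tr_pasch h h' hS
    span := by
      rw [Finset.coe_image, Finset.coe_univ, Set.image_univ]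
      exact R.span
    conn := by
      intro A hA hT
      have h1 := R.conn {i | R.χ i ∈ A}
        (fun i j h => by
          change R.χ i ∈ A ↔ R.χ j ∈ A
          rw [h])
        (fun i j l h1 h2 h3 h4 => by
          change R.χ i ∈ A ↔ R.χ j ∈ A
          exact hT _ _ _ ⟨h1, h2, h3, i, j, l, rfl, rfl, rfl, h4⟩)
      rcases h1 with h1 | h1
      · left
        rw [Finset.eq_empty_iff_forall_notMem]
        intro X hX
        obtain ⟨i, _, rfl⟩ := Finset.mem_image.1 (hA hX)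
        have h2 : i ∈ ({i | R.χ i ∈ A} : Set (Fin k)) := hX
        rw [h1] at h2
        exact h2
      · right
        apply Finset.Subset.antisymm hA
        intro X hX
        obtain ⟨i, _, rfl⟩ := Finset.mem_image.1 hX
        have h2 : i ∈ ({i | R.χ i ∈ A} : Set (Fin k)) := by
          rw [h1]
          trivial
        exact h2
    X0 := R.χ i0
    hX0 := Finset.mem_image_of_mem _ (Finset.mem_univ _)
    four := fun h => R.tr_four hi0 h }

include R in
/-- The number of eigenfunctionals is at least the square of the dimension of the kernel. -/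
theorem card_sq_le : finrank ℝ M ^ 2 ≤ k := by
  have : FiniteDimensional ℝ M := by
    refine Module.finite_def.2 ⟨(Set.finite_range R.χ).toFinset, ?_⟩
    rw [Set.Finite.coe_toFinset]
    exact R.span
  rcases Nat.eq_zero_or_pos k with h0 | h0
  · subst h0
    have h1 : Set.range R.χ = ∅ := Set.range_eq_empty _
    have h2 := R.span
    rw [h1, Submodule.span_empty] at h2
    have h3 : finrank ℝ M = 0 := by
      rw [← finrank_top ℝ M, ← h2, finrank_bot]
    rw [h3]
    norm_num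
  · obtain ⟨C, hC, ⟨I⟩⟩ := R.exists_inc h0
    exact I.card.trans hC

end Root

end Pool.Agent.Lib.MP_d0f9e0_co.K2
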